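import Pool.Agent.Run7.h676.Mul

/-!
# The shift in coordinates
-/

set_option autoImplicit false

namespace Run7.h676

/-- the shift -/
structure Shift {T : Type*} [Group T] (D : Dat T) where
  α : T →* T
  a0 : α D.t0 = D.t0 * D.t1
  a1 : α D.t1 = D.t1 * D.t2
  a2 : α D.t2 = D.t2 * D.t3
  a3 : α D.t3 = D.t3 * D.t4
  a4 : α D.t4 = D.t4 * D.c5
  a5 : α (D.c5 : T) = D.c5 * D.c6
  a6 : α (D.c6 : T) = D.c6

namespace V

def T0 : V := { zero with a0 := 1 }
def T1 : V := { zero with a1 := 1 }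
def D1 : V := { zero with b1 := 1 }
def T2 : V := { zero with a2 := 1 }
def D2 : V := { zero with b2 := 1 }
def T3 : V := { zero with a3 := 1 }
def T4 : V := { zero with a4 := 1 }
def C5 : V := { zero with c5 := 1 }
def C6 : V := { zero with c6 := 1 }
def F03 : V := { zero with f03 := 1 }
def F12 : V := { zero with f12 := 1 }
def F04 : V := { zero with f04 := 1 }
def F13 : V := { zero with f13 := 1 }
def E0 : V := { zero with e0 := 1 }
def E1 : V := { zero with e1 := 1 }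
def E2 : V := { zero with e2 := 1 }

/-- multiple of a vector -/
def smul (k : ℕ) (v : V) : V :=
  ⟨k * v.a0, k * v.a1, k * v.b1, k * v.a2, k * v.b2, k * v.a3, k * v.a4, k * v.c5, k * v.c6,
    k * v.f03, k * v.f12, k * v.f04, k * v.f13, k * v.e0, k * v.e1, k * v.e2⟩

/-- images of the generators -/
def I0 : V := T0.mul T1
def I1 : V := T1.mul T2
def ID1 : V := { zero with b1 := 1, b2 := 1, f12 := 1, e1 := 1 }
def I2 : V := T2.mul T3
def ID2 : V := { zero with b2 := 1, f03 := 1, f12 := 1, f13 := 1 }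
def I3 : V := T3.mul T4
def I4 : V := T4.mul C5

def P01 (k : ℕ) : V := { zero with a0 := k, a1 := k, b1 := c2 k, e0 := c3 k, e1 := 2 * c3 k + c2 k }
def P12 (k : ℕ) : V := { zero with a1 := k, a2 := k, f12 := c2 k }

/-- image of the central part -/
def Zal (v : V) : V :=
  { zero with c5 := v.c5, c6 := v.c5 + v.c6, f03 := v.f03, f12 := v.f12, f04 := v.f03 + v.f04, f13 := v.f03 + v.f12 + v.f13, e0 := v.e0, e1 := v.e0 + v.e1, e2 := v.e0 + v.e2 }

/-- the shift -/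
def alpha (v : V) : V :=
  (((((((P01 v.a0).mul (P12 v.a1)).mul (smul v.b1 ID1)).mul (smul v.a2 I2)).mul
    (smul v.b2 ID2)).mul (smul v.a3 I3)).mul (smul v.a4 I4)).mul (Zal v)

end V

namespace Dat
variable {T : Type*} [Group T] (D : Dat T)

open V

theorem ev_T0 : D.ev T0 = D.t0 := by simp [ev, evZ, T0, zero]
theorem ev_T1 : D.ev T1 = D.t1 := by simp [ev, evZ, T1, zero]
theorem ev_D1 : D.ev D1 = D.d1 := by simp [ev, evZ, D1, zero]
theorem ev_T2 : D.ev T2 = D.t2 := by simp [ev, evZ, T2, zero]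
theorem ev_D2 : D.ev D2 = D.d2 := by simp [ev, evZ, D2, zero]
theorem ev_T3 : D.ev T3 = D.t3 := by simp [ev, evZ, T3, zero]
theorem ev_T4 : D.ev T4 = D.t4 := by simp [ev, evZ, T4, zero]
theorem ev_C5 : D.ev C5 = D.c5 := by simp [ev, evZ, C5, zero]
theorem ev_C6 : D.ev C6 = D.c6 := by simp [ev, evZ, C6, zero]
theorem ev_F03 : D.ev F03 = D.f03 := by simp [ev, evZ, F03, zero]
theorem ev_F12 : D.ev F12 = D.f12 := by simp [ev, evZ, F12, zero]
theorem ev_F04 : D.ev F04 = D.f04 := by simp [ev, evZ, F04, zero]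
theorem ev_F13 : D.ev F13 = D.f13 := by simp [ev, evZ, F13, zero]
theorem ev_E0 : D.ev E0 = D.e0 := by simp [ev, evZ, E0, zero]
theorem ev_E1 : D.ev E1 = D.e1 := by simp [ev, evZ, E1, zero]
theorem ev_E2 : D.ev E2 = D.e2 := by simp [ev, evZ, E2, zero]

theorem key (p w q : V) (h : p.mul w = q) (x : T) (hx : D.ev p * x = D.ev q) : x = D.ev w := by
  rw [← h, ev_mul] at hx
  exact mul_left_cancel hx

theorem ev_smul (w : V) (h0 : w.a0 = 0) (h1 : w.a1 = 0) (k : ℕ) :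
    D.ev (smul k w) = D.ev w ^ k := by
  induction k with
  | zero =>
    rw [pow_zero, ← ev_zero D]
    congr 1
    simp [smul, zero]
  | succ k ih =>
    rw [pow_succ, ← ih, ← ev_mul]
    congr 1
    simp only [smul, mul, h0, h1, c2_zero, V.mk.injEq]
    refine ⟨?_, ?_, ?_, ?_, ?_, ?_, ?_, ?_, ?_, ?_, ?_, ?_, ?_, ?_, ?_, ?_⟩ <;> ring

theorem ev_P01 (k : ℕ) : D.ev (P01 k) = (D.t0 * D.t1) ^ k := by
  induction k with
  | zero => rw [pow_zero, ← ev_zero D]; congr 1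
  | succ k ih =>
    rw [pow_succ, ← ih, ← ev_T0, ← ev_T1, ← ev_mul, ← ev_mul]
    congr 1
    simp only [P01, T0, T1, mul, zero, V.mk.injEq, c2_succ, c3_succ]
    refine ⟨?_, ?_, ?_, ?_, ?_, ?_, ?_, ?_, ?_, ?_, ?_, ?_, ?_, ?_, ?_, ?_⟩ <;>
      simp [c2] <;> ring

theorem ev_P12 (k : ℕ) : D.ev (P12 k) = (D.t1 * D.t2) ^ k := by
  induction k with
  | zero => rw [pow_zero, ← ev_zero D]; congr 1
  | succ k ih =>
    rw [pow_succ, ← ih, ← ev_T1, ← ev_T2, ← ev_mul, ← ev_mul]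
    congr 1
    simp only [P12, T1, T2, mul, zero, V.mk.injEq, c2_succ]
    refine ⟨?_, ?_, ?_, ?_, ?_, ?_, ?_, ?_, ?_, ?_, ?_, ?_, ?_, ?_, ?_, ?_⟩ <;>
      simp [c2]

theorem cmp (a b : Subgroup.center T) (k : ℕ) : (a * b) ^ k = a ^ k * b ^ k :=
  (show Commute a b from cc a b).mul_pow k

variable {D} (S : Shift D)

theorem al_d1 : S.α D.d1 = D.ev ID1 := by
  have h := congrArg S.α D.h10
  simp only [map_mul, S.a0, S.a1] at h
  simp only [← ev_T0, ← ev_T1, ← ev_T2, ← ev_mul] at h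
  exact D.key _ _ _ (by decide) _ h.symm

theorem al_d2 : S.α D.d2 = D.ev ID2 := by
  have h := congrArg S.α D.h20
  simp only [map_mul, S.a0, S.a2] at h
  simp only [← ev_T0, ← ev_T1, ← ev_T2, ← ev_T3, ← ev_mul] at h
  exact D.key _ _ _ (by decide) _ h.symm

theorem al_f03 : S.α D.f03 = D.ev (Zal F03) := by
  have h := congrArg S.α D.h30
  simp only [map_mul, S.a0, S.a3] at h
  simp only [← ev_T0, ← ev_T1, ← ev_T3, ← ev_T4, ← ev_mul] at h
  exact D.key _ _ _ (by decide) _ h.symm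

theorem al_f04 : S.α D.f04 = D.ev (Zal F04) := by
  have h := congrArg S.α D.h40
  simp only [map_mul, S.a0, S.a4] at h
  simp only [← ev_T0, ← ev_T1, ← ev_T4, ← ev_C5, ← ev_mul] at h
  exact D.key _ _ _ (by decide) _ h.symm

theorem al_f12 : S.α D.f12 = D.ev (Zal F12) := by
  have h := congrArg S.α D.h21
  simp only [map_mul, S.a1, S.a2] at h
  simp only [← ev_T1, ← ev_T2, ← ev_T3, ← ev_mul] at h
  exact D.key _ _ _ (by decide) _ h.symm

theorem al_f13 : S.α D.f13 = D.ev (Zal F13) := by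
  have h := congrArg S.α D.h31
  simp only [map_mul, S.a1, S.a3] at h
  simp only [← ev_T1, ← ev_T2, ← ev_T3, ← ev_T4, ← ev_mul] at h
  exact D.key _ _ _ (by decide) _ h.symm

theorem al_e0 : S.α D.e0 = D.ev (Zal E0) := by
  have h := congrArg S.α D.k10
  simp only [map_mul, S.a0, al_d1] at h
  simp only [← ev_T0, ← ev_T1, ← ev_mul] at h
  exact D.key _ _ _ (by decide) _ h.symm

theorem al_e1 : S.α D.e1 = D.ev (Zal E1) := by
  have h := congrArg S.α D.k11
  simp only [map_mul, S.a1, al_d1] at h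
  simp only [← ev_T2, ← ev_T1, ← ev_mul] at h
  exact D.key _ _ _ (by decide) _ h.symm

theorem al_e2 : S.α D.e2 = D.ev (Zal E2) := by
  have h := congrArg S.α D.k20
  simp only [map_mul, S.a0, al_d2] at h
  simp only [← ev_T0, ← ev_T1, ← ev_mul] at h
  exact D.key _ _ _ (by decide) _ h.symm

theorem coe_ev (z : Subgroup.center T) (w : V) (h : (z : T) = D.ev w)
    (h0 : w.a0 = 0) (h1 : w.a1 = 0) (k : ℕ) :
    ((z ^ k : Subgroup.center T) : T) = D.ev (smul k w) := by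
  rw [Subgroup.coe_pow, h, D.ev_smul w h0 h1]

theorem al_evZ (v : V) : S.α (D.evZ v) = D.ev (Zal v) := by
  have hc5 : S.α D.c5 = D.ev (Zal C5) := by
    rw [S.a5, ← ev_C5, ← ev_C6, ← ev_mul]; congr 1
  have hc6 : S.α D.c6 = D.ev (Zal C6) := by
    rw [S.a6, ← ev_C6]; congr 1
  unfold evZ
  simp only [Subgroup.coe_mul, Subgroup.coe_pow, map_mul, map_pow, hc5, hc6, al_f03, al_f12,
    al_f04, al_f13, al_e0, al_e1, al_e2]
  rw [← D.ev_smul (Zal C5) rfl rfl, ← D.ev_smul (Zal C6) rfl rfl, ← D.ev_smul (Zal F03) rfl rfl,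
    ← D.ev_smul (Zal F12) rfl rfl, ← D.ev_smul (Zal F04) rfl rfl, ← D.ev_smul (Zal F13) rfl rfl,
    ← D.ev_smul (Zal E0) rfl rfl, ← D.ev_smul (Zal E1) rfl rfl, ← D.ev_smul (Zal E2) rfl rfl]
  simp only [← ev_mul]
  congr 1
  simp only [smul, mul, Zal, zero, C5, C6, F03, F12, F04, F13, E0, E1, E2, V.mk.injEq]
  refine ⟨?_, ?_, ?_, ?_, ?_, ?_, ?_, ?_, ?_, ?_, ?_, ?_, ?_, ?_, ?_, ?_⟩ <;> simp [c2]

theorem ev_alpha (v : V) : S.α (D.ev v) = D.ev (alpha v) := by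
  unfold alpha
  simp only [ev_mul]
  rw [← al_evZ S, ev_P01, ev_P12, ev_smul D ID1 rfl rfl, ev_smul D I2 rfl rfl,
    ev_smul D ID2 rfl rfl, ev_smul D I3 rfl rfl, ev_smul D I4 rfl rfl, ← al_d1 S, ← al_d2 S]
  simp only [I2, I3, I4, ev_mul, ev_T2, ev_T3, ev_T4, ev_C5]
  rw [← S.a0, ← S.a1, ← S.a2, ← S.a3, ← S.a4]
  simp only [ev, map_mul, map_pow, mul_assoc]

end Dat
end Run7.h676
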