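import Pool.Agent.Run7.h676.Check

/-!
# The certificates for the exponents 8, 16, 32, 64, 128
-/

set_option autoImplicit false

namespace Run7.h676
namespace Cert

open V

def v8 : V := ⟨0, 4, 4, 0, 2, 6, 0, 4, 0, 2, 2, 4, 6, 2, 4, 4⟩

def w8 : V := ⟨4, 6, 6, 4, 3, 1, 0, 0, 0, 3, 3, 0, 3, 3, 2, 2⟩

def p8 : List Ins :=
  [.com 0 ⟨1, 0, 0, 0, 0, 0, 0, 0, 0, 0, 0, 0, 0, 0, 0, 0⟩ ⟨0, 0, 4, 0, 0, 0, 0, 0, 0, 6, 0, 0, 0, 4, 6, 2⟩,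
   .quo [1, 1] [] ⟨0, 0, 0, 0, 0, 0, 0, 0, 0, 4, 0, 0, 0, 0, 4, 4⟩,
   .quo [0, 0] [] ⟨0, 0, 0, 0, 4, 4, 0, 0, 0, 4, 4, 0, 4, 4, 0, 0⟩,
   .com 3 ⟨1, 0, 0, 0, 0, 0, 0, 0, 0, 0, 0, 0, 0, 0, 0, 0⟩ ⟨0, 0, 0, 0, 0, 0, 0, 0, 0, 4, 0, 0, 0, 0, 0, 4⟩,
   .quo [2] [4] ⟨0, 0, 0, 0, 0, 0, 0, 0, 0, 0, 0, 0, 0, 0, 4, 0⟩,
   .com 0 ⟨0, 1, 0, 0, 0, 0, 0, 0, 0, 0, 0, 0, 0, 0, 0, 0⟩ ⟨0, 0, 0, 0, 0, 0, 0, 0, 0, 0, 0, 0, 6, 0, 4, 0⟩,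
   .com 3 ⟨0, 1, 0, 0, 0, 0, 0, 0, 0, 0, 0, 0, 0, 0, 0, 0⟩ ⟨0, 0, 0, 0, 0, 0, 0, 0, 0, 0, 0, 0, 4, 0, 0, 0⟩,
   .quo [6] [7] ⟨0, 0, 0, 0, 0, 0, 0, 0, 0, 0, 0, 0, 2, 0, 4, 0⟩,
   .alp 3 ⟨0, 0, 0, 0, 4, 4, 4, 0, 0, 0, 0, 4, 0, 4, 4, 4⟩,
   .quo [9] [3] ⟨0, 0, 0, 0, 0, 0, 4, 0, 0, 4, 4, 4, 4, 0, 4, 4⟩,
   .com 10 ⟨1, 0, 0, 0, 0, 0, 0, 0, 0, 0, 0, 0, 0, 0, 0, 0⟩ ⟨0, 0, 0, 0, 0, 0, 0, 0, 0, 0, 0, 4, 0, 0, 0, 0⟩,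
   .com 1 ⟨1, 0, 0, 0, 0, 0, 0, 0, 0, 0, 0, 0, 0, 0, 0, 0⟩ ⟨0, 0, 0, 0, 0, 0, 0, 0, 0, 0, 0, 0, 0, 4, 0, 0⟩,
   .alp 0 ⟨0, 4, 4, 4, 6, 6, 6, 4, 4, 4, 6, 6, 4, 2, 2, 6⟩,
   .quo [13] [0] ⟨0, 0, 0, 4, 4, 0, 6, 0, 4, 2, 4, 2, 6, 0, 6, 2⟩,
   .com 14 ⟨1, 0, 0, 0, 0, 0, 0, 0, 0, 0, 0, 0, 0, 0, 0, 0⟩ ⟨0, 0, 0, 0, 4, 0, 0, 0, 0, 0, 0, 6, 0, 0, 0, 4⟩,
   .alp 14 ⟨0, 0, 0, 4, 4, 4, 6, 6, 4, 6, 0, 4, 0, 0, 6, 2⟩,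
   .quo [16] [14] ⟨0, 0, 0, 0, 0, 4, 0, 6, 0, 4, 4, 2, 2, 0, 0, 0⟩,
   .quo [17] [3] ⟨0, 0, 0, 0, 4, 0, 0, 6, 0, 0, 0, 2, 6, 4, 0, 0⟩,
   .quo [15] [18] ⟨0, 0, 0, 0, 0, 0, 0, 2, 0, 0, 0, 4, 2, 4, 0, 4⟩]

theorem sv8 : V.S 8 8 = v8 := by decide +kernel

theorem sw8 : V.S 8 4 = w8 := by decide +kernel

theorem run8 : run 8 [v8] p8 [5, 8, 8, 8, 11, 12, 4, 19, 19, 3, 0] (w8.mul w8) = true := by decide +kernel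

def v16 : V := ⟨0, 8, 8, 0, 4, 12, 0, 8, 0, 4, 4, 8, 4, 4, 8, 8⟩

def w16 : V := ⟨8, 12, 12, 8, 2, 6, 8, 12, 8, 2, 10, 12, 2, 2, 4, 12⟩

def p16 : List Ins :=
  [.com 0 ⟨0, 1, 0, 0, 0, 0, 0, 0, 0, 0, 0, 0, 0, 0, 0, 0⟩ ⟨0, 0, 0, 0, 0, 0, 0, 0, 0, 0, 0, 0, 12, 0, 8, 0⟩,
   .quo [0, 0] [] ⟨0, 0, 0, 0, 8, 8, 0, 0, 0, 8, 8, 0, 8, 8, 0, 0⟩,
   .com 2 ⟨0, 1, 0, 0, 0, 0, 0, 0, 0, 0, 0, 0, 0, 0, 0, 0⟩ ⟨0, 0, 0, 0, 0, 0, 0, 0, 0, 0, 0, 0, 8, 0, 0, 0⟩,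
   .quo [1] [3] ⟨0, 0, 0, 0, 0, 0, 0, 0, 0, 0, 0, 0, 4, 0, 8, 0⟩]

theorem sv16 : V.S 16 16 = v16 := by decide +kernel

theorem sw16 : V.S 16 8 = w16 := by decide +kernel

theorem run16 : run 16 [v16] p16 [4, 4, 0] (w16.mul w16) = true := by decide +kernel

def v32 : V := ⟨0, 16, 16, 0, 8, 24, 0, 16, 0, 8, 8, 16, 8, 8, 16, 16⟩

def w32 : V := ⟨16, 24, 24, 16, 20, 28, 16, 8, 16, 20, 20, 8, 4, 20, 24, 24⟩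

def p32 : List Ins :=
  []

theorem sv32 : V.S 32 32 = v32 := by decide +kernel

theorem sw32 : V.S 32 16 = w32 := by decide +kernel

theorem run32 : run 32 [v32] p32 [0] (w32.mul w32) = true := by decide +kernel

def v64 : V := ⟨0, 32, 32, 0, 16, 48, 0, 32, 0, 16, 16, 32, 16, 16, 32, 32⟩

def w64 : V := ⟨32, 48, 48, 32, 40, 56, 32, 16, 32, 40, 40, 16, 40, 40, 48, 48⟩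

def p64 : List Ins :=
  []

theorem sv64 : V.S 64 64 = v64 := by decide +kernel

theorem sw64 : V.S 64 32 = w64 := by decide +kernel

theorem run64 : run 64 [v64] p64 [0] (w64.mul w64) = true := by decide +kernel

def v128 : V := ⟨0, 64, 64, 0, 32, 96, 0, 64, 0, 32, 32, 64, 96, 32, 64, 64⟩

def w128 : V := ⟨64, 96, 96, 64, 80, 112, 64, 32, 64, 80, 16, 32, 80, 80, 32, 96⟩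

def p128 : List Ins :=
  [.com 0 ⟨0, 1, 0, 0, 0, 0, 0, 0, 0, 0, 0, 0, 0, 0, 0, 0⟩ ⟨0, 0, 0, 0, 0, 0, 0, 0, 0, 0, 0, 0, 96, 0, 64, 0⟩,
   .quo [0, 0] [] ⟨0, 0, 0, 0, 64, 64, 0, 0, 0, 64, 64, 0, 64, 64, 0, 0⟩,
   .com 2 ⟨0, 1, 0, 0, 0, 0, 0, 0, 0, 0, 0, 0, 0, 0, 0, 0⟩ ⟨0, 0, 0, 0, 0, 0, 0, 0, 0, 0, 0, 0, 64, 0, 0, 0⟩,
   .quo [1] [3] ⟨0, 0, 0, 0, 0, 0, 0, 0, 0, 0, 0, 0, 32, 0, 64, 0⟩]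

theorem sv128 : V.S 128 128 = v128 := by decide +kernel

theorem sw128 : V.S 128 64 = w128 := by decide +kernel

theorem run128 : run 128 [v128] p128 [4, 4, 0] (w128.mul w128) = true := by decide +kernel

end Cert
end Run7.h676
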