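import Pool.Agent.Run7.h676.Check

/-!
# The certificates for the exponents 9, 27, 81, 243
-/

set_option autoImplicit false

namespace Run7.h676

namespace V

/-- forget the coordinates of weight at least seven -/
def cut (v : V) : V :=
  { zero with a0 := v.a0, a1 := v.a1, b1 := v.b1, a2 := v.a2, b2 := v.b2, a3 := v.a3, a4 := v.a4 }

/-- iterated shift -/
def itA (N : ℕ) : ℕ → V → V
  | 0, v => v
  | i + 1, v => red N (alpha (itA N i v))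

end V

namespace Cert3

open V

def v9 : V := ⟨0, 0, 6, 3, 6, 0, 0, 3, 0, 0, 3, 6, 3, 6, 0, 3⟩

def w9 : V := ⟨3, 3, 5, 1, 2, 0, 0, 0, 0, 0, 1, 0, 0, 2, 6, 1⟩

def d9 : V := ⟨0, 0, 0, 0, 6, 6, 6, 0, 6, 6, 0, 3, 3, 6, 6, 0⟩

def p9 : List Ins :=
  [.alp 0 ⟨0, 0, 6, 3, 3, 3, 0, 3, 3, 6, 6, 6, 3, 6, 3, 0⟩,
   .quo [1] [0] ⟨0, 0, 0, 0, 6, 3, 0, 0, 3, 6, 3, 0, 0, 0, 3, 6⟩,
   .com 0 ⟨1, 0, 0, 0, 0, 0, 0, 0, 0, 0, 0, 0, 0, 0, 0, 0⟩ ⟨0, 0, 0, 0, 3, 0, 0, 0, 0, 0, 0, 0, 0, 6, 0, 6⟩,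
   .alp 2 ⟨0, 0, 0, 0, 6, 3, 3, 0, 3, 3, 0, 6, 6, 0, 3, 6⟩,
   .quo [4] [2] ⟨0, 0, 0, 0, 0, 0, 3, 0, 0, 6, 6, 6, 6, 0, 0, 0⟩]

theorem sv9 : V.S 9 9 = v9 := by decide +kernel

theorem sw9 : V.S 9 3 = w9 := by decide +kernel

theorem run9 : run 9 [v9] p9 [2, 2, 5, 5, 3] d9 = true := by decide +kernel

theorem cut9 : cut (itA 9 3 w9) = cut (red 9 (d9.mul w9)) := by
  decide +kernel

def v27 : V := ⟨0, 0, 18, 9, 18, 0, 0, 9, 0, 0, 9, 18, 9, 18, 0, 9⟩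

def w27 : V := ⟨9, 9, 15, 3, 6, 18, 18, 3, 9, 18, 21, 6, 21, 6, 18, 3⟩

def d27 : V := ⟨0, 0, 0, 0, 0, 0, 0, 0, 0, 0, 0, 0, 0, 0, 0, 0⟩

def p27 : List Ins :=
  []

theorem sv27 : V.S 27 27 = v27 := by decide +kernel

theorem sw27 : V.S 27 9 = w27 := by decide +kernel

theorem run27 : run 27 [v27] p27 [] d27 = true := by decide +kernel

theorem cut27 : cut (itA 27 9 w27) = cut (red 27 (d27.mul w27)) := by
  decide +kernel

def v81 : V := ⟨0, 0, 54, 27, 54, 0, 0, 27, 0, 0, 27, 54, 27, 54, 0, 27⟩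

def w81 : V := ⟨27, 27, 45, 9, 18, 54, 54, 36, 27, 54, 63, 72, 9, 18, 54, 9⟩

def d81 : V := ⟨0, 0, 0, 0, 0, 0, 0, 0, 0, 0, 0, 0, 0, 0, 0, 0⟩

def p81 : List Ins :=
  []

theorem sv81 : V.S 81 81 = v81 := by decide +kernel

theorem sw81 : V.S 81 27 = w81 := by decide +kernel

theorem run81 : run 81 [v81] p81 [] d81 = true := by decide +kernel

theorem cut81 : cut (itA 81 27 w81) = cut (red 81 (d81.mul w81)) := by
  decide +kernel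

def v243 : V := ⟨0, 0, 162, 81, 162, 0, 0, 81, 0, 0, 81, 162, 81, 162, 0, 81⟩

def w243 : V := ⟨81, 81, 135, 27, 54, 162, 162, 108, 81, 162, 189, 216, 27, 54, 162, 27⟩

def d243 : V := ⟨0, 0, 0, 0, 0, 0, 0, 0, 0, 0, 0, 0, 0, 0, 0, 0⟩

def p243 : List Ins :=
  []

theorem sv243 : V.S 243 243 = v243 := by decide +kernel

theorem sw243 : V.S 243 81 = w243 := by decide +kernel

theorem run243 : run 243 [v243] p243 [] d243 = true := by decide +kernel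

theorem cut243 : cut (itA 243 81 w243) = cut (red 243 (d243.mul w243)) := by
  decide +kernel

end Cert3
end Run7.h676
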