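import Pool.Agent.Run7.h676.Alpha

/-!
# A checker for consequences of relations
-/

set_option autoImplicit false

namespace Run7.h676

namespace V

/-- reduction of the exponents modulo `N` -/
def red (N : ℕ) (v : V) : V :=
  ⟨v.a0 % N, v.a1 % N, v.b1 % N, v.a2 % N, v.b2 % N, v.a3 % N, v.a4 % N, v.c5 % N, v.c6 % N,
    v.f03 % N, v.f12 % N, v.f04 % N, v.f13 % N, v.e0 % N, v.e1 % N, v.e2 % N⟩

/-- `S i = α (S (i - 1)) * t0`, the tail of `(x t0) ^ i` -/
def S (N : ℕ) : ℕ → V
  | 0 => zero
  | i + 1 => red N ((alpha (S N i)).mul T0)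

/-- product of entries of a list of relators -/
def prodL (N : ℕ) (R : List V) : List ℕ → V
  | [] => zero
  | i :: L => red N ((R.getD i zero).mul (prodL N R L))

end V

open V

/-- instructions of the checker -/
inductive Ins where
  | quo (A B : List ℕ) (c : V)
  | com (i : ℕ) (b c : V)
  | alp (i : ℕ) (c : V)

/-- one step -/
def okStep (N : ℕ) (R : List V) : Ins → Bool
  | .quo A B c => decide (red N (c.mul (prodL N R B)) = prodL N R A)
  | .com i b c => decide (red N ((R.getD i zero).mul b) = red N ((b.mul (R.getD i zero)).mul c))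
  | .alp i c => decide (red N (alpha (R.getD i zero)) = red N c)

def out : Ins → V
  | .quo _ _ c => c
  | .com _ _ c => c
  | .alp _ c => c

/-- run the checker -/
def run (N : ℕ) : List V → List Ins → List ℕ → V → Bool
  | R, [], fin, tgt => decide (prodL N R fin = red N tgt)
  | R, i :: P, fin, tgt => okStep N R i && run N (R ++ [out i]) P fin tgt

namespace Dat
variable {T : Type*} [Group T] (D : Dat T)

/-- all generators have exponent `N` -/
structure Expo (N : ℕ) : Prop where
  t : ∀ g : T, g ^ N = 1

theorem pow_md {M : Type*} [Monoid M] {g : M} {N : ℕ} (h : g ^ N = 1) (a : ℕ) :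
    g ^ (a % N) = g ^ a := by
  conv_rhs => rw [← Nat.mod_add_div a N, pow_add, pow_mul, h, one_pow, mul_one]

variable {D} {N : ℕ} (hN : ∀ g : T, g ^ N = 1)
include hN

theorem ev_red (v : V) : D.ev (red N v) = D.ev v := by
  have hc : ∀ z : Subgroup.center T, z ^ N = 1 := fun z => Subtype.ext (by
    rw [Subgroup.coe_pow, hN]; rfl)
  unfold ev evZ red
  simp only [pow_md (hN _), pow_md (hc _)]

variable (Sh : Shift D)

theorem ev_prodL (R : List V) (hR : ∀ v ∈ R, D.ev v = 1) (L : List ℕ) :
    D.ev (prodL N R L) = 1 := by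
  induction L with
  | nil => exact D.ev_zero
  | cons i L ih =>
    have h1 : D.ev (R.getD i zero) = 1 := by
      rw [List.getD_eq_getElem?_getD]
      rcases h : R[i]? with _ | v
      · simpa using D.ev_zero
      · simpa using hR v (List.mem_of_getElem? h)
    rw [prodL, ev_red hN, ev_mul, h1, ih, one_mul]

theorem ev_getD (R : List V) (hR : ∀ v ∈ R, D.ev v = 1) (i : ℕ) :
    D.ev (R.getD i zero) = 1 := by
  rw [List.getD_eq_getElem?_getD]
  rcases h : R[i]? with _ | v
  · simpa using D.ev_zero
  · simpa using hR v (List.mem_of_getElem? h)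

include Sh in
theorem step_sound (R : List V) (hR : ∀ v ∈ R, D.ev v = 1) (i : Ins) (h : okStep N R i = true) :
    D.ev (out i) = 1 := by
  cases i with
  | quo A B c =>
    have h1 := of_decide_eq_true h
    have h2 := congrArg D.ev h1
    rw [ev_red hN, ev_mul, ev_prodL hN R hR, ev_prodL hN R hR, mul_one] at h2
    exact h2
  | com i b c =>
    have h1 := of_decide_eq_true h
    have h2 := congrArg D.ev h1
    rw [ev_red hN, ev_red hN, ev_mul, ev_mul, ev_mul, ev_getD hN R hR, one_mul, mul_one] at h2
    exact (mul_eq_left.1 h2.symm)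
  | alp i c =>
    have h1 := of_decide_eq_true h
    have h2 := congrArg D.ev h1
    rw [ev_red hN, ev_red hN, ← ev_alpha Sh, ev_getD hN R hR, map_one] at h2
    exact h2.symm

include Sh in
theorem run_sound (P : List Ins) : ∀ (R : List V), (∀ v ∈ R, D.ev v = 1) → ∀ (fin : List ℕ)
    (tgt : V), run N R P fin tgt = true → D.ev tgt = 1 := by
  induction P with
  | nil =>
    intro R hR fin tgt h
    have h1 := of_decide_eq_true h
    have h2 := congrArg D.ev h1
    rw [ev_prodL hN R hR, ev_red hN] at h2
    exact h2.symm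
  | cons i P ih =>
    intro R hR fin tgt h
    rw [run, Bool.and_eq_true] at h
    refine ih _ ?_ fin tgt h.2
    intro v hv
    rcases List.mem_append.1 hv with hv | hv
    · exact hR v hv
    · rw [List.mem_singleton.1 hv]
      exact step_sound hN Sh R hR i h.1

/-- the elements `S i` of `T` -/
def sq (α : T →* T) (t : T) : ℕ → T
  | 0 => 1
  | i + 1 => α (sq α t i) * t

include Sh in
theorem ev_S (i : ℕ) : D.ev (V.S N i) = sq Sh.α D.t0 i := by
  induction i with
  | zero => exact D.ev_zero
  | succ i ih => rw [V.S, sq, ev_red hN, ev_mul, ← ev_alpha Sh, ih, ev_T0]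

/-- the conclusion -/
theorem square_eq_one (P : List Ins) (fin : List ℕ) (n : ℕ) (v w : V)
    (hv : V.S N N = v) (hw : V.S N n = w)
    (hr : run N [v] P fin (w.mul w) = true) (h1 : sq Sh.α D.t0 N = 1) :
    sq Sh.α D.t0 n * sq Sh.α D.t0 n = 1 := by
  rw [← ev_S hN, hw, ← ev_mul]
  refine run_sound hN Sh P [v] ?_ fin _ hr
  intro u hu
  rw [List.mem_singleton.1 hu, ← hv, ev_S hN Sh, h1]

end Dat
end Run7.h676
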