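import Mathlib

/-!
# Commutators in the lower central series

`comm_lcs` is taken from `Pool.Agent.W465.SG.Grp`.
-/

set_option autoImplicit false

namespace Run7.h676
open scoped commutatorElement

variable {G : Type*} [Group G]

/-- elements of `S` which commute with `A` modulo `N` -/
def cenS (A N S : Subgroup G) (hN : ∀ s ∈ S, ∀ x ∈ N, s * x * s⁻¹ ∈ N) : Subgroup G where
  carrier := {w | w ∈ S ∧ ∀ x ∈ A, ⁅x, w⁆ ∈ N}
  mul_mem' := by
    rintro a b ⟨ha, ha'⟩ ⟨hb, hb'⟩
    refine ⟨S.mul_mem ha hb, fun x hx => ?_⟩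
    have : ⁅x, a * b⁆ = ⁅x, a⁆ * (a * ⁅x, b⁆ * a⁻¹) := by
      simp only [commutatorElement_def]; group
    rw [this]
    exact N.mul_mem (ha' x hx) (hN a ha _ (hb' x hx))
  one_mem' := ⟨S.one_mem, fun x _ => by
    have : ⁅x, (1 : G)⁆ = 1 := by simp [commutatorElement_def]
    rw [this]; exact N.one_mem⟩
  inv_mem' := by
    rintro a ⟨ha, ha'⟩
    refine ⟨S.inv_mem ha, fun x hx => ?_⟩
    have : ⁅x, a⁻¹⁆ = a⁻¹ * ⁅x, a⁆⁻¹ * a⁻¹⁻¹ := by
      simp only [commutatorElement_def]; group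
    rw [this]
    exact hN _ (S.inv_mem ha) _ (N.inv_mem (ha' x hx))

lemma conj_lcs (S : Subgroup G) (n : ℕ) : ∀ s ∈ S, ∀ x ∈ S.lowerCentralSeries n,
    s * x * s⁻¹ ∈ S.lowerCentralSeries n := by
  intro s hs x hx
  exact (Subgroup.mem_normalizer_iff.1 (S.self_le_normalizer_lowerCentralSeries n hs) x).1 hx

lemma comm_lcs (S : Subgroup G) : ∀ j i : ℕ,
    ⁅S.lowerCentralSeries i, S.lowerCentralSeries j⁆ ≤ S.lowerCentralSeries (i + j + 1) := by
  intro j
  induction j with
  | zero => intro i; exact le_rfl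
  | succ j ih =>
    intro i
    have hN := conj_lcs S (i + (j + 1) + 1)
    have hle : S.lowerCentralSeries (j + 1) ≤
        cenS (S.lowerCentralSeries i) (S.lowerCentralSeries (i + (j + 1) + 1)) S hN := by
      rw [Subgroup.lowerCentralSeries_succ, Subgroup.commutator_le]
      intro b hb s hs
      refine ⟨?_, fun a ha => ?_⟩
      · exact S.lowerCentralSeries_le_self (j + 1) (Subgroup.commutator_mem_commutator hb hs)
      · have haS := S.lowerCentralSeries_le_self i ha
        have hbS := S.lowerCentralSeries_le_self j hb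
        have h1 : ⁅s, ⁅a⁻¹, b⁻¹⁆⁆ ∈ S.lowerCentralSeries (i + (j + 1) + 1) := by
          have h2 := ih i (Subgroup.commutator_mem_commutator (inv_mem ha) (inv_mem hb))
          have h3 := Subgroup.commutator_mem_commutator hs h2
          rw [Subgroup.commutator_comm] at h3
          exact h3
        have h2 : ⁅b⁻¹, ⁅s⁻¹, a⁆⁆ ∈ S.lowerCentralSeries (i + (j + 1) + 1) := by
          have h3 : ⁅s⁻¹, a⁆ ∈ S.lowerCentralSeries (i + 1) := by
            have h4 := Subgroup.commutator_mem_commutator (inv_mem hs) ha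
            rw [Subgroup.commutator_comm] at h4
            exact h4
          have h5 := Subgroup.commutator_mem_commutator (inv_mem hb) h3
          rw [Subgroup.commutator_comm] at h5
          have h6 := ih (i + 1) h5
          have h7 : i + 1 + j + 1 = i + (j + 1) + 1 := by omega
          rwa [h7] at h6
        have h3 : ⁅a, ⁅b, s⁆⁆ = (b * (a * ⁅s, ⁅a⁻¹, b⁻¹⁆⁆⁻¹ * a⁻¹) * b⁻¹) *
            (b * (s * ⁅b⁻¹, ⁅s⁻¹, a⁆⁆⁻¹ * s⁻¹) * b⁻¹) := by
          simp only [commutatorElement_def]; group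
        rw [h3]
        exact mul_mem (hN b hbS _ (hN a haS _ (inv_mem h1))) (hN b hbS _ (hN s hs _ (inv_mem h2)))
    rw [Subgroup.commutator_le]
    intro a ha w hw
    exact (hle hw).2 a ha

/-- the commutator `a⁻¹ b⁻¹ a b` -/
def cm (a b : G) : G := a⁻¹ * b⁻¹ * a * b

theorem mul_cm (a b : G) : a * b = b * a * cm a b := by unfold cm; group

theorem cm_mem {S : Subgroup G} {i j k : ℕ} {a b : G} (ha : a ∈ S.lowerCentralSeries i)
    (hb : b ∈ S.lowerCentralSeries j) (hk : k = i + j + 1) : cm a b ∈ S.lowerCentralSeries k := by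
  have h := comm_lcs S j i (Subgroup.commutator_mem_commutator (inv_mem ha) (inv_mem hb))
  have e : cm a b = ⁅a⁻¹, b⁻¹⁆ := by unfold cm; rw [commutatorElement_def]; group
  rw [e, hk]; exact h

theorem comm_of_mem {S : Subgroup G} {c i j : ℕ} (hS : S.lowerCentralSeries c = ⊥) {a b : G}
    (ha : a ∈ S.lowerCentralSeries i) (hb : b ∈ S.lowerCentralSeries j) (hk : c ≤ i + j + 1) :
    Commute a b := by
  have h := S.lowerCentralSeries_antitone hk (comm_lcs S j i (Subgroup.commutator_mem_commutator ha hb))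
  rw [hS, Subgroup.mem_bot, commutatorElement_eq_one_iff_mul_comm] at h
  exact h

/-- For an involution `v`, the elements `x ^ 2 ^ j` and `v` commute modulo deep terms of the lower
central series. -/
theorem crude {S : Subgroup G} {x v : G} (hx : x ∈ S) (hv : v ∈ S) (h2 : v * v = 1) (j : ℕ) :
    ⁅x ^ 2 ^ j, v⁆ ∈ S.lowerCentralSeries (j + 1) := by
  induction j with
  | zero =>
    rw [pow_zero, pow_one]
    exact Subgroup.commutator_mem_commutator hx hv
  | succ j ih =>
    have hu : x ^ 2 ^ j ∈ S := S.pow_mem hx _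
    have e : x ^ 2 ^ (j + 1) = x ^ 2 ^ j * x ^ 2 ^ j := by rw [pow_succ, pow_mul, sq]
    rw [e]
    generalize x ^ 2 ^ j = u at ih hu
    have hvi : v⁻¹ = v := inv_eq_of_mul_eq_one_left h2
    have hw2 : ⁅u, v⁆ * ⁅u, v⁆ ∈ S.lowerCentralSeries (j + 1 + 1) := by
      have h := Subgroup.commutator_mem_commutator ih (inv_mem hv)
      have e2 : ⁅⁅u, v⁆, v⁻¹⁆ = ⁅u, v⁆ * ⁅u, v⁆ := by
        simp only [commutatorElement_def, mul_inv_rev, inv_inv, hvi, mul_assoc]
        simp [← mul_assoc v v, h2]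
      rw [e2] at h
      exact h
    have h3 : ⁅u * u, v⁆ = ⁅⁅u, v⁆, u⁆⁻¹ * (⁅u, v⁆ * ⁅u, v⁆) := by
      simp [commutatorElement_def, mul_assoc]
    rw [h3]
    refine mul_mem (inv_mem ?_) hw2
    exact Subgroup.commutator_mem_commutator ih hu

end Run7.h676
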