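import Pool.Agent.Run7.h676.Cert
import Pool.Agent.Run7.h676.Lcs

/-!
# Groups of class at most eight and exponent `2 ^ k`

If `x` and `y` are elements of a group of class at most `8` and exponent dividing `2 ^ k`, `k ≥ 3`,
then `x ^ 2 ^ (k - 1)` commutes with its conjugates.
-/

set_option autoImplicit false

namespace Run7.h676

universe u

variable {H : Type u} [Group H]

/-- the terms of the lower central series -/
abbrev L (H : Type u) [Group H] (i : ℕ) : Subgroup H := (⊤ : Subgroup H).lowerCentralSeries i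

section build

variable (h8 : L H 8 = ⊥) (x y : H)

theorem L_le {i j : ℕ} (h : i ≤ j) {a : H} (ha : a ∈ L H j) : a ∈ L H i :=
  (⊤ : Subgroup H).lowerCentralSeries_antitone h ha

/-- `t i` -/
def tt (x y : H) : ℕ → H
  | 0 => cm x y
  | i + 1 => cm (tt x y i) x

theorem tt_mem (i : ℕ) : tt x y i ∈ L H (i + 1) := by
  induction i with
  | zero => exact cm_mem (i := 0) (j := 0) (Subgroup.mem_top x) (Subgroup.mem_top y) rfl
  | succ i ih => exact cm_mem ih (j := 0) (Subgroup.mem_top x) rfl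

/-- elements of `L 1` as elements of the subgroup -/
def mk1 {i : ℕ} (a : H) (ha : a ∈ L H i) (hi : 1 ≤ i) : L H 1 := ⟨a, L_le hi ha⟩

include h8 in
/-- central elements of `L 1` -/
theorem mem_center1 {i : ℕ} (a : H) (ha : a ∈ L H i) (hi : 6 ≤ i) :
    mk1 a ha (by omega) ∈ Subgroup.center (L H 1) := by
  rw [Subgroup.mem_center_iff]
  intro g
  apply Subtype.ext
  exact (comm_of_mem (i := 1) (j := i) h8 g.2 ha (by omega)).eq

/-- central elements of `L 1` -/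
def mkc {i : ℕ} (a : H) (ha : a ∈ L H i) (hi : 6 ≤ i) : Subgroup.center (L H 1) :=
  ⟨mk1 a ha (by omega), mem_center1 h8 a ha hi⟩

/-- the data of `x` and `y` -/
def dat : Dat (L H 1) where
  t0 := mk1 (tt x y 0) (tt_mem x y 0) (by omega)
  t1 := mk1 (tt x y 1) (tt_mem x y 1) (by omega)
  d1 := mk1 (cm (tt x y 1) (tt x y 0)) (cm_mem (tt_mem x y 1) (tt_mem x y 0) rfl) (by omega)
  t2 := mk1 (tt x y 2) (tt_mem x y 2) (by omega)
  d2 := mk1 (cm (tt x y 2) (tt x y 0)) (cm_mem (tt_mem x y 2) (tt_mem x y 0) rfl) (by omega)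
  t3 := mk1 (tt x y 3) (tt_mem x y 3) (by omega)
  t4 := mk1 (tt x y 4) (tt_mem x y 4) (by omega)
  c5 := mkc h8 (tt x y 5) (tt_mem x y 5) (by omega)
  c6 := mkc h8 (tt x y 6) (tt_mem x y 6) (by omega)
  f03 := mkc h8 (cm (tt x y 3) (tt x y 0)) (cm_mem (tt_mem x y 3) (tt_mem x y 0) rfl) (by omega)
  f12 := mkc h8 (cm (tt x y 2) (tt x y 1)) (cm_mem (tt_mem x y 2) (tt_mem x y 1) rfl) (by omega)
  f04 := mkc h8 (cm (tt x y 4) (tt x y 0)) (cm_mem (tt_mem x y 4) (tt_mem x y 0) rfl) (by omega)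
  f13 := mkc h8 (cm (tt x y 3) (tt x y 1)) (cm_mem (tt_mem x y 3) (tt_mem x y 1) rfl) (by omega)
  e0 := mkc h8 (cm (cm (tt x y 1) (tt x y 0)) (tt x y 0))
    (cm_mem (cm_mem (tt_mem x y 1) (tt_mem x y 0) rfl) (tt_mem x y 0) rfl) (by omega)
  e1 := mkc h8 (cm (cm (tt x y 1) (tt x y 0)) (tt x y 1))
    (cm_mem (cm_mem (tt_mem x y 1) (tt_mem x y 0) rfl) (tt_mem x y 1) rfl) (by omega)
  e2 := mkc h8 (cm (cm (tt x y 2) (tt x y 0)) (tt x y 0))
    (cm_mem (cm_mem (tt_mem x y 2) (tt_mem x y 0) rfl) (tt_mem x y 0) rfl) (by omega)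
  h10 := Subtype.ext (mul_cm _ _)
  h20 := Subtype.ext (mul_cm _ _)
  h30 := Subtype.ext (mul_cm _ _)
  h40 := Subtype.ext (mul_cm _ _)
  h21 := Subtype.ext (mul_cm _ _)
  h31 := Subtype.ext (mul_cm _ _)
  k10 := Subtype.ext (mul_cm _ _)
  k11 := Subtype.ext (mul_cm _ _)
  k20 := Subtype.ext (mul_cm _ _)
  h41 := Subtype.ext (comm_of_mem h8 (tt_mem x y 4) (tt_mem x y 1) (by omega)).eq
  k21 := Subtype.ext (comm_of_mem h8 (cm_mem (tt_mem x y 2) (tt_mem x y 0) rfl) (tt_mem x y 1)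
    (by omega)).eq
  h32 := Subtype.ext (comm_of_mem h8 (tt_mem x y 3) (tt_mem x y 2) (by omega)).eq
  h42 := Subtype.ext (comm_of_mem h8 (tt_mem x y 4) (tt_mem x y 2) (by omega)).eq
  k12 := Subtype.ext (comm_of_mem h8 (cm_mem (tt_mem x y 1) (tt_mem x y 0) rfl) (tt_mem x y 2)
    (by omega)).eq
  k22 := Subtype.ext (comm_of_mem h8 (cm_mem (tt_mem x y 2) (tt_mem x y 0) rfl) (tt_mem x y 2)
    (by omega)).eq
  h43 := Subtype.ext (comm_of_mem h8 (tt_mem x y 4) (tt_mem x y 3) (by omega)).eq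
  k13 := Subtype.ext (comm_of_mem h8 (cm_mem (tt_mem x y 1) (tt_mem x y 0) rfl) (tt_mem x y 3)
    (by omega)).eq
  k23 := Subtype.ext (comm_of_mem h8 (cm_mem (tt_mem x y 2) (tt_mem x y 0) rfl) (tt_mem x y 3)
    (by omega)).eq
  k14 := Subtype.ext (comm_of_mem h8 (cm_mem (tt_mem x y 1) (tt_mem x y 0) rfl) (tt_mem x y 4)
    (by omega)).eq
  k24 := Subtype.ext (comm_of_mem h8 (cm_mem (tt_mem x y 2) (tt_mem x y 0) rfl) (tt_mem x y 4)
    (by omega)).eq
  kdd := Subtype.ext (comm_of_mem h8 (cm_mem (tt_mem x y 1) (tt_mem x y 0) rfl)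
    (cm_mem (tt_mem x y 2) (tt_mem x y 0) rfl) (by omega)).eq

/-- conjugation by `x` on `L 1` -/
def cjx (x : H) : L H 1 →* L H 1 where
  toFun g := ⟨x⁻¹ * g * x, by
    have := conj_lcs (⊤ : Subgroup H) 1 x⁻¹ (Subgroup.mem_top _) g g.2
    simpa using this⟩
  map_one' := Subtype.ext (by simp)
  map_mul' a b := Subtype.ext (by
    change x⁻¹ * ((a : H) * (b : H)) * x = (x⁻¹ * (a : H) * x) * (x⁻¹ * (b : H) * x)
    group)

theorem cj_tt (i : ℕ) : x⁻¹ * tt x y i * x = tt x y i * tt x y (i + 1) := by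
  change x⁻¹ * tt x y i * x = tt x y i * cm (tt x y i) x
  unfold cm; group

/-- the shift of `x` and `y` -/
def shift : Shift (dat h8 x y) where
  α := cjx x
  a0 := Subtype.ext (cj_tt x y 0)
  a1 := Subtype.ext (cj_tt x y 1)
  a2 := Subtype.ext (cj_tt x y 2)
  a3 := Subtype.ext (cj_tt x y 3)
  a4 := Subtype.ext (cj_tt x y 4)
  a5 := Subtype.ext (cj_tt x y 5)
  a6 := Subtype.ext (by
    have h := comm_of_mem (i := 7) (j := 0) h8 (tt_mem x y 6) (Subgroup.mem_top x) (by omega)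
    change x⁻¹ * tt x y 6 * x = tt x y 6
    rw [mul_assoc, h.eq, inv_mul_cancel_left])

theorem pow_sq (t : L H 1) (i : ℕ) : (x * (t : H)) ^ i = x ^ i * (Dat.sq (cjx x) t i : L H 1) := by
  induction i with
  | zero => simp [Dat.sq]
  | succ i ih =>
    rw [pow_succ, ih, Dat.sq, pow_succ]
    change x ^ i * ((Dat.sq (cjx x) t i : L H 1) : H) * (x * (t : H)) =
      x ^ i * x * (x⁻¹ * ((Dat.sq (cjx x) t i : L H 1) : H) * x * t)
    group

end build

/-- two involutions with product of order two commute -/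
theorem commute_of_sq {z s : H} (hz : z * z = 1) (hs : s * s = 1) (h : z * s * (z * s) = 1) :
    Commute z (z * s) := by
  have h1 : (z * s)⁻¹ = z * s := inv_eq_of_mul_eq_one_left h
  have hz1 : z⁻¹ = z := inv_eq_of_mul_eq_one_left hz
  have hs1 : s⁻¹ = s := inv_eq_of_mul_eq_one_left hs
  rw [mul_inv_rev, hz1, hs1] at h1
  change z * (z * s) = z * s * z
  rw [mul_assoc z s z, h1]

theorem main_aux (h8 : L H 8 = ⊥) (x y : H) (n : ℕ) (hexp : ∀ g : H, g ^ (2 * n) = 1)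
    (P : List Ins) (fin : List ℕ) (v w : V) (hv : V.S (2 * n) (2 * n) = v)
    (hw : V.S (2 * n) n = w) (hr : run (2 * n) [v] P fin (w.mul w) = true) :
    Commute (x ^ n) (y⁻¹ * x ^ n * y) := by
  have hT : ∀ g : L H 1, g ^ (2 * n) = 1 := fun g => Subtype.ext (by
    rw [Subgroup.coe_pow, hexp]; rfl)
  have e0 : y⁻¹ * x * y = x * tt x y 0 := by
    change y⁻¹ * x * y = x * cm x y
    unfold cm; group
  have e1 : y⁻¹ * x ^ n * y = (y⁻¹ * x * y) ^ n := by
    have := conj_pow (i := n) (a := y⁻¹) (b := x)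
    rw [inv_inv] at this
    exact this.symm
  have hN : Dat.sq (cjx x) (dat h8 x y).t0 (2 * n) = 1 := by
    apply Subtype.ext
    have h := pow_sq x (dat h8 x y).t0 (2 * n)
    rw [hexp, hexp, one_mul] at h
    exact h.symm
  have h2 := Dat.square_eq_one hT (shift h8 x y) P fin n v w hv hw hr hN
  have h3 := pow_sq x (dat h8 x y).t0 n
  have h4 : (x * ((dat h8 x y).t0 : H)) = y⁻¹ * x * y := e0.symm
  rw [h4, ← e1] at h3
  rw [h3]
  refine commute_of_sq ?_ ?_ ?_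
  · rw [← pow_add, ← two_mul, hexp]
  · exact congrArg Subtype.val h2
  · rw [← h3, e1, ← pow_add, ← two_mul, hexp]

/-- In a group of class at most eight and exponent `2 ^ k`, `k ≥ 3`, the element
`x ^ 2 ^ (k - 1)` commutes with its conjugates. -/
theorem class_eight (h8 : L H 8 = ⊥) (k : ℕ) (hk : 2 ≤ k) (hexp : ∀ g : H, g ^ 2 ^ (k + 1) = 1)
    (x y : H) : Commute (x ^ 2 ^ k) (y⁻¹ * x ^ 2 ^ k * y) := by
  rcases Nat.lt_or_ge k 7 with h | h
  · interval_cases k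
    · exact main_aux h8 x y 4 hexp Cert.p8 _ _ _ Cert.sv8 Cert.sw8 Cert.run8
    · exact main_aux h8 x y 8 hexp Cert.p16 _ _ _ Cert.sv16 Cert.sw16 Cert.run16
    · exact main_aux h8 x y 16 hexp Cert.p32 _ _ _ Cert.sv32 Cert.sw32 Cert.run32
    · exact main_aux h8 x y 32 hexp Cert.p64 _ _ _ Cert.sv64 Cert.sw64 Cert.run64
    · exact main_aux h8 x y 64 hexp Cert.p128 _ _ _ Cert.sv128 Cert.sw128 Cert.run128
  · have hv : (y⁻¹ * x ^ 2 ^ k * y) * (y⁻¹ * x ^ 2 ^ k * y) = 1 := by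
      have e : (y⁻¹ * x ^ 2 ^ k * y) * (y⁻¹ * x ^ 2 ^ k * y) = y⁻¹ * (x ^ 2 ^ k * x ^ 2 ^ k) * y := by
        group
      rw [e, ← pow_add, ← two_mul, ← pow_succ', hexp]; group
    have h1 := crude (S := ⊤) (Subgroup.mem_top x) (Subgroup.mem_top _) hv k
    have h2 := L_le (show 8 ≤ k + 1 by omega) h1
    rw [h8, Subgroup.mem_bot, commutatorElement_eq_one_iff_mul_comm] at h2
    exact h2

end Run7.h676
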