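import Mathlib

/-!
# Locally finite subgroups and the locally finite radical
-/

set_option autoImplicit false

namespace Run7.h676

universe u v

variable {G : Type u} [Group G]

/-- every finitely generated subgroup of `H` is finite -/
def LF (H : Subgroup G) : Prop :=
  ∀ s : Finset G, (s : Set G) ⊆ H → ((Subgroup.closure (s : Set G) : Subgroup G) : Set G).Finite

theorem LF.mono {H K : Subgroup G} (hK : LF K) (h : H ≤ K) : LF H :=
  fun s hs => hK s (hs.trans h)

theorem LF_bot : LF (⊥ : Subgroup G) := by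
  intro s hs
  have h : Subgroup.closure (s : Set G) = ⊥ := by
    rw [Subgroup.closure_eq_bot_iff]
    exact hs
  rw [h]
  simp

theorem LF.map {Q : Type v} [Group Q] (f : G →* Q) {H : Subgroup G} (h : LF H) : LF (H.map f) := by
  classical
  intro s hs
  have h1 : ∀ q ∈ (s : Set Q), ∃ g ∈ H, f g = q := fun q hq => hs hq
  choose! g hgH hg using h1
  have h2 : (s : Set Q) = f '' ((s.image g : Finset G) : Set G) := by
    ext q
    simp only [Finset.coe_image, Set.mem_image]
    constructor
    · intro hq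
      exact ⟨g q, ⟨q, hq, rfl⟩, hg q hq⟩
    · rintro ⟨_, ⟨q', hq', rfl⟩, rfl⟩
      rw [hg q' hq']; exact hq'
  rw [h2, ← MonoidHom.map_closure, Subgroup.coe_map]
  refine Set.Finite.image _ (h _ ?_)
  intro x hx
  simp only [Finset.coe_image, Set.mem_image] at hx
  obtain ⟨q, hq, rfl⟩ := hx
  exact hgH q hq

/-- an extension of a locally finite group by a locally finite group is locally finite -/
theorem LF.ext {Q : Type v} [Group Q] (f : G →* Q) {H A : Subgroup G} (hA : LF A)
    (hk : ∀ g ∈ H, f g = 1 → g ∈ A) (hQ : LF (H.map f)) : LF H := by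
  classical
  intro s hs
  have hcl : Subgroup.closure (s : Set G) ≤ H := (Subgroup.closure_le H).2 hs
  have hmap : (((Subgroup.closure (s : Set G)).map f : Subgroup Q) : Set Q).Finite := by
    rw [MonoidHom.map_closure]
    have e : f '' (s : Set G) = ((s.image f : Finset Q) : Set Q) := by simp
    rw [e]
    refine hQ _ ?_
    rw [← e]
    rintro _ ⟨x, hx, rfl⟩
    exact Subgroup.mem_map_of_mem f (hs hx)
  set K := Subgroup.closure (s : Set G) with hK
  have hfg : Group.FG K := (Group.fg_iff_subgroup_fg K).2 ⟨s, rfl⟩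
  let φ : K →* Q := f.comp K.subtype
  have hr : (φ.range : Set Q).Finite := by
    have : φ.range = K.map f := by
      rw [MonoidHom.range_comp, Subgroup.range_subtype]
    rw [this]; exact hmap
  have hidx : φ.ker.index ≠ 0 := by
    rw [Subgroup.index_ker]
    have : Finite φ.range := hr
    exact Nat.card_pos.ne'
  have : φ.ker.FiniteIndex := ⟨hidx⟩
  have hkfg : Group.FG φ.ker := Subgroup.fg_of_index_ne_zero φ.ker
  obtain ⟨t, ht⟩ := (Group.fg_iff_subgroup_fg φ.ker).1 hkfg
  have e1 : φ.ker.map K.subtype = Subgroup.closure ((t.image K.subtype : Finset G) : Set G) := by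
    rw [← ht, MonoidHom.map_closure, Finset.coe_image]
  have hfin : ((φ.ker.map K.subtype : Subgroup G) : Set G).Finite := by
    rw [e1]
    refine hA _ ?_
    intro x hx
    rw [Finset.coe_image] at hx
    obtain ⟨y, hy, rfl⟩ := hx
    have hy1 : y ∈ φ.ker := by rw [← ht]; exact Subgroup.subset_closure hy
    exact hk _ (hcl y.2) hy1
  have hkf : Finite φ.ker := by
    rw [Subgroup.coe_map] at hfin
    exact Set.Finite.of_finite_image hfin (Subtype.val_injective.injOn)
  have hc : Nat.card K ≠ 0 := by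
    rw [← φ.ker.card_mul_index]
    exact mul_ne_zero Nat.card_pos.ne' hidx
  exact Nat.finite_of_card_ne_zero hc

theorem LF.sup {A B : Subgroup G} [hn : A.Normal] (hA : LF A) (hB : LF B) : LF (A ⊔ B) := by
  refine LF.ext (QuotientGroup.mk' A) hA (fun g _ h => (QuotientGroup.eq_one_iff g).1 h) ?_
  have : (A ⊔ B).map (QuotientGroup.mk' A) = B.map (QuotientGroup.mk' A) := by
    rw [Subgroup.map_sup, QuotientGroup.map_mk'_self, bot_sup_eq]
  rw [this]
  exact hB.map _

/-- commutative torsion groups are locally finite -/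
theorem LF_of_comm (S : Set G) (hc : ∀ x ∈ S, ∀ y ∈ S, x * y = y * x)
    (ht : ∀ g : G, ∃ n : ℕ, 0 < n ∧ g ^ n = 1) : LF (Subgroup.closure S) := by
  intro s hs
  have hcom := Subgroup.isMulCommutative_closure hc
  have h1 : ∀ x ∈ (s : Set G), ∀ y ∈ (s : Set G), x * y = y * x := by
    intro x hx y hy
    have := hcom.is_comm.comm (⟨x, hs hx⟩ : Subgroup.closure S) ⟨y, hs hy⟩
    exact congrArg Subtype.val this
  have h2 := Subgroup.isMulCommutative_closure h1
  let _ : CommGroup (Subgroup.closure (s : Set G)) :=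
    { (inferInstance : Group (Subgroup.closure (s : Set G))) with
      mul_comm := h2.is_comm.comm }
  have hfg : Group.FG (Subgroup.closure (s : Set G)) := (Group.fg_iff_subgroup_fg _).2 ⟨s, rfl⟩
  have htor : ∀ g : Subgroup.closure (s : Set G), IsOfFinOrder g := by
    intro g
    rw [isOfFinOrder_iff_pow_eq_one]
    obtain ⟨n, hn, h⟩ := ht g
    exact ⟨n, hn, Subtype.ext (by rw [Subgroup.coe_pow, h]; rfl)⟩
  exact CommGroup.finite_of_fg_isMulTorsion (Subgroup.closure (s : Set G)) htor

/-- the family of locally finite normal subgroups -/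
def lfn (G : Type u) [Group G] : Set (Subgroup G) := {A | A.Normal ∧ LF A}

/-- the locally finite radical -/
def rad (G : Type u) [Group G] : Subgroup G := sSup (lfn G)

theorem lfn_directed : DirectedOn (· ≤ ·) (lfn G) := by
  rintro A ⟨hA, hA'⟩ B ⟨hB, hB'⟩
  exact ⟨A ⊔ B, ⟨Subgroup.sup_normal A B, hA'.sup hB'⟩, le_sup_left, le_sup_right⟩

theorem lfn_nonempty : (lfn G).Nonempty := ⟨⊥, inferInstance, LF_bot⟩

theorem rad_cover (s : Finset G) (hs : (s : Set G) ⊆ rad G) : ∃ A ∈ lfn G, (s : Set G) ⊆ A := by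
  classical
  induction s using Finset.induction_on with
  | empty => exact ⟨⊥, ⟨inferInstance, LF_bot⟩, by simp⟩
  | insert a s _ ih =>
    rw [Finset.coe_insert, Set.insert_subset_iff] at hs
    obtain ⟨A, hA, hsA⟩ := ih hs.2
    obtain ⟨B, hB, haB⟩ := (Subgroup.mem_sSup_of_directedOn lfn_nonempty lfn_directed).1 hs.1
    obtain ⟨C, hC, hAC, hBC⟩ := lfn_directed A hA B hB
    refine ⟨C, hC, ?_⟩
    rw [Finset.coe_insert, Set.insert_subset_iff]
    exact ⟨hBC haB, hsA.trans hAC⟩

theorem rad_LF : LF (rad G) := by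
  intro s hs
  obtain ⟨A, hA, hsA⟩ := rad_cover s hs
  exact hA.2 s hsA

instance rad_normal : (rad G).Normal := by
  constructor
  intro n hn g
  obtain ⟨A, hA, hnA⟩ := (Subgroup.mem_sSup_of_directedOn lfn_nonempty lfn_directed).1 hn
  exact (le_sSup hA : A ≤ rad G) (hA.1.conj_mem n hnA g)

theorem le_rad {A : Subgroup G} (hn : A.Normal) (h : LF A) : A ≤ rad G := le_sSup ⟨hn, h⟩

/-- the quotient by the radical has trivial radical -/
theorem rad_quot (B : Subgroup (G ⧸ rad G)) (hn : B.Normal) (h : LF B) : B = ⊥ := by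
  have h1 : LF (B.comap (QuotientGroup.mk' (rad G))) := by
    refine LF.ext (QuotientGroup.mk' (rad G)) rad_LF
      (fun g _ h => (QuotientGroup.eq_one_iff g).1 h) (h.mono ?_)
    exact Subgroup.map_comap_le _ _
  have h2 := le_rad (hn.comap _) h1
  rw [eq_bot_iff]
  intro q hq
  obtain ⟨g, rfl⟩ := QuotientGroup.mk'_surjective (rad G) q
  have h3 : g ∈ rad G := h2 hq
  rw [Subgroup.mem_bot]
  exact (QuotientGroup.eq_one_iff g).2 h3

/-- a group all of whose elements are in the radical -/
theorem LF_top_of_quot (h : ∀ q : G ⧸ rad G, q = 1) : LF (⊤ : Subgroup G) := by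
  refine rad_LF.mono ?_
  intro g _
  exact (QuotientGroup.eq_one_iff g).1 (h g)

end Run7.h676
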