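import Pool.Agent.Run7.h676.Lcs
import Pool.Agent.Run7.h676.LF

/-!
# Involutions `z` such that `[z, z ^ y]` commutes with `y`

Let `z` be an element with `z ^ 2 = 1` of a group such that `[z, z ^ y]` commutes with `y` for every
`y`.  Then the normal closure of `z` is generated by abelian normal subgroups, and so it is locally
finite if the group is periodic.
-/

set_option autoImplicit false

namespace Run7.h676

universe u

variable {G : Type u} [Group G]

/-- the condition on `z` -/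
def Star (z : G) : Prop := ∀ y : G, Commute (cm z (y⁻¹ * z * y)) y

theorem Star.conj {z : G} (h : Star z) (g : G) : Star (g⁻¹ * z * g) := by
  intro y
  have h1 := h (g * y * g⁻¹)
  have e : cm (g⁻¹ * z * g) (y⁻¹ * (g⁻¹ * z * g) * y) =
      g⁻¹ * cm z ((g * y * g⁻¹)⁻¹ * z * (g * y * g⁻¹)) * g := by
    unfold cm; group
  rw [e]
  generalize cm z ((g * y * g⁻¹)⁻¹ * z * (g * y * g⁻¹)) = c at h1
  have h2 : c * (g * y * g⁻¹) = (g * y * g⁻¹) * c := h1
  change g⁻¹ * c * g * y = y * (g⁻¹ * c * g)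
  calc g⁻¹ * c * g * y = g⁻¹ * (c * (g * y * g⁻¹)) * g := by group
    _ = g⁻¹ * ((g * y * g⁻¹) * c) * g := by rw [h2]
    _ = y * (g⁻¹ * c * g) := by group

theorem Star.cent {a : G} (ha : Star a) (y h : G) (hc : Commute h a) :
    Commute h (cm a (y⁻¹ * a * y)) := by
  have h1 := ha y
  have h2 := ha (h * y)
  have e : (h * y)⁻¹ * a * (h * y) = y⁻¹ * a * y := by
    have h3 : h⁻¹ * a * h = a := by
      have : a * h = h * a := hc.symm
      rw [mul_assoc, this, inv_mul_cancel_left]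
    calc (h * y)⁻¹ * a * (h * y) = y⁻¹ * (h⁻¹ * a * h) * y := by group
      _ = y⁻¹ * a * y := by rw [h3]
  rw [e] at h2
  have h3 := h2.mul_right h1.inv_right
  rw [mul_inv_cancel_right] at h3
  exact h3.symm

theorem Star.cent' {a : G} (ha : Star a) (y h : G) (hc : Commute h a) :
    Commute ((y⁻¹ * a * y) * h * (y⁻¹ * a * y)⁻¹) a := by
  have h1 := hc.mul_right (ha.cent y h hc)
  generalize y⁻¹ * a * y = b at h1 ⊢
  have e : a * cm a b = b⁻¹ * a * b := by unfold cm; group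
  rw [e] at h1
  have h2 : h * (b⁻¹ * a * b) = b⁻¹ * a * b * h := h1
  change b * h * b⁻¹ * a = a * (b * h * b⁻¹)
  calc b * h * b⁻¹ * a = b * (h * (b⁻¹ * a * b)) * b⁻¹ := by group
    _ = b * (b⁻¹ * a * b * h) * b⁻¹ := by rw [h2]
    _ = a * (b * h * b⁻¹) := by group

/-- the elements of the normal closure normalise the centralizers of the conjugates -/
theorem Star.normalise {z : G} (hz : Star z) (h2 : z * z = 1) (g n : G)
    (hn : n ∈ Subgroup.normalClosure {z}) :
    ∀ h : G, Commute h (g⁻¹ * z * g) ↔ Commute (n * h * n⁻¹) (g⁻¹ * z * g) := by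
  have key : ∀ b : G, b ∈ Group.conjugatesOfSet {z} → ∀ h : G, Commute h (g⁻¹ * z * g) →
      Commute (b * h * b⁻¹) (g⁻¹ * z * g) := by
    intro b hb h hh
    rw [Group.mem_conjugatesOfSet_iff] at hb
    obtain ⟨a, ha, hab⟩ := hb
    rw [Set.mem_singleton_iff] at ha
    subst ha
    rw [isConj_iff] at hab
    obtain ⟨c, rfl⟩ := hab
    have h3 := (hz.conj g).cent' (g⁻¹ * c⁻¹) h hh
    have e : (g⁻¹ * c⁻¹)⁻¹ * (g⁻¹ * a * g) * (g⁻¹ * c⁻¹) = c * a * c⁻¹ := by group
    rw [e] at h3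
    exact h3
  have inv : ∀ b : G, b ∈ Group.conjugatesOfSet {z} → b * b = 1 := by
    intro b hb
    rw [Group.mem_conjugatesOfSet_iff] at hb
    obtain ⟨a, ha, hab⟩ := hb
    rw [Set.mem_singleton_iff] at ha
    subst ha
    rw [isConj_iff] at hab
    obtain ⟨c, rfl⟩ := hab
    calc c * a * c⁻¹ * (c * a * c⁻¹) = c * (a * a) * c⁻¹ := by group
      _ = 1 := by rw [h2]; group
  unfold Subgroup.normalClosure at hn
  induction hn using Subgroup.closure_induction with
  | mem b hb =>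
    intro h
    refine ⟨key b hb h, fun hh => ?_⟩
    have h3 := key b hb _ hh
    have e : b * (b * h * b⁻¹) * b⁻¹ = (b * b) * h * (b * b)⁻¹ := by group
    rw [e, inv b hb] at h3
    simpa using h3
  | one => intro h; simp
  | mul a b _ _ iha ihb =>
    intro h
    rw [ihb h, iha (b * h * b⁻¹)]
    have e : a * (b * h * b⁻¹) * a⁻¹ = a * b * h * (a * b)⁻¹ := by group
    rw [e]
  | inv a _ iha =>
    intro h
    rw [iha (a⁻¹ * h * a⁻¹⁻¹)]
    have e : a * (a⁻¹ * h * a⁻¹⁻¹) * a⁻¹ = h := by group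
    rw [e]

theorem Star.comm {z : G} (hz : Star z) (h2 : z * z = 1) (g n : G)
    (hn : n ∈ Subgroup.normalClosure {z}) :
    Commute (n * (g⁻¹ * z * g) * n⁻¹) (g⁻¹ * z * g) :=
  (hz.normalise h2 g n hn _).1 (Commute.refl _)

/-- The normal closure of `z` is locally finite. -/
theorem Star.LF {z : G} (hz : Star z) (h2 : z * z = 1)
    (ht : ∀ g : G, ∃ n : ℕ, 0 < n ∧ g ^ n = 1) : LF (Subgroup.normalClosure {z}) := by
  set N := Subgroup.normalClosure {z} with hN
  have ht' : ∀ g : N, ∃ n : ℕ, 0 < n ∧ g ^ n = 1 := by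
    intro g
    obtain ⟨n, hn, h⟩ := ht g
    exact ⟨n, hn, Subtype.ext (by rw [Subgroup.coe_pow, h]; rfl)⟩
  have key : ∀ b : G, b ∈ Group.conjugatesOfSet {z} → b ∈ (rad N).map N.subtype := by
    intro b hb
    have hbN : b ∈ N := Subgroup.conjugatesOfSet_subset_normalClosure hb
    rw [Group.mem_conjugatesOfSet_iff] at hb
    obtain ⟨a, ha, hab⟩ := hb
    rw [Set.mem_singleton_iff] at ha
    subst ha
    rw [isConj_iff] at hab
    obtain ⟨c, hc⟩ := hab
    have hb : b = c⁻¹⁻¹ * a * c⁻¹ := by rw [← hc]; group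
    refine ⟨⟨b, hbN⟩, ?_, rfl⟩
    have hle : Subgroup.normalClosure {(⟨b, hbN⟩ : N)} ≤ rad N := by
      refine le_rad Subgroup.normalClosure_normal ?_
      refine LF_of_comm _ ?_ ht'
      intro x hx y hy
      rw [Group.mem_conjugatesOfSet_iff] at hx hy
      obtain ⟨x', hx', hx''⟩ := hx
      obtain ⟨y', hy', hy''⟩ := hy
      rw [Set.mem_singleton_iff] at hx' hy'
      subst hx' hy'
      rw [isConj_iff] at hx'' hy''
      obtain ⟨n, rfl⟩ := hx''
      obtain ⟨m, rfl⟩ := hy''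
      have h3 := hz.comm h2 c⁻¹ ((m⁻¹ * n : N) : G) (m⁻¹ * n : N).2
      rw [← hb] at h3
      apply Subtype.ext
      have h4 : ((m : G)⁻¹ * n * b * ((m : G)⁻¹ * n)⁻¹) * b = b * ((m : G)⁻¹ * n * b * ((m : G)⁻¹ * n)⁻¹) := h3
      change (n : G) * b * (n : G)⁻¹ * ((m : G) * b * (m : G)⁻¹) =
        (m : G) * b * (m : G)⁻¹ * ((n : G) * b * (n : G)⁻¹)
      calc (n : G) * b * (n : G)⁻¹ * ((m : G) * b * (m : G)⁻¹) =
          m * (((m : G)⁻¹ * n * b * ((m : G)⁻¹ * n)⁻¹) * b) * (m : G)⁻¹ := by group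
        _ = m * (b * ((m : G)⁻¹ * n * b * ((m : G)⁻¹ * n)⁻¹)) * (m : G)⁻¹ := by rw [h4]
        _ = _ := by group
    exact hle (Subgroup.subset_normalClosure (Set.mem_singleton _))
  have hle : N ≤ (rad N).map N.subtype := by
    rw [hN]
    unfold Subgroup.normalClosure
    rw [Subgroup.closure_le]
    intro b hb
    exact key b hb
  exact (rad_LF.map N.subtype).mono hle

end Run7.h676
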