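import Pool.Agent.Run7.h676.Eight
import Pool.Agent.Run7.h676.Star
import Pool.Agent.H15R2.Burn

/-!
# 2-groups in which the 2-generated subgroups have class at most nine
-/

set_option autoImplicit false

namespace Run7.h676

universe u v

variable {G : Type u} [Group G]

/-- every two elements generate a nilpotent subgroup of class at most `c` -/
def Two (G : Type u) [Group G] (c : ℕ) : Prop :=
  ∀ a b : G, (Subgroup.closure {a, b}).lowerCentralSeries c = ⊥

theorem Two.map {c : ℕ} (h : Two G c) {Q : Type v} [Group Q] (f : G →* Q)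
    (hf : Function.Surjective f) : Two Q c := by
  intro a b
  obtain ⟨a, rfl⟩ := hf a
  obtain ⟨b, rfl⟩ := hf b
  have e : Subgroup.closure {f a, f b} = (Subgroup.closure {a, b}).map f := by
    rw [MonoidHom.map_closure, Set.image_pair]
  rw [e, ← Subgroup.map_lowerCentralSeries, h, Subgroup.map_bot]

/-- the lower central series of a subgroup as a group -/
theorem L_sub {c : ℕ} (K : Subgroup G) (h : K.lowerCentralSeries c = ⊥) : L K c = ⊥ := by
  have h1 := Subgroup.top_subtype_lowerCentralSeries K c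
  rw [h] at h1
  exact (Subgroup.map_eq_bot_iff_of_injective _ K.subtype_injective).1 h1

/-- elements of the last term of the lower central series are central -/
theorem central_of_last {c : ℕ} {K : Type u} [Group K] (h : L K (c + 1) = ⊥) {a : K}
    (ha : a ∈ L K c) : a ∈ Subgroup.center K := by
  rw [Subgroup.mem_center_iff]
  intro g
  exact (comm_of_mem (i := 0) (j := c) h (Subgroup.mem_top g) ha (by omega)).eq

/-- conjugates of an involution -/
theorem conj_sq {z y : G} (h : z * z = 1) : (y⁻¹ * z * y) * (y⁻¹ * z * y) = 1 := by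
  have e : (y⁻¹ * z * y) * (y⁻¹ * z * y) = y⁻¹ * (z * z) * y := by group
  rw [e, h]; group

theorem cm_eq_one {a b : G} (h : Commute a b) : cm a b = 1 := by
  have h1 : a * b = b * a := h
  unfold cm
  rw [mul_assoc, h1]; group

/-- the commutator of `z` and `z ^ y` is central in the subgroup generated by `x` and `y`, if it is
trivial modulo the center -/
theorem star_of_quot {x y : G} {c : ℕ} (h : (Subgroup.closure {x, y}).lowerCentralSeries (c + 1) = ⊥)
    (z : G) (hz : z ∈ Subgroup.closure {x, y})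
    (hq : ∀ z' y' : Subgroup.closure ({x, y} : Set G), (z' : G) = z → (y' : G) = y →
      Commute (z' : (Subgroup.closure ({x, y} : Set G)) ⧸ Subgroup.center
        (Subgroup.closure ({x, y} : Set G))) (y'⁻¹ * z' * y')) :
    Commute (cm z (y⁻¹ * z * y)) y := by
  have hy : y ∈ Subgroup.closure ({x, y} : Set G) := Subgroup.subset_closure (by simp)
  have h1 := hq ⟨z, hz⟩ ⟨y, hy⟩ rfl rfl
  have h2 := cm_eq_one h1
  have h3 : cm (⟨z, hz⟩ : Subgroup.closure ({x, y} : Set G))
      ((⟨y, hy⟩ : Subgroup.closure ({x, y} : Set G))⁻¹ * ⟨z, hz⟩ * ⟨y, hy⟩) ∈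
      Subgroup.center (Subgroup.closure ({x, y} : Set G)) := by
    rw [← QuotientGroup.eq_one_iff]
    exact h2
  rw [Subgroup.mem_center_iff] at h3
  have h4 := congrArg Subtype.val (h3 ⟨y, hy⟩)
  exact h4.symm

/-- the quotient by the center has smaller class -/
theorem L_quot_center {K : Type u} [Group K] {c : ℕ} (h : L K (c + 1) = ⊥) :
    L (K ⧸ Subgroup.center K) c = ⊥ := by
  have e : (⊤ : Subgroup (K ⧸ Subgroup.center K)) = (⊤ : Subgroup K).map
      (QuotientGroup.mk' (Subgroup.center K)) := by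
    rw [Subgroup.map_top_of_surjective _ (QuotientGroup.mk'_surjective _)]
  change (⊤ : Subgroup (K ⧸ Subgroup.center K)).lowerCentralSeries c = ⊥
  rw [e, ← Subgroup.map_lowerCentralSeries, eq_bot_iff]
  rintro _ ⟨a, ha, rfl⟩
  rw [Subgroup.mem_bot]
  exact (QuotientGroup.eq_one_iff a).2 (central_of_last h ha)

/-- descent: from exponent `2 ^ (k + 1)` to `2 ^ k` -/
theorem descent (h9 : Two G 9) (hr : ∀ z : G, Star z → z * z = 1 → z = 1) (k : ℕ) (hk : 2 ≤ k)
    (hexp : ∀ g : G, g ^ 2 ^ (k + 1) = 1) : ∀ g : G, g ^ 2 ^ k = 1 := by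
  intro x
  refine hr _ ?_ ?_
  · intro y
    have hx : x ∈ Subgroup.closure ({x, y} : Set G) := Subgroup.subset_closure (by simp)
    refine star_of_quot (h9 x y) _ (Subgroup.pow_mem _ hx _) ?_
    intro z' y' hz' hy'
    have h8 := L_quot_center (L_sub _ (h9 x y))
    have h := class_eight h8 k hk ?_ (QuotientGroup.mk ⟨x, hx⟩) (QuotientGroup.mk y')
    · have e : z' = ⟨x, hx⟩ ^ 2 ^ k := Subtype.ext (by rw [Subgroup.coe_pow, hz'])
      rw [e]
      exact h
    · intro g
      obtain ⟨g, rfl⟩ := QuotientGroup.mk_surjective g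
      rw [← QuotientGroup.mk_pow]
      have : g ^ 2 ^ (k + 1) = 1 := Subtype.ext (by rw [Subgroup.coe_pow, hexp]; rfl)
      rw [this]; rfl
  · rw [← pow_add, ← two_mul, ← pow_succ', hexp]

/-- bounding the exponent -/
theorem bounded (h9 : Two G 9) (hr : ∀ z : G, Star z → z * z = 1 → z = 1) (m : ℕ) :
    ∀ g : G, g ^ 2 ^ m = 1 → g ^ 2 ^ 8 = 1 := by
  induction m with
  | zero =>
    intro g hg
    rw [pow_zero, pow_one] at hg
    rw [hg, one_pow]
  | succ m ih =>
    intro x hx
    rcases Nat.lt_or_ge m 8 with h | h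
    · obtain ⟨d, hd⟩ := Nat.exists_eq_add_of_lt h
      have e : 8 = (m + 1) + d := by omega
      have e2 : (2 : ℕ) ^ 8 = 2 ^ (m + 1) * 2 ^ d := by rw [← pow_add, ← e]
      rw [e2, pow_mul, hx, one_pow]
    · refine ih x (hr _ ?_ ?_)
      · intro y
        have hxm : x ∈ Subgroup.closure ({x, y} : Set G) := Subgroup.subset_closure (by simp)
        have hym : y ∈ Subgroup.closure ({x, y} : Set G) := Subgroup.subset_closure (by simp)
        have hz2 : x ^ 2 ^ m * x ^ 2 ^ m = 1 := by rw [← pow_add, ← two_mul, ← pow_succ', hx]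
        have hv := conj_sq (y := y) hz2
        have h1 := crude (S := Subgroup.closure ({x, y} : Set G)) hxm
          (mul_mem (mul_mem (inv_mem hym) (Subgroup.pow_mem _ hxm (2 ^ m))) hym) hv m
        have h2 : (Subgroup.closure ({x, y} : Set G)).lowerCentralSeries (m + 1) = ⊥ :=
          eq_bot_iff.2 ((Subgroup.lowerCentralSeries_antitone _ (by omega : 9 ≤ m + 1)).trans
            (h9 x y).le)
        rw [h2, Subgroup.mem_bot, commutatorElement_eq_one_iff_mul_comm] at h1
        rw [cm_eq_one h1]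
        exact Commute.one_left y
      · rw [← pow_add, ← two_mul, ← pow_succ', hx]

/-- Every 2-group in which the 2-generated subgroups have class at most nine is locally finite. -/
theorem main (h9 : Two G 9) (h2 : ∀ g : G, ∃ k : ℕ, g ^ 2 ^ k = 1) : LF (⊤ : Subgroup G) := by
  refine LF_top_of_quot ?_
  have h9' : Two (G ⧸ rad G) 9 := h9.map (QuotientGroup.mk' (rad G)) (QuotientGroup.mk'_surjective _)
  have h2' : ∀ g : G ⧸ rad G, ∃ k : ℕ, g ^ 2 ^ k = 1 := by
    intro g
    obtain ⟨g, rfl⟩ := QuotientGroup.mk_surjective g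
    obtain ⟨k, hk⟩ := h2 g
    exact ⟨k, by rw [← QuotientGroup.mk_pow, hk]; rfl⟩
  have ht : ∀ g : G ⧸ rad G, ∃ n : ℕ, 0 < n ∧ g ^ n = 1 := by
    intro g
    obtain ⟨k, hk⟩ := h2' g
    exact ⟨2 ^ k, by positivity, hk⟩
  have hr : ∀ z : G ⧸ rad G, Star z → z * z = 1 → z = 1 := by
    intro z hz hz2
    have h1 := rad_quot _ Subgroup.normalClosure_normal (hz.LF hz2 ht)
    have h3 : z ∈ Subgroup.normalClosure {z} :=
      Subgroup.subset_normalClosure (Set.mem_singleton z)
    rw [h1] at h3
    exact Subgroup.mem_bot.1 h3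
  have e8 : ∀ g : G ⧸ rad G, g ^ 2 ^ 8 = 1 := by
    intro g
    obtain ⟨k, hk⟩ := h2' g
    exact bounded h9' hr k g hk
  have e7 := descent h9' hr 7 (by norm_num) e8
  have e6 := descent h9' hr 6 (by norm_num) e7
  have e5 := descent h9' hr 5 (by norm_num) e6
  have e4 := descent h9' hr 4 (by norm_num) e5
  have e3 := descent h9' hr 3 (by norm_num) e4
  have e2 := descent h9' hr 2 (by norm_num) e3
  have hlf : LF (⊤ : Subgroup (G ⧸ rad G)) := fun s _ => H15.Burn.fin4 e2 s
  have h1 := rad_quot _ inferInstance hlf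
  intro q
  have h3 : q ∈ (⊤ : Subgroup (G ⧸ rad G)) := Subgroup.mem_top q
  rw [h1] at h3
  exact Subgroup.mem_bot.1 h3

end Run7.h676
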