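import Mathlib

/-!
# A group of class at most three with a shift endomorphism, in coordinates

`Dat T` records elements `t0, ..., t4, d1, d2` of a group `T` and nine central elements with the
commutation relations of the normal closure of an element of weight 2 in a group of class 8.
`Dat.ev` evaluates a vector of exponents, `V.mul` and `V.alpha` compute products and images.
-/

set_option autoImplicit false

namespace Run7.h676

/-- exponent vectors -/
structure V where
  a0 : ℕ
  a1 : ℕ
  b1 : ℕ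
  a2 : ℕ
  b2 : ℕ
  a3 : ℕ
  a4 : ℕ
  c5 : ℕ
  c6 : ℕ
  f03 : ℕ
  f12 : ℕ
  f04 : ℕ
  f13 : ℕ
  e0 : ℕ
  e1 : ℕ
  e2 : ℕ
deriving DecidableEq

def c2 (k : ℕ) : ℕ := k * (k - 1) / 2
def c3 (k : ℕ) : ℕ := k.descFactorial 3 / 6

theorem c2_eq (k : ℕ) : c2 k = k.choose 2 := (Nat.choose_two_right k).symm

theorem c3_eq (k : ℕ) : c3 k = k.choose 3 := by
  rw [Nat.choose_eq_descFactorial_div_factorial]; rfl

theorem c2_succ (k : ℕ) : c2 (k + 1) = c2 k + k := by
  rw [c2_eq, c2_eq, Nat.choose_succ_succ' k 1, Nat.choose_one_right, add_comm]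

theorem c3_succ (k : ℕ) : c3 (k + 1) = c3 k + c2 k := by
  rw [c3_eq, c3_eq, c2_eq, Nat.choose_succ_succ' k 2, add_comm]

@[simp] theorem c2_zero : c2 0 = 0 := rfl
@[simp] theorem c3_zero : c3 0 = 0 := rfl

/-- the data -/
structure Dat (T : Type*) [Group T] where
  t0 : T
  t1 : T
  d1 : T
  t2 : T
  d2 : T
  t3 : T
  t4 : T
  c5 : Subgroup.center T
  c6 : Subgroup.center T
  f03 : Subgroup.center T
  f12 : Subgroup.center T
  f04 : Subgroup.center T
  f13 : Subgroup.center T
  e0 : Subgroup.center T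
  e1 : Subgroup.center T
  e2 : Subgroup.center T
  h10 : t1 * t0 = t0 * t1 * d1
  h20 : t2 * t0 = t0 * t2 * d2
  h30 : t3 * t0 = t0 * t3 * f03
  h40 : t4 * t0 = t0 * t4 * f04
  h21 : t2 * t1 = t1 * t2 * f12
  h31 : t3 * t1 = t1 * t3 * f13
  k10 : d1 * t0 = t0 * d1 * e0
  k11 : d1 * t1 = t1 * d1 * e1
  k20 : d2 * t0 = t0 * d2 * e2
  h41 : Commute t4 t1
  k21 : Commute d2 t1
  h32 : Commute t3 t2
  h42 : Commute t4 t2
  k12 : Commute d1 t2
  k22 : Commute d2 t2
  h43 : Commute t4 t3
  k13 : Commute d1 t3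
  k23 : Commute d2 t3
  k14 : Commute d1 t4
  k24 : Commute d2 t4
  kdd : Commute d1 d2

namespace Dat

variable {T : Type*} [Group T] (D : Dat T)

/-- the central part -/
def evZ (v : V) : Subgroup.center T :=
  D.c5 ^ v.c5 * D.c6 ^ v.c6 * D.f03 ^ v.f03 * D.f12 ^ v.f12 * D.f04 ^ v.f04 * D.f13 ^ v.f13 *
    D.e0 ^ v.e0 * D.e1 ^ v.e1 * D.e2 ^ v.e2

/-- the value of an exponent vector -/
def ev (v : V) : T :=
  D.t0 ^ v.a0 * (D.t1 ^ v.a1 * (D.d1 ^ v.b1 * (D.t2 ^ v.a2 * (D.d2 ^ v.b2 *
    (D.t3 ^ v.a3 * (D.t4 ^ v.a4 * (D.evZ v : T)))))))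

theorem cen (z : Subgroup.center T) (g : T) : (z : T) * g = g * z :=
  ((Subgroup.mem_center_iff.1 z.2) g).symm

theorem cen' (z : Subgroup.center T) (g h : T) : (z : T) * (g * h) = g * (z * h) := by
  rw [← mul_assoc, cen z g, mul_assoc]

/-- moving a generator through powers of another one -/
theorem pow_swap {u t d : T} (h : u * t = t * u * d) (hd : Commute d u) (k : ℕ) :
    u ^ k * t = t * (u ^ k * d ^ k) := by
  induction k with
  | zero => simp
  | succ k ih =>
    have e1 : u ^ (k + 1) * t = u ^ k * (u * t) := by rw [pow_succ, mul_assoc]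
    have e2 : u ^ k * (t * u * d) = (u ^ k * t) * (u * d) := by simp only [mul_assoc]
    rw [e1, h, e2, ih, pow_succ, pow_succ]
    have e3 : d ^ k * u = u * d ^ k := (hd.pow_left k).eq
    calc t * (u ^ k * d ^ k) * (u * d) = t * (u ^ k * (d ^ k * u) * d) := by simp only [mul_assoc]
      _ = t * (u ^ k * u * (d ^ k * d)) := by rw [e3]; simp only [mul_assoc]

theorem pow_swapc {u t : T} {z : Subgroup.center T} (h : u * t = t * u * z) (k : ℕ) :
    u ^ k * t = t * (u ^ k * (z ^ k : Subgroup.center T)) := by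
  rw [pow_swap h (cen z u), Subgroup.coe_pow]

/-- the same if the commutator commutes with `u` up to a central element -/
theorem pow_swap2 {u t d : T} {z : Subgroup.center T} (h : u * t = t * u * d)
    (hd : d * u = u * d * z) (k : ℕ) :
    u ^ k * t = t * (u ^ k * (d ^ k * ((z ^ (c2 k) : Subgroup.center T) : T))) := by
  induction k with
  | zero => simp
  | succ k ih =>
    have e1 : u ^ (k + 1) * t = u ^ k * (u * t) := by rw [pow_succ, mul_assoc]
    have e2 : u ^ k * (t * u * d) = (u ^ k * t) * (u * d) := by simp only [mul_assoc]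
    rw [e1, h, e2, ih]
    have e3 : d ^ k * u = u * (d ^ k * (z ^ k : Subgroup.center T)) := pow_swapc hd k
    have e4 : ((z ^ c2 (k + 1) : Subgroup.center T) : T) =
        ((z ^ k : Subgroup.center T) : T) * ((z ^ c2 k : Subgroup.center T) : T) := by
      rw [c2_succ, pow_add, Subgroup.coe_mul]; exact cen _ _
    rw [e4]
    calc t * (u ^ k * (d ^ k * ((z ^ (c2 k) : Subgroup.center T) : T))) * (u * d)
        = t * (u ^ k * (d ^ k * (((z ^ (c2 k) : Subgroup.center T) : T) * (u * d)))) := by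
          simp only [mul_assoc]
      _ = t * (u ^ k * (d ^ k * (u * (d * ((z ^ (c2 k) : Subgroup.center T) : T))))) := by
          rw [cen (z ^ (c2 k)) (u * d)]; simp only [mul_assoc]
      _ = t * (u ^ k * ((d ^ k * u) * (d * ((z ^ (c2 k) : Subgroup.center T) : T)))) := by
          simp only [mul_assoc]
      _ = t * (u ^ k * (u * (d ^ k * (((z ^ k : Subgroup.center T) : T) * (d * ((z ^ (c2 k) : Subgroup.center T) : T)))))) := by
          rw [e3]; simp only [mul_assoc]
      _ = t * (u ^ (k + 1) * (d ^ (k + 1) * (((z ^ k : Subgroup.center T) : T) *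
            ((z ^ c2 k : Subgroup.center T) : T)))) := by
          rw [cen' (z ^ k) d, pow_succ u, pow_succ d]; simp only [mul_assoc]

end Dat

end Run7.h676
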