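import Pool.Agent.Run7.h676.Model

/-!
# Products in coordinates
-/

set_option autoImplicit false

namespace Run7.h676
namespace Dat

variable {T : Type*} [Group T] (D : Dat T)

/-- normal form with an arbitrary central factor -/
def evc (a0 a1 b1 a2 b2 a3 a4 : ℕ) (z : Subgroup.center T) : T :=
  D.t0 ^ a0 * (D.t1 ^ a1 * (D.d1 ^ b1 * (D.t2 ^ a2 * (D.d2 ^ b2 *
    (D.t3 ^ a3 * (D.t4 ^ a4 * (z : T)))))))

theorem ev_eq (v : V) : D.ev v = D.evc v.a0 v.a1 v.b1 v.a2 v.b2 v.a3 v.a4 (D.evZ v) := rfl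

theorem sw {u t w : T} (h : u * t = t * w) (r : T) : u * (t * r) = t * (w * r) := by
  rw [← mul_assoc, h, mul_assoc]

theorem cc (a b : Subgroup.center T) : a * b = b * a := Subtype.ext (cen a b)

theorem cl (a b c : Subgroup.center T) : a * (b * c) = b * (a * c) := by
  rw [← mul_assoc, cc a b, mul_assoc]

theorem evc_z (a0 a1 b1 a2 b2 a3 a4 : ℕ) (z w : Subgroup.center T) :
    D.evc a0 a1 b1 a2 b2 a3 a4 z * (w : T) = D.evc a0 a1 b1 a2 b2 a3 a4 (z * w) := by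
  simp only [evc, mul_assoc, Subgroup.coe_mul]

theorem evc_t0 (a0 a1 b1 a2 b2 a3 a4 : ℕ) (z : Subgroup.center T) :
    D.evc a0 a1 b1 a2 b2 a3 a4 z * D.t0 = D.evc (a0 + 1) a1 (b1 + a1) a2 (b2 + a2) a3 a4
      (z * (D.f03 ^ a3 * D.f04 ^ a4 * D.e0 ^ b1 * D.e1 ^ c2 a1 * D.e2 ^ b2)) := by
  have s1 := pow_swap2 D.h10 D.k11 a1
  have s2 := pow_swapc D.k10 b1
  have s3 := pow_swap D.h20 D.k22 a2
  have s4 := pow_swapc D.k20 b2
  have s5 := pow_swapc D.h30 a3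
  have s6 := pow_swapc D.h40 a4
  have hz : (z * (D.f03 ^ a3 * D.f04 ^ a4 * D.e0 ^ b1 * D.e1 ^ c2 a1 * D.e2 ^ b2)) =
      D.f04 ^ a4 * z * D.f03 ^ a3 * D.e2 ^ b2 * D.e0 ^ b1 * D.e1 ^ c2 a1 := by
    ac_rfl
  rw [hz]
  unfold evc
  simp only [mul_assoc]
  rw [cen z D.t0, sw s6, sw s5, sw s4, sw s3, sw s2, sw s1]
  simp only [mul_assoc]
  rw [cen (D.f03 ^ a3), cen (D.e2 ^ b2), cen (D.e0 ^ b1), cen (D.e1 ^ c2 a1), pow_succ, pow_add,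
    pow_add, ← pow_add D.d1, add_comm b1, pow_add, ← pow_add D.d2, add_comm b2, pow_add]
  simp only [mul_assoc, Subgroup.coe_mul]

theorem evc_t0k (a0 a1 b1 a2 b2 a3 a4 : ℕ) (z : Subgroup.center T) (k : ℕ) :
    D.evc a0 a1 b1 a2 b2 a3 a4 z * D.t0 ^ k = D.evc (a0 + k) a1 (b1 + k * a1) a2 (b2 + k * a2) a3 a4
      (z * (D.f03 ^ (k * a3) * D.f04 ^ (k * a4) * D.e0 ^ (c2 k * a1 + k * b1) *
        D.e1 ^ (k * c2 a1) * D.e2 ^ (c2 k * a2 + k * b2))) := by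
  induction k with
  | zero => simp
  | succ k ih =>
    rw [pow_succ, ← mul_assoc, ih, evc_t0]
    have h1 : a0 + k + 1 = a0 + (k + 1) := by ring
    have h2 : b1 + k * a1 + a1 = b1 + (k + 1) * a1 := by ring
    have h3 : b2 + k * a2 + a2 = b2 + (k + 1) * a2 := by ring
    have h4 : c2 (k + 1) * a1 + (k + 1) * b1 = (c2 k * a1 + k * b1) + (b1 + k * a1) := by
      rw [c2_succ]; ring
    have h5 : c2 (k + 1) * a2 + (k + 1) * b2 = (c2 k * a2 + k * b2) + (b2 + k * a2) := by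
      rw [c2_succ]; ring
    have h6 : (k + 1) * c2 a1 = k * c2 a1 + c2 a1 := by ring
    have h7 : (k + 1) * a3 = k * a3 + a3 := by ring
    have h8 : (k + 1) * a4 = k * a4 + a4 := by ring
    rw [h1, h2, h3, h4, h5, h6, h7, h8]
    congr 1
    rw [pow_add D.f03, pow_add D.f04, pow_add D.e0 (c2 k * a1 + k * b1), pow_add D.e1 (k * c2 a1),
      pow_add D.e2 (c2 k * a2 + k * b2)]
    ac_rfl

theorem evc_t1 (a0 a1 b1 a2 b2 a3 a4 : ℕ) (z : Subgroup.center T) :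
    D.evc a0 a1 b1 a2 b2 a3 a4 z * D.t1 = D.evc a0 (a1 + 1) b1 a2 b2 a3 a4
      (z * (D.f12 ^ a2 * D.f13 ^ a3 * D.e1 ^ b1)) := by
  have s2 := pow_swapc D.k11 b1
  have s3 := pow_swapc D.h21 a2
  have s4 := (D.k21.pow_left b2).eq
  have s5 := pow_swapc D.h31 a3
  have s6 := (D.h41.pow_left a4).eq
  have hz : (z * (D.f12 ^ a2 * D.f13 ^ a3 * D.e1 ^ b1)) =
      z * D.f13 ^ a3 * D.f12 ^ a2 * D.e1 ^ b1 := by
    ac_rfl
  rw [hz]
  unfold evc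
  simp only [mul_assoc]
  rw [cen z D.t1, sw s6, sw s5, sw s4, sw s3, sw s2]
  simp only [mul_assoc]
  rw [cen (D.f13 ^ a3), cen (D.f12 ^ a2), cen (D.e1 ^ b1), pow_succ]
  simp only [mul_assoc, Subgroup.coe_mul]

theorem evc_t1k (a0 a1 b1 a2 b2 a3 a4 : ℕ) (z : Subgroup.center T) (k : ℕ) :
    D.evc a0 a1 b1 a2 b2 a3 a4 z * D.t1 ^ k = D.evc a0 (a1 + k) b1 a2 b2 a3 a4
      (z * (D.f12 ^ (k * a2) * D.f13 ^ (k * a3) * D.e1 ^ (k * b1))) := by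
  induction k with
  | zero => simp
  | succ k ih =>
    rw [pow_succ, ← mul_assoc, ih, evc_t1]
    have h1 : a1 + k + 1 = a1 + (k + 1) := by ring
    have h2 : (k + 1) * a2 = k * a2 + a2 := by ring
    have h3 : (k + 1) * a3 = k * a3 + a3 := by ring
    have h4 : (k + 1) * b1 = k * b1 + b1 := by ring
    rw [h1, h2, h3, h4]
    congr 1
    rw [pow_add D.f12, pow_add D.f13, pow_add D.e1]
    ac_rfl

theorem evc_d1k (a0 a1 b1 a2 b2 a3 a4 : ℕ) (z : Subgroup.center T) (k : ℕ) :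
    D.evc a0 a1 b1 a2 b2 a3 a4 z * D.d1 ^ k = D.evc a0 a1 (b1 + k) a2 b2 a3 a4 z := by
  have s3 := (D.k12.symm.pow_pow a2 k).eq
  have s4 := (D.kdd.symm.pow_pow b2 k).eq
  have s5 := (D.k13.symm.pow_pow a3 k).eq
  have s6 := (D.k14.symm.pow_pow a4 k).eq
  unfold evc
  simp only [mul_assoc]
  rw [cen z (D.d1 ^ k), sw s6, sw s5, sw s4, sw s3, pow_add]
  simp only [mul_assoc]

theorem evc_t2k (a0 a1 b1 a2 b2 a3 a4 : ℕ) (z : Subgroup.center T) (k : ℕ) :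
    D.evc a0 a1 b1 a2 b2 a3 a4 z * D.t2 ^ k = D.evc a0 a1 b1 (a2 + k) b2 a3 a4 z := by
  have s4 := (D.k22.pow_pow b2 k).eq
  have s5 := (D.h32.pow_pow a3 k).eq
  have s6 := (D.h42.pow_pow a4 k).eq
  unfold evc
  simp only [mul_assoc]
  rw [cen z (D.t2 ^ k), sw s6, sw s5, sw s4, pow_add]
  simp only [mul_assoc]

theorem evc_d2k (a0 a1 b1 a2 b2 a3 a4 : ℕ) (z : Subgroup.center T) (k : ℕ) :
    D.evc a0 a1 b1 a2 b2 a3 a4 z * D.d2 ^ k = D.evc a0 a1 b1 a2 (b2 + k) a3 a4 z := by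
  have s5 := (D.k23.symm.pow_pow a3 k).eq
  have s6 := (D.k24.symm.pow_pow a4 k).eq
  unfold evc
  simp only [mul_assoc]
  rw [cen z (D.d2 ^ k), sw s6, sw s5, pow_add]
  simp only [mul_assoc]

theorem evc_t3k (a0 a1 b1 a2 b2 a3 a4 : ℕ) (z : Subgroup.center T) (k : ℕ) :
    D.evc a0 a1 b1 a2 b2 a3 a4 z * D.t3 ^ k = D.evc a0 a1 b1 a2 b2 (a3 + k) a4 z := by
  have s6 := (D.h43.pow_pow a4 k).eq
  unfold evc
  simp only [mul_assoc]
  rw [cen z (D.t3 ^ k), sw s6, pow_add]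
  simp only [mul_assoc]

theorem evc_t4k (a0 a1 b1 a2 b2 a3 a4 : ℕ) (z : Subgroup.center T) (k : ℕ) :
    D.evc a0 a1 b1 a2 b2 a3 a4 z * D.t4 ^ k = D.evc a0 a1 b1 a2 b2 a3 (a4 + k) z := by
  unfold evc
  simp only [mul_assoc]
  rw [cen z (D.t4 ^ k), pow_add]
  simp only [mul_assoc]

end Dat

/-- product of exponent vectors -/
def V.mul (v w : V) : V :=
  let b1 := v.b1 + w.a0 * v.a1
  let b2 := v.b2 + w.a0 * v.a2
  { a0 := v.a0 + w.a0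
    a1 := v.a1 + w.a1
    b1 := b1 + w.b1
    a2 := v.a2 + w.a2
    b2 := b2 + w.b2
    a3 := v.a3 + w.a3
    a4 := v.a4 + w.a4
    c5 := v.c5 + w.c5
    c6 := v.c6 + w.c6
    f03 := v.f03 + w.a0 * v.a3 + w.f03
    f12 := v.f12 + w.a1 * v.a2 + w.f12
    f04 := v.f04 + w.a0 * v.a4 + w.f04
    f13 := v.f13 + w.a1 * v.a3 + w.f13
    e0 := v.e0 + (c2 w.a0 * v.a1 + w.a0 * v.b1) + w.e0
    e1 := v.e1 + w.a0 * c2 v.a1 + w.a1 * b1 + w.e1
    e2 := v.e2 + (c2 w.a0 * v.a2 + w.a0 * v.b2) + w.e2 }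

namespace Dat
variable {T : Type*} [Group T] (D : Dat T)

theorem ev_mul (v w : V) : D.ev (v.mul w) = D.ev v * D.ev w := by
  have e : D.ev v * D.ev w = D.evc v.a0 v.a1 v.b1 v.a2 v.b2 v.a3 v.a4 (D.evZ v) *
      D.t0 ^ w.a0 * D.t1 ^ w.a1 * D.d1 ^ w.b1 * D.t2 ^ w.a2 * D.d2 ^ w.b2 * D.t3 ^ w.a3 *
      D.t4 ^ w.a4 * (D.evZ w : T) := by
    simp only [ev, evc, mul_assoc]
  rw [e, evc_t0k, evc_t1k, evc_d1k, evc_t2k, evc_d2k, evc_t3k, evc_t4k, evc_z, ev_eq]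
  unfold V.mul
  simp only
  congr 1
  unfold evZ
  simp only
  generalize c2 w.a0 * v.a1 = n1
  generalize w.a0 * v.b1 = n2
  generalize c2 w.a0 * v.a2 = n3
  generalize w.a0 * v.b2 = n4
  generalize w.a0 * v.a3 = n5
  generalize w.a0 * v.a4 = n6
  generalize w.a1 * v.a2 = n7
  generalize w.a1 * v.a3 = n8
  generalize w.a0 * c2 v.a1 = n9
  generalize w.a1 * (v.b1 + w.a0 * v.a1) = n10
  simp only [pow_add, mul_assoc, cc, cl]

/-- the zero vector -/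
def _root_.Run7.h676.V.zero : V := ⟨0, 0, 0, 0, 0, 0, 0, 0, 0, 0, 0, 0, 0, 0, 0, 0⟩

theorem ev_zero : D.ev V.zero = 1 := by
  simp [ev, evZ, V.zero]

end Dat
end Run7.h676
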