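import Mathlib

/-!
# Polynomial sequences with respect to a filtration (Lazard, Leibman)

`F` is a decreasing sequence of subgroups with `[F i, F j] ≤ F (i + j)` and `P F d` is the set of
sequences all of whose `j`-th differences take values in `F (d + j)`.  If `F M = ⊥` it is a subgroup,
and `[P d, P e] ⊆ P (d + e)`.  The proofs are those of `Pool.Agent.H77R2.Poly` and
`Pool.Agent.H77R2.Taylor` (for the lower central series), for a general filtration.
-/

set_option autoImplicit false

namespace Run7.h676.PF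

open scoped commutatorElement

variable {G : Type*} [Group G]

/-- filtrations -/
structure Fil (F : ℕ → Subgroup G) : Prop where
  anti : ∀ i, F (i + 1) ≤ F i
  comm : ∀ i j (g h : G), g ∈ F i → h ∈ F j → ⁅g, h⁆ ∈ F (i + j)

namespace Fil

variable {F : ℕ → Subgroup G} (hF : Fil F)

include hF

theorem le {i j : ℕ} (h : i ≤ j) : F j ≤ F i := by
  induction j, h using Nat.le_induction with
  | base => exact le_refl _
  | succ j _ ih => exact (hF.anti j).trans ih

theorem conj {i j : ℕ} {g v : G} (hg : g ∈ F i) (hv : v ∈ F j) : g * v * g⁻¹ ∈ F j := by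
  have e : g * v * g⁻¹ = ⁅g, v⁆ * v := by simp [commutatorElement_def]
  rw [e]
  exact mul_mem (hF.le (by omega) (hF.comm i j g v hg hv)) hv

end Fil

/-- The difference operator on sequences. -/
def dif (g : ℕ → G) : ℕ → G := fun n => (g n)⁻¹ * g (n + 1)

/-- Sequences whose `j`-th differences lie in `F (d + j)`. -/
def P (F : ℕ → Subgroup G) (d : ℕ) : Set (ℕ → G) :=
  {g | ∀ j n, (dif^[j] g) n ∈ F (d + j)}

theorem mem_P_iff {F : ℕ → Subgroup G} {d : ℕ} {g : ℕ → G} :
    g ∈ P F d ↔ (∀ n, g n ∈ F d) ∧ dif g ∈ P F (d + 1) := by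
  constructor
  · intro h
    refine ⟨fun n => h 0 n, fun j n => ?_⟩
    have := h (j + 1) n
    rw [Function.iterate_succ_apply] at this
    rwa [show d + 1 + j = d + (j + 1) by ring]
  · rintro ⟨h0, h1⟩ j n
    cases j with
    | zero => exact h0 n
    | succ j =>
      rw [Function.iterate_succ_apply, show d + (j + 1) = d + 1 + j by ring]
      exact h1 j n

theorem dif_one : dif (1 : ℕ → G) = 1 := by
  funext n; simp [dif]

theorem dif_iter_one (i : ℕ) : dif^[i] (1 : ℕ → G) = 1 := by
  induction i with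
  | zero => rfl
  | succ i ih => rw [Function.iterate_succ_apply, dif_one, ih]

theorem one_mem_P (F : ℕ → Subgroup G) (d : ℕ) : (1 : ℕ → G) ∈ P F d := by
  intro j n
  rw [dif_iter_one]; exact one_mem _

theorem dif_mul (g h : ℕ → G) : dif (g * h) = h⁻¹ * dif g * h * dif h := by
  funext n; simp only [dif, Pi.mul_apply, Pi.inv_apply]; group

theorem dif_inv (g : ℕ → G) : dif g⁻¹ = g * (dif g)⁻¹ * g⁻¹ := by
  funext n; simp only [dif, Pi.mul_apply, Pi.inv_apply]; group

theorem dif_comm (g u : ℕ → G) : dif ⁅g, u⁆ =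
    u * ((g * ⁅u⁻¹, dif g⁆ * g⁻¹) * (g * ⁅dif g, dif u⁆ * g⁻¹) * ⁅g, dif u⁆) * u⁻¹ := by
  funext n; simp only [dif, Pi.mul_apply, Pi.inv_apply, commutatorElement_def]; group

theorem dif_conj_inv (g v : ℕ → G) : dif (g⁻¹ * v * g) =
    g⁻¹ * (⁅v⁻¹, (g * dif g * g⁻¹)⁻¹⁆ * ((g * dif g * g⁻¹)⁻¹ * dif v * (g * dif g * g⁻¹))) * g := by
  funext n; simp only [dif, Pi.mul_apply, Pi.inv_apply, commutatorElement_def]; group

section

variable {F : ℕ → Subgroup G} (hF : Fil F)

include hF

theorem P_anti {d e : ℕ} (h : d ≤ e) : P F e ⊆ P F d := fun _ hg j n =>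
  hF.le (by omega) (hg j n)

theorem eq_one_of_mem_P {M : ℕ} (hM : F M = ⊥) {d : ℕ} (hd : M ≤ d) {g : ℕ → G}
    (hg : g ∈ P F d) : g = 1 := by
  funext n
  have h := (mem_P_iff.1 hg).1 n
  have h2 := hF.le hd h
  rw [hM] at h2
  exact h2

omit hF in
/-- Closure properties of `P d`. -/
structure PGrp (F : ℕ → Subgroup G) (d : ℕ) : Prop where
  mul : ∀ g h : ℕ → G, g ∈ P F d → h ∈ P F d → g * h ∈ P F d
  inv : ∀ g : ℕ → G, g ∈ P F d → g⁻¹ ∈ P F d

omit hF in
/-- The full statement for all `d, e ≥ D`. -/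
structure PAll (F : ℕ → Subgroup G) (D : ℕ) : Prop where
  grp : ∀ d, D ≤ d → PGrp F d
  comm : ∀ d e, D ≤ d → D ≤ e → ∀ g u : ℕ → G, g ∈ P F d → u ∈ P F e → ⁅g, u⁆ ∈ P F (d + e)

theorem PAll.conj {D : ℕ} (h : PAll F D) {d e : ℕ} (hd : D ≤ d) (he : D ≤ e) {g u : ℕ → G}
    (hg : g ∈ P F d) (hu : u ∈ P F e) : g * u * g⁻¹ ∈ P F e := by
  have : g * u * g⁻¹ = ⁅g, u⁆ * u := by simp [commutatorElement_def]
  rw [this]
  exact (h.grp e he).mul _ _ (P_anti hF (by omega) (h.comm d e hd he g u hg hu)) hu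

theorem PAll.conj' {D : ℕ} (h : PAll F D) {d e : ℕ} (hd : D ≤ d) (he : D ≤ e) {g u : ℕ → G}
    (hg : g ∈ P F d) (hu : u ∈ P F e) : g⁻¹ * u * g ∈ P F e := by
  have := PAll.conj hF h hd he ((h.grp d hd).inv _ hg) hu
  rwa [inv_inv] at this

theorem pall_base {M : ℕ} (hM : F M = ⊥) : PAll F M where
  grp d hd := ⟨fun g h hg hh => by
      rw [eq_one_of_mem_P hF hM hd hg, eq_one_of_mem_P hF hM hd hh, mul_one]; exact one_mem_P _ _,
    fun g hg => by rw [eq_one_of_mem_P hF hM hd hg, inv_one]; exact one_mem_P _ _⟩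
  comm d e hd he g u hg hu := by
    rw [eq_one_of_mem_P hF hM hd hg, commutatorElement_one_left]; exact one_mem_P _ _

theorem pall_step {M : ℕ} (hM : F M = ⊥) {D : ℕ} (H : PAll F (D + 1)) : PAll F D := by
  -- Step 1: commutators with elements of `P D`
  have step1 : ∀ k e, D + 1 ≤ e → M ≤ e + k → ∀ g u : ℕ → G, g ∈ P F D → u ∈ P F e →
      ⁅g, u⁆ ∈ P F (D + e) := by
    intro k
    induction k with
    | zero =>
      intro e he hk g u hg hu
      rw [eq_one_of_mem_P hF hM (by omega) hu, commutatorElement_one_right]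
      exact one_mem_P _ _
    | succ k ih =>
      intro e he hk g u hg hu
      obtain ⟨hg0, hg1⟩ := mem_P_iff.1 hg
      obtain ⟨hu0, hu1⟩ := mem_P_iff.1 hu
      have conjg : ∀ f v, e + 1 ≤ f → v ∈ P F f → g * v * g⁻¹ ∈ P F f := by
        intro f v hf hv
        have h1 := ih f (by omega) (by omega) g v hg hv
        have : g * v * g⁻¹ = ⁅g, v⁆ * v := by simp [commutatorElement_def]
        rw [this]
        exact (H.grp f (by omega)).mul _ _ (P_anti hF (by omega) h1) hv
      rw [mem_P_iff]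
      refine ⟨fun n => hF.comm _ _ _ _ (hg0 n) (hu0 n), ?_⟩
      rw [dif_comm]
      have G1 := H.grp (D + e + 1) (by omega)
      apply PAll.conj hF H (d := e) (by omega) (by omega) hu
      apply G1.mul _ _ (G1.mul _ _ _ _)
      · exact ih (e + 1) (by omega) (by omega) g _ hg hu1
      · apply conjg _ _ (by omega)
        exact P_anti hF (by omega)
          (H.comm e (D + 1) (by omega) (by omega) _ _ ((H.grp e he).inv _ hu) hg1)
      · apply conjg _ _ (by omega)
        exact P_anti hF (by omega) (H.comm (D + 1) (e + 1) (by omega) (by omega) _ _ hg1 hu1)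
  have step1' : ∀ e, D + 1 ≤ e → ∀ g u : ℕ → G, g ∈ P F D → u ∈ P F e →
      ⁅g, u⁆ ∈ P F (D + e) := fun e he => step1 M e he (by omega)
  have conjg : ∀ g f v, g ∈ P F D → D + 1 ≤ f → v ∈ P F f → g * v * g⁻¹ ∈ P F f := by
    intro g f v hg hf hv
    have h1 := step1' f hf g v hg hv
    have : g * v * g⁻¹ = ⁅g, v⁆ * v := by simp [commutatorElement_def]
    rw [this]
    exact (H.grp f hf).mul _ _ (P_anti hF (by omega) h1) hv
  -- Step 2: conjugation by inverses
  have step2 : ∀ k f, D + 1 ≤ f → M ≤ f + k → ∀ g v : ℕ → G, g ∈ P F D → v ∈ P F f →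
      g⁻¹ * v * g ∈ P F f := by
    intro k
    induction k with
    | zero =>
      intro f hf hk g v hg hv
      rw [eq_one_of_mem_P hF hM (by omega) hv]
      simpa using one_mem_P F f
    | succ k ih =>
      intro f hf hk g v hg hv
      obtain ⟨hg0, hg1⟩ := mem_P_iff.1 hg
      obtain ⟨hv0, hv1⟩ := mem_P_iff.1 hv
      rw [mem_P_iff]
      refine ⟨fun n => ?_, ?_⟩
      · have := hF.conj (inv_mem (hg0 n)) (hv0 n)
        simpa using this
      · rw [dif_conj_inv]
        have hγ : g * dif g * g⁻¹ ∈ P F (D + 1) := conjg g (D + 1) _ hg le_rfl hg1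
        apply ih (f + 1) (by omega) (by omega) g _ hg
        apply (H.grp (f + 1) (by omega)).mul
        · exact P_anti hF (by omega) (H.comm f (D + 1) hf le_rfl _ _ ((H.grp f hf).inv _ hv)
            ((H.grp (D + 1) le_rfl).inv _ hγ))
        · exact PAll.conj' hF H (d := D + 1) le_rfl (by omega) hγ hv1
  have step2' : ∀ g f v, g ∈ P F D → D + 1 ≤ f → v ∈ P F f → g⁻¹ * v * g ∈ P F f :=
    fun g f v hg hf hv => step2 M f hf (by omega) g v hg hv
  -- Step 3: `P D` is a group
  have step3 : PGrp F D := by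
    refine ⟨fun g h hg hh => ?_, fun g hg => ?_⟩
    · obtain ⟨hg0, hg1⟩ := mem_P_iff.1 hg
      obtain ⟨hh0, hh1⟩ := mem_P_iff.1 hh
      rw [mem_P_iff]
      refine ⟨fun n => mul_mem (hg0 n) (hh0 n), ?_⟩
      rw [dif_mul]
      exact (H.grp _ le_rfl).mul _ _ (step2' h _ _ hh le_rfl hg1) hh1
    · obtain ⟨hg0, hg1⟩ := mem_P_iff.1 hg
      rw [mem_P_iff]
      refine ⟨fun n => inv_mem (hg0 n), ?_⟩
      rw [dif_inv]
      exact conjg g _ _ hg le_rfl ((H.grp _ le_rfl).inv _ hg1)
  have step4 : ∀ g u : ℕ → G, g ∈ P F D → u ∈ P F D → ⁅g, u⁆ ∈ P F (D + D) := by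
    intro g u hg hu
    obtain ⟨hg0, hg1⟩ := mem_P_iff.1 hg
    obtain ⟨hu0, hu1⟩ := mem_P_iff.1 hu
    rw [mem_P_iff]
    refine ⟨fun n => hF.comm _ _ _ _ (hg0 n) (hu0 n), ?_⟩
    rw [dif_comm]
    have G1 := H.grp (D + D + 1) (by omega)
    apply conjg u _ _ hu (by omega)
    apply G1.mul _ _ (G1.mul _ _ _ _)
    · exact step1' (D + 1) (by omega) g _ hg hu1
    · apply conjg _ _ _ hg (by omega)
      exact step1' (D + 1) (by omega) _ _ (step3.inv _ hu) hg1
    · apply conjg _ _ _ hg (by omega)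
      exact P_anti hF (by omega) (H.comm (D + 1) (D + 1) (by omega) (by omega) _ _ hg1 hu1)
  refine ⟨fun d hd => ?_, fun d e hd he g u hg hu => ?_⟩
  · rcases Nat.eq_or_lt_of_le hd with h | h
    · subst h; exact step3
    · exact H.grp d h
  · rcases Nat.eq_or_lt_of_le hd with h | h
    · subst h
      rcases Nat.eq_or_lt_of_le he with h' | h'
      · subst h'; exact step4 g u hg hu
      · exact step1' e h' g u hg hu
    · rcases Nat.eq_or_lt_of_le he with h' | h'
      · subst h'
        have := step1' d h u g hu hg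
        rw [← commutatorElement_inv, show d + D = D + d by ring]
        exact (H.grp _ (by omega)).inv _ this
      · exact H.comm d e h h' g u hg hu

/-- **Lazard–Leibman theorem**: the polynomial sequences form a group. -/
theorem pall {M : ℕ} (hM : F M = ⊥) : PAll F 0 := by
  have : ∀ k D, M ≤ D + k → PAll F D := by
    intro k
    induction k with
    | zero =>
      intro D hD
      have h0 : F D = ⊥ := by
        rw [eq_bot_iff, ← hM]; exact hF.le (by omega)
      exact pall_base hF h0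
    | succ k ih =>
      intro D hD
      exact pall_step hF hM (ih (D + 1) (by omega))
  exact this M 0 (by omega)

end

/-- the subgroups of polynomial sequences -/
def PS (F : ℕ → Subgroup G) (h : PAll F 0) (d : ℕ) : Subgroup (ℕ → G) where
  carrier := P F d
  mul_mem' := fun {a b} ha hb => (h.grp d (Nat.zero_le d)).mul a b ha hb
  one_mem' := one_mem_P F d
  inv_mem' := fun {a} ha => (h.grp d (Nat.zero_le d)).inv a ha

theorem mem_PS {F : ℕ → Subgroup G} {h : PAll F 0} {d : ℕ} {g : ℕ → G} :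
    g ∈ PS F h d ↔ g ∈ P F d := Iff.rfl

theorem fil_PS {F : ℕ → Subgroup G} (hF : Fil F) (h : PAll F 0) : Fil (PS F h) where
  anti := fun i _ hg => P_anti hF (Nat.le_succ i) hg
  comm := fun i j g u hg hu => h.comm i j (Nat.zero_le _) (Nat.zero_le _) g u hg hu

theorem PS_bot {F : ℕ → Subgroup G} (hF : Fil F) (h : PAll F 0) {M : ℕ} (hM : F M = ⊥) :
    PS F h M = ⊥ := by
  rw [eq_bot_iff]
  intro g hg
  exact eq_one_of_mem_P hF hM le_rfl hg

/-- Binomial sequences `n ↦ a ^ (n choose j)`. -/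
def bs (a : G) (j : ℕ) : ℕ → G := fun n => a ^ n.choose j

theorem dif_bs_succ (a : G) (j : ℕ) : dif (bs a (j + 1)) = bs a j := by
  funext n
  simp only [dif, bs]
  have : (n + 1).choose (j + 1) = n.choose (j + 1) + n.choose j := by
    rw [Nat.choose_succ_succ', Nat.add_comm]
  rw [this, pow_add, inv_mul_cancel_left]

theorem dif_bs_zero (a : G) : dif (bs a 0) = 1 := by
  funext n; simp [dif, bs]

theorem bs_mem {F : ℕ → Subgroup G} (hF : Fil F) {d j : ℕ} {a : G} (ha : a ∈ F (d + j)) :
    bs a j ∈ P F d := by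
  induction j generalizing d with
  | zero =>
    rw [mem_P_iff, dif_bs_zero]
    exact ⟨fun n => pow_mem ha _, one_mem_P _ _⟩
  | succ j ih =>
    rw [mem_P_iff, dif_bs_succ]
    exact ⟨fun n => pow_mem (hF.le (by omega) ha) _,
      ih (by rwa [show d + 1 + j = d + (j + 1) by ring])⟩

theorem dif_iter_eq (g : ℕ → G) (j n : ℕ) (h : ∀ i < n + j, g i = 1) :
    (dif^[j] g) n = g (n + j) := by
  induction j generalizing g with
  | zero => rfl
  | succ j ih =>
    rw [Function.iterate_succ_apply, ih (dif g)]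
    · simp only [dif]
      rw [h (n + j) (by omega), inv_one, one_mul, add_assoc]
    · intro i hi
      simp only [dif]
      rw [h i (by omega), h (i + 1) (by omega), inv_one, one_mul]

/-- a polynomial sequence which is trivial at `0, …, M - 1` is trivial -/
theorem eq_one_of_vanish {F : ℕ → Subgroup G} {M d : ℕ} (hM : ∀ e, M ≤ e → F (d + e) = ⊥)
    {g : ℕ → G} (hg : g ∈ P F d) (h : ∀ i < M, g i = 1) : g = 1 := by
  funext n
  induction n using Nat.strong_induction_on with
  | _ n ih =>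
    rcases Nat.lt_or_ge n M with hn | hn
    · exact h n hn
    · have h1 := dif_iter_eq g n 0 (fun i hi => ih i (by omega))
      rw [zero_add] at h1
      have h2 := hg n 0
      rw [hM n hn, Subgroup.mem_bot, h1] at h2
      exact h2

end Run7.h676.PF
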