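import Pool.Agent.Run7.h676.PolyT
import Pool.Agent.Run7.h676.Eight

/-!
# In exponent `p ^ (k + 1)` and class less than `2 * p` the `p ^ k`-th powers commute
-/

set_option autoImplicit false

namespace Run7.h676.PF

open scoped commutatorElement

universe u

/-- the indexed lower central series, starting with `⊤, ⊤, …` -/
def Gam (K : Type u) [Group K] : ℕ → Subgroup K
  | 0 => ⊤
  | w + 1 => L K w

theorem fil_Gam (K : Type u) [Group K] : Fil (Gam K) where
  anti := fun i => by
    cases i with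
    | zero => exact le_top
    | succ i => exact fun a ha => L_le (Nat.le_succ i) ha
  comm := fun i j g h hg hh => by
    cases i with
    | zero =>
      rw [zero_add]
      cases j with
      | zero => exact Subgroup.mem_top _
      | succ j =>
        have e : ⁅g, h⁆ = g * h * g⁻¹ * h⁻¹ := commutatorElement_def g h
        rw [e]
        exact mul_mem (conj_lcs _ j g (Subgroup.mem_top g) h hh) (inv_mem hh)
    | succ i =>
      cases j with
      | zero =>
        have e : ⁅g, h⁆ = g * (h * g⁻¹ * h⁻¹) := by rw [commutatorElement_def]; group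
        rw [e]
        exact mul_mem hg (conj_lcs _ i h (Subgroup.mem_top h) _ (inv_mem hg))
      | succ j =>
        have e : i + 1 + (j + 1) = (i + j + 1) + 1 := by ring
        rw [e]
        exact comm_lcs _ j i (Subgroup.commutator_mem_commutator hg hh)

theorem mem_Gam {K : Type u} [Group K] (w : ℕ) {a : K} : a ∈ Gam K (w + 1) ↔ a ∈ L K w := Iff.rfl

section unique

variable {G : Type u} [Group G]

theorem uniq {c : ℕ → G} {e M : ℕ}
    (h : ∀ m : ℕ, pr (fun j => c j ^ (e * m.choose (j + 1))) M = 1) : ∀ j < M, c j ^ e = 1 := by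
  intro j
  induction j using Nat.strong_induction_on with
  | _ j ih =>
    intro hj
    have h1 := h (j + 1)
    rw [pr_single hj] at h1
    · rw [Nat.choose_self, mul_one] at h1
      exact h1
    · intro i hi hne
      rcases Nat.lt_or_ge i j with h2 | h2
      · rw [pow_mul, ih i h2 hi, one_pow]
      · rw [Nat.choose_eq_zero_of_lt (by omega), mul_zero, pow_zero]

end unique

section arith

variable {p : ℕ} (hp : p.Prime)

include hp

theorem dvd_choose (e : ℕ) {i : ℕ} (hi : ¬ p ∣ i + 1) : p ^ e ∣ (p ^ e).choose (i + 1) := by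
  obtain ⟨N, hN⟩ : ∃ N, p ^ e = N + 1 := Nat.exists_eq_add_of_le' (Nat.one_le_pow _ _ hp.pos)
  have h := Nat.add_one_mul_choose_eq N i
  rw [← hN] at h
  exact (Nat.Coprime.pow_left e ((Nat.Prime.coprime_iff_not_dvd hp).2 hi)).dvd_of_dvd_mul_right
    (Dvd.intro _ h)

theorem choose_p (k : ℕ) : ∃ v, (p ^ (k + 1)).choose p = p ^ k * v ∧ ¬ p ∣ v := by
  have : Fact p.Prime := ⟨hp⟩
  obtain ⟨N, hN⟩ : ∃ N, p ^ (k + 1) = N + 1 :=
    Nat.exists_eq_add_of_le' (Nat.one_le_pow _ _ hp.pos)
  obtain ⟨r, hr⟩ : ∃ r, p = r + 1 := Nat.exists_eq_add_of_le' hp.one_le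
  refine ⟨N.choose r, ?_, ?_⟩
  · have h := Nat.add_one_mul_choose_eq N r
    rw [← hN, ← hr, pow_succ, mul_assoc, mul_comm] at h
    rw [pow_succ]
    have h2 : (p ^ k * N.choose r) * p = (p ^ k * p).choose p * p := by
      rw [← h]; ring
    exact (Nat.eq_of_mul_eq_mul_right hp.pos h2).symm
  · intro hd
    have h := Choose.choose_modEq_choose_mod_mul_choose_div_nat (n := N) (k := r) (p := p)
    have hr1 : r % p = r := Nat.mod_eq_of_lt (by omega)
    have hr2 : r / p = 0 := Nat.div_eq_of_lt (by omega)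
    have hN1 : N % p = r := by
      have e : N + 1 = p * p ^ k := by rw [← hN, pow_succ, mul_comm]
      have h3 : 1 ≤ p ^ k := Nat.one_le_pow _ _ hp.pos
      obtain ⟨t, ht⟩ := Nat.exists_eq_add_of_le' h3
      have e2 : N = r + p * t := by
        have : p * p ^ k = p * t + p := by rw [ht]; ring
        omega
      rw [e2, Nat.add_mul_mod_self_left, hr1]
    rw [hr1, hr2, hN1, Nat.choose_self, Nat.choose_zero_right, mul_one] at h
    have h4 : N.choose r ≡ 0 [MOD p] := (Nat.modEq_zero_iff_dvd).2 hd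
    have h5 := (h.symm.trans h4)
    rw [Nat.modEq_zero_iff_dvd] at h5
    exact hp.one_lt.ne' (Nat.dvd_one.1 h5)

theorem kill {G : Type u} [Group G] {c : G} {k v : ℕ} (hv : ¬ p ∣ v) (h1 : c ^ p ^ (k + 1) = 1)
    (h2 : c ^ (p ^ k * v) = 1) : c ^ p ^ k = 1 := by
  have d1 := orderOf_dvd_of_pow_eq_one h1
  have d2 := orderOf_dvd_of_pow_eq_one h2
  rw [pow_succ] at d1
  have d3 := Nat.dvd_gcd d1 d2
  rw [Nat.gcd_mul_left, (Nat.Prime.coprime_iff_not_dvd hp).2 hv, mul_one] at d3
  exact orderOf_dvd_iff_pow_eq_one.1 d3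

omit hp in
theorem pow_one_of_dvd {G : Type u} [Group G] {c : G} {a b : ℕ} (h : c ^ a = 1) (hd : a ∣ b) :
    c ^ b = 1 := by
  obtain ⟨t, rfl⟩ := hd
  rw [pow_mul, h, one_pow]

end arith

/-- In a group of exponent `p ^ (k + 1)`, `k ≥ 1`, and class less than `2 * p` the `p ^ k`-th powers
commute. -/
theorem pow_commute {K : Type u} [Group K] {p : ℕ} (hp : p.Prime) {k : ℕ} (hk : 1 ≤ k)
    (hexp : ∀ g : K, g ^ p ^ (k + 1) = 1) (h : L K (2 * p - 1) = ⊥) (x z : K) :
    ⁅x ^ p ^ k, z ^ p ^ k⁆ = 1 := by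
  have hF := fil_Gam K
  have hp1 := hp.one_le
  have hM : Gam K (2 * p) = ⊥ := by
    obtain ⟨r, hr⟩ : ∃ r, 2 * p = r + 1 := Nat.exists_eq_add_of_le' (by omega)
    rw [hr, Nat.add_sub_cancel] at h
    rw [hr]
    exact h
  have hA := pall hF hM
  have hF2 := fil_PS hF hA
  have hA2 := pall hF2 (PS_bot hF hA hM)
  have hx : bs (bs x 0) 1 ∈ PS (PS (Gam K) hA) hA2 0 :=
    bs_mem hF2 (mem_PS.2 (bs_mem hF (Subgroup.mem_top x)))
  have hz : bs (bs z 1) 0 ∈ PS (PS (Gam K) hA) hA2 0 :=
    bs_mem hF2 (mem_PS.2 (bs_mem hF (Subgroup.mem_top z)))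
  have hT : ⁅bs (bs x 0) 1, bs (bs z 1) 0⁆ ∈ PS (PS (Gam K) hA) hA2 0 := by
    rw [commutatorElement_def]
    exact mul_mem (mul_mem (mul_mem hx hz) (inv_mem hx)) (inv_mem hz)
  have eT : ∀ n m, ⁅bs (bs x 0) 1, bs (bs z 1) 0⁆ n m = ⁅x ^ n, z ^ m⁆ := by
    intro n m
    simp [commutatorElement_def, bs, Pi.mul_apply, Pi.inv_apply, Pi.pow_apply]
  obtain ⟨c, hc, hcT⟩ := taylor2 hF hM hA hT
    (by funext m; rw [eT, pow_zero, commutatorElement_one_left]; rfl)
    (fun n => by rw [eT, pow_zero, commutatorElement_one_right])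
  have hcT' : ∀ n m, ⁅x ^ n, z ^ m⁆ = pr (fun i => pr (fun j =>
      c i j ^ (n.choose (i + 1) * m.choose (j + 1))) (2 * p)) (2 * p) := fun n m => by
    rw [← eT, hcT]
  have triv : ∀ i j, 2 * p ≤ i + 1 + (j + 1) → c i j = 1 := by
    intro i j hij
    have h1 := hF.le hij (hc i j)
    rw [hM] at h1
    exact h1
  have nd : ∀ i, i < 2 * p → i ≠ p - 1 → ¬ p ∣ i + 1 ∨ i + 1 = 2 * p := by
    intro i hi hne
    rcases Decidable.em (p ∣ i + 1) with hd | hd
    · right
      obtain ⟨t, ht⟩ := hd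
      rcases Nat.lt_or_ge t 2 with h2 | h2
      · exfalso
        interval_cases t
        · omega
        · omega
      · have : p * 2 ≤ p * t := Nat.mul_le_mul_left p h2
        omega
    · exact Or.inl hd
  obtain ⟨v, hv, hpv⟩ := choose_p hp k
  have hp2 : p - 1 + 1 = p := by omega
  -- (A)
  have hcA : ∀ j < 2 * p, c (p - 1) j ^ p ^ k = 1 := by
    intro j hj
    refine kill hp hpv (hexp _) ?_
    rw [← hv]
    refine uniq (M := 2 * p) (c := fun j => c (p - 1) j) (fun m => ?_) j hj
    have h1 := hcT' (p ^ (k + 1)) m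
    rw [hexp, commutatorElement_one_left, pr_single (i := p - 1) (by omega)] at h1
    · rw [hp2] at h1
      exact h1.symm
    · intro i hi hne
      refine pr_one _ fun j' _ => ?_
      rcases nd i hi hne with h2 | h2
      · exact pow_one_of_dvd (hexp _) (Dvd.dvd.mul_right (dvd_choose hp (k + 1) h2) _)
      · rw [triv i j' (by omega), one_pow]
  -- (B)
  have hcB : ∀ i < 2 * p, c i (p - 1) ^ p ^ k = 1 := by
    intro i hi
    refine kill hp hpv (hexp _) ?_
    rw [← hv]
    refine uniq (M := 2 * p) (c := fun i => c i (p - 1)) (fun n => ?_) i hi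
    have h1 := hcT' n (p ^ (k + 1))
    rw [hexp z, commutatorElement_one_right] at h1
    rw [h1]
    refine pr_congr _ fun i' _ => ?_
    rw [pr_single (i := p - 1) (by omega)]
    · rw [hp2, mul_comm]
    · intro j hj hne
      rcases nd j hj hne with h2 | h2
      · exact pow_one_of_dvd (hexp _) (Dvd.dvd.mul_left (dvd_choose hp (k + 1) h2) _)
      · rw [triv i' j (by omega), one_pow]
  -- (C)
  rw [hcT']
  refine pr_one _ fun i hi => pr_one _ fun j hj => ?_
  rcases Decidable.em (i = p - 1) with hi1 | hi1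
  · rcases Decidable.em (j = p - 1) with hj1 | hj1
    · rw [triv i j (by omega), one_pow]
    · rcases nd j hj hj1 with h2 | h2
      · rw [hi1]
        exact pow_one_of_dvd (hcA j hj) (Dvd.dvd.mul_left (dvd_choose hp k h2) _)
      · rw [triv i j (by omega), one_pow]
  · rcases nd i hi hi1 with h2 | h2
    · rcases Decidable.em (j = p - 1) with hj1 | hj1
      · rw [hj1]
        exact pow_one_of_dvd (hcB i hi) (Dvd.dvd.mul_right (dvd_choose hp k h2) _)
      · rcases nd j hj hj1 with h3 | h3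
        · refine pow_one_of_dvd (hexp _) ((pow_dvd_pow p (by omega : k + 1 ≤ k + k)).trans ?_)
          rw [pow_add]
          exact mul_dvd_mul (dvd_choose hp k h2) (dvd_choose hp k h3)
        · rw [triv i j (by omega), one_pow]
    · rw [triv i j (by omega), one_pow]

end Run7.h676.PF
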