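import Pool.Agent.Run7.h676.Star

/-!
# Elements `z` of finite order such that `[z, z ^ y]` commutes with `y`

The case of elements of arbitrary finite order of the results of `Star.lean`.
-/

set_option autoImplicit false

namespace Run7.h676

universe u

variable {G : Type u} [Group G]

/-- conjugation by `b` preserves the centralizer of `a` -/
def Pres (a b : G) : Prop := ∀ h : G, Commute h a → Commute (b * h * b⁻¹) a

theorem Pres.one (a : G) : Pres a 1 := fun h hh => by simpa using hh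

theorem Pres.mul {a b c : G} (hb : Pres a b) (hc : Pres a c) : Pres a (b * c) := by
  intro h hh
  have h1 := hb _ (hc h hh)
  have e : b * (c * h * c⁻¹) * b⁻¹ = b * c * h * (b * c)⁻¹ := by group
  rwa [e] at h1

theorem Pres.pow {a b : G} (hb : Pres a b) (n : ℕ) : Pres a (b ^ n) := by
  induction n with
  | zero => rw [pow_zero]; exact Pres.one a
  | succ n ih => rw [pow_succ]; exact ih.mul hb

theorem Star.pres {z : G} (hz : Star z) (g b : G) (hb : b ∈ Group.conjugatesOfSet {z}) :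
    Pres (g⁻¹ * z * g) b := by
  intro h hh
  rw [Group.mem_conjugatesOfSet_iff] at hb
  obtain ⟨a, ha, hab⟩ := hb
  rw [Set.mem_singleton_iff] at ha
  subst ha
  rw [isConj_iff] at hab
  obtain ⟨c, rfl⟩ := hab
  have h3 := (hz.conj g).cent' (g⁻¹ * c⁻¹) h hh
  have e : (g⁻¹ * c⁻¹)⁻¹ * (g⁻¹ * a * g) * (g⁻¹ * c⁻¹) = c * a * c⁻¹ := by group
  rw [e] at h3
  exact h3

/-- the elements of the normal closure preserve the centralizers of the conjugates -/
theorem Star.presN {z : G} (hz : Star z) (ht : ∀ g : G, ∃ n : ℕ, 0 < n ∧ g ^ n = 1) (g n : G)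
    (hn : n ∈ Subgroup.normalClosure {z}) :
    Pres (g⁻¹ * z * g) n ∧ Pres (g⁻¹ * z * g) n⁻¹ := by
  unfold Subgroup.normalClosure at hn
  induction hn using Subgroup.closure_induction with
  | mem b hb =>
    refine ⟨hz.pres g b hb, ?_⟩
    obtain ⟨k, hk, hbk⟩ := ht b
    have e : b⁻¹ = b ^ (k - 1) := by
      rw [inv_eq_iff_mul_eq_one, ← pow_succ', Nat.sub_add_cancel hk, hbk]
    rw [e]
    exact (hz.pres g b hb).pow _
  | one => exact ⟨Pres.one _, by rw [inv_one]; exact Pres.one _⟩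
  | mul a b _ _ iha ihb => exact ⟨iha.1.mul ihb.1, by rw [mul_inv_rev]; exact ihb.2.mul iha.2⟩
  | inv a _ iha => exact ⟨iha.2, by rw [inv_inv]; exact iha.1⟩

theorem Star.commT {z : G} (hz : Star z) (ht : ∀ g : G, ∃ n : ℕ, 0 < n ∧ g ^ n = 1) (g n : G)
    (hn : n ∈ Subgroup.normalClosure {z}) :
    Commute (n * (g⁻¹ * z * g) * n⁻¹) (g⁻¹ * z * g) :=
  (hz.presN ht g n hn).1 _ (Commute.refl _)

/-- The normal closure of `z` is locally finite. -/
theorem starLFT {z : G} (hz : Star z) (ht : ∀ g : G, ∃ n : ℕ, 0 < n ∧ g ^ n = 1) :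
    LF (Subgroup.normalClosure {z}) := by
  set N := Subgroup.normalClosure {z} with hN
  have ht' : ∀ g : N, ∃ n : ℕ, 0 < n ∧ g ^ n = 1 := by
    intro g
    obtain ⟨n, hn, h⟩ := ht g
    exact ⟨n, hn, Subtype.ext (by rw [Subgroup.coe_pow, h]; rfl)⟩
  have key : ∀ b : G, b ∈ Group.conjugatesOfSet {z} → b ∈ (rad N).map N.subtype := by
    intro b hb
    have hbN : b ∈ N := Subgroup.conjugatesOfSet_subset_normalClosure hb
    rw [Group.mem_conjugatesOfSet_iff] at hb
    obtain ⟨a, ha, hab⟩ := hb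
    rw [Set.mem_singleton_iff] at ha
    subst ha
    rw [isConj_iff] at hab
    obtain ⟨c, hc⟩ := hab
    have hb : b = c⁻¹⁻¹ * a * c⁻¹ := by rw [← hc]; group
    refine ⟨⟨b, hbN⟩, ?_, rfl⟩
    have hle : Subgroup.normalClosure {(⟨b, hbN⟩ : N)} ≤ rad N := by
      refine le_rad Subgroup.normalClosure_normal ?_
      refine LF_of_comm _ ?_ ht'
      intro x hx y hy
      rw [Group.mem_conjugatesOfSet_iff] at hx hy
      obtain ⟨x', hx', hx''⟩ := hx
      obtain ⟨y', hy', hy''⟩ := hy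
      rw [Set.mem_singleton_iff] at hx' hy'
      subst hx' hy'
      rw [isConj_iff] at hx'' hy''
      obtain ⟨n, rfl⟩ := hx''
      obtain ⟨m, rfl⟩ := hy''
      have h3 := hz.commT ht c⁻¹ ((m⁻¹ * n : N) : G) (m⁻¹ * n : N).2
      rw [← hb] at h3
      apply Subtype.ext
      have h4 : ((m : G)⁻¹ * n * b * ((m : G)⁻¹ * n)⁻¹) * b =
        b * ((m : G)⁻¹ * n * b * ((m : G)⁻¹ * n)⁻¹) := h3
      change (n : G) * b * (n : G)⁻¹ * ((m : G) * b * (m : G)⁻¹) =
        (m : G) * b * (m : G)⁻¹ * ((n : G) * b * (n : G)⁻¹)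
      calc (n : G) * b * (n : G)⁻¹ * ((m : G) * b * (m : G)⁻¹) =
          m * (((m : G)⁻¹ * n * b * ((m : G)⁻¹ * n)⁻¹) * b) * (m : G)⁻¹ := by group
        _ = m * (b * ((m : G)⁻¹ * n * b * ((m : G)⁻¹ * n)⁻¹)) * (m : G)⁻¹ := by rw [h4]
        _ = _ := by group
    exact hle (Subgroup.subset_normalClosure (Set.mem_singleton _))
  have hle : N ≤ (rad N).map N.subtype := by
    rw [hN]
    unfold Subgroup.normalClosure
    rw [Subgroup.closure_le]
    intro b hb
    exact key b hb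
  exact (rad_LF.map N.subtype).mono hle

/-- A periodic group in which `[x ^ n, (x ^ n) ^ y]` commutes with `y` is locally finite, if the
groups of exponent dividing `n` are locally finite. -/
theorem law_LF (n : ℕ) (hn : ∀ (Q : Type u) [Group Q], (∀ g : Q, g ^ n = 1) → LF (⊤ : Subgroup Q))
    (ht : ∀ g : G, ∃ n : ℕ, 0 < n ∧ g ^ n = 1)
    (h : ∀ x y : G, Commute (cm (x ^ n) (y⁻¹ * x ^ n * y)) y) : LF (⊤ : Subgroup G) := by
  refine LF_top_of_quot ?_
  have ht' : ∀ g : G ⧸ rad G, ∃ n : ℕ, 0 < n ∧ g ^ n = 1 := by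
    intro g
    obtain ⟨g, rfl⟩ := QuotientGroup.mk_surjective g
    obtain ⟨k, hk0, hk⟩ := ht g
    exact ⟨k, hk0, by rw [← QuotientGroup.mk_pow, hk]; rfl⟩
  have hs : ∀ x : G ⧸ rad G, Star (x ^ n) := by
    intro x y
    obtain ⟨x, rfl⟩ := QuotientGroup.mk_surjective x
    obtain ⟨y, rfl⟩ := QuotientGroup.mk_surjective y
    have h1 := h x y
    have h2 : (QuotientGroup.mk' (rad G)) (cm (x ^ n) (y⁻¹ * x ^ n * y) * y) =
        (QuotientGroup.mk' (rad G)) (y * cm (x ^ n) (y⁻¹ * x ^ n * y)) := by rw [h1.eq]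
    exact h2
  have he : ∀ x : G ⧸ rad G, x ^ n = 1 := by
    intro x
    have h1 := rad_quot _ Subgroup.normalClosure_normal (starLFT (hs x) ht')
    have h3 : x ^ n ∈ Subgroup.normalClosure {x ^ n} :=
      Subgroup.subset_normalClosure (Set.mem_singleton _)
    rw [h1] at h3
    exact Subgroup.mem_bot.1 h3
  have h1 := rad_quot _ inferInstance (hn _ he)
  intro q
  have h3 : q ∈ (⊤ : Subgroup (G ⧸ rad G)) := Subgroup.mem_top q
  rw [h1] at h3
  exact Subgroup.mem_bot.1 h3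

end Run7.h676
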