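import Pool.Agent.Run7.h676.SSf
import Pool.Agent.Run7.h676.StarT
import Pool.Agent.Run7.h676.Main

/-!
# Periodic groups with subgroups of bounded class
-/

set_option autoImplicit false

namespace Run7.h676.SS

open scoped commutatorElement

universe u

variable {G : Type u} [Group G]

/-- the subgroups generated by `m + 1` elements have class at most `c` -/
def Cls (G : Type u) [Group G] (m c : ℕ) : Prop :=
  ∀ (x : G) (l : List G), l.length = m →
    (Subgroup.closure ({x} ∪ {y | y ∈ l})).lowerCentralSeries c = ⊥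

theorem Cls.map {m c : ℕ} (h : Cls G m c) {K : Type u} [Group K] (f : G →* K)
    (hf : Function.Surjective f) : Cls K m c := by
  intro x l hl
  obtain ⟨x, rfl⟩ := hf x
  obtain ⟨l', rfl⟩ : ∃ l' : List G, l'.map f = l := by
    clear hl
    induction l with
    | nil => exact ⟨[], rfl⟩
    | cons y l ih =>
      obtain ⟨l', rfl⟩ := ih
      obtain ⟨y, rfl⟩ := hf y
      exact ⟨y :: l', rfl⟩
  rw [List.length_map] at hl
  have e : Subgroup.closure ({f x} ∪ {y | y ∈ l'.map f}) =
      (Subgroup.closure ({x} ∪ {y | y ∈ l'})).map f := by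
    rw [MonoidHom.map_closure, Set.image_union, Set.image_singleton]
    congr 2
    ext y
    simp
  rw [e, ← Subgroup.map_lowerCentralSeries, h x l' hl, Subgroup.map_bot]

/-- the class bounds for exponent `3 ^ k` -/
def c3 (m : ℕ) : ℕ := (7 * 3 ^ m - 3) / 2

theorem c3_one : c3 1 = 9 := by norm_num [c3]

theorem c3_succ (m : ℕ) (hm : 1 ≤ m) : c3 (m + 1) = 3 * c3 m + 3 := by
  unfold c3
  have h1 : 3 ≤ 3 ^ m := by
    calc 3 = 3 ^ 1 := by norm_num
      _ ≤ 3 ^ m := Nat.pow_le_pow_right (by norm_num) hm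
  have h2 : ∃ t, 3 ^ m = 2 * t + 1 := by
    have : Odd (3 ^ m) := Odd.pow (by decide)
    exact this
  obtain ⟨t, ht⟩ := h2
  rw [pow_succ, ht]
  omega

/-- the class bounds for exponent `2 ^ k` -/
def c2 (m : ℕ) : ℕ := 10 * 2 ^ (m - 1) - 1

theorem W_L {x : G} {S : Subgroup G} (hx : ∀ y ∈ S, W x [y] ∈ S.lowerCentralSeries 9) :
    ∀ l : List G, 1 ≤ l.length → (∀ y ∈ l, y ∈ S) → W x l ∈ S.lowerCentralSeries (c3 l.length) := by
  intro l
  induction l with
  | nil => intro h; simp at h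
  | cons y l ih =>
    intro _ hl
    rcases Nat.eq_zero_or_pos l.length with h0 | h0
    · have : l = [] := List.length_eq_zero_iff.1 h0
      subst this
      rw [List.length_cons, List.length_nil, zero_add, c3_one]
      exact hx y (hl y (by simp))
    · have ih' := ih h0 fun z hz => hl z (by simp [hz])
      have hy : y ∈ S := hl y (by simp)
      rw [W_cons, List.length_cons, c3_succ _ h0]
      generalize W x l = c at ih'
      have e : ⁅c, cj y c⁆ = ⁅c, ⁅y, c⁆⁆ := by
        rw [commutatorElement_def, commutatorElement_def, commutatorElement_def]; unfold cj; group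
      have h1 : ⁅y, c⁆ ∈ S.lowerCentralSeries (c3 l.length + 1) := by
        rw [← commutatorElement_inv]
        exact inv_mem (Subgroup.commutator_mem_commutator ih' hy)
      have h2 := comm_lcs S _ _ (Subgroup.commutator_mem_commutator ih' h1)
      have h3 := comm_lcs S _ _ (Subgroup.commutator_mem_commutator h2 ih')
      rw [e]
      have e2 : 3 * c3 l.length + 3 = c3 l.length + (c3 l.length + 1) + 1 + c3 l.length + 1 := by
        ring
      rw [e2]
      exact h3

/-- the group version of `c_mem` -/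
theorem W_one (S : Subgroup G) (k : ℕ) (hk : 1 ≤ k) (hexp : ∀ g : G, g ^ 3 ^ (k + 1) = 1) {x : G}
    (hx : x ∈ S) : ∀ y ∈ S, W (x ^ 3 ^ k) [y] ∈ S.lowerCentralSeries 9 := by
  intro y hy
  have h := c_mem (K := S) k hk (fun g => Subtype.ext (by rw [Subgroup.coe_pow, hexp]; rfl))
    ⟨x, hx⟩ ⟨y, hy⟩
  have h1 : S.subtype (W ((⟨x, hx⟩ : S) ^ 3 ^ k) [⟨y, hy⟩]) ∈
      (L S 9).map S.subtype := ⟨_, h, rfl⟩
  rw [W_map, map_pow] at h1
  rw [Subgroup.top_subtype_lowerCentralSeries] at h1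
  exact h1

theorem descent_three (hr : ∀ a : G, E3 a → a = 1) (m : ℕ) (hm : 1 ≤ m) (hc : Cls G m (c3 m)) (k : ℕ)
    (hexp : ∀ g : G, g ^ 3 ^ (k + 1) = 1) : ∀ g : G, g ^ 3 ^ k = 1 := by
  intro x
  rcases Nat.eq_zero_or_pos k with h0 | h0
  · subst h0
    rw [pow_zero, pow_one]
    refine hr _ fun y => ?_
    have h := exp_three (by simpa using hexp) x y⁻¹
    have h2 : Commute x (cj y x) := by
      have e : (y⁻¹)⁻¹ * x * y⁻¹ = cj y x := by unfold cj; group
      rw [e] at h; exact h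
    rw [commutatorElement_eq_one_iff_commute.2 h2]
    exact Commute.one_left x
  · refine W_desc hr _ m fun l hl => ?_
    have hS := hc x l hl
    have h1 := W_one (Subgroup.closure ({x} ∪ {y | y ∈ l})) k h0 hexp (x := x)
      (Subgroup.subset_closure (by simp))
    have h2 := W_L h1 l (by omega) (fun y hy => Subgroup.subset_closure (by simp [hy]))
    rw [hl, hS] at h2
    exact Subgroup.mem_bot.1 h2

omit [Group G] in
theorem exists_list (y : G) (m : ℕ) (hm : 1 ≤ m) : ∃ l : List G, l.length = m ∧ y ∈ l :=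
  ⟨List.replicate m y, List.length_replicate, by
    rw [List.mem_replicate]; exact ⟨by omega, rfl⟩⟩

/-- bounding the exponent -/
theorem bounded_three (hr : ∀ a : G, E3 a → a = 1) (m : ℕ) (hm : 1 ≤ m) (c : ℕ) (hc : Cls G m c)
    (j : ℕ) : ∀ g : G, g ^ 3 ^ j = 1 → g ^ 3 ^ c = 1 := by
  induction j with
  | zero =>
    intro g hg
    rw [pow_zero, pow_one] at hg
    rw [hg, one_pow]
  | succ j ih =>
    intro x hx
    rcases Nat.lt_or_ge j c with h | h
    · obtain ⟨d, hd⟩ := Nat.exists_eq_add_of_lt h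
      have e : c = (j + 1) + d := by omega
      have e2 : (3 : ℕ) ^ c = 3 ^ (j + 1) * 3 ^ d := by rw [← pow_add, ← e]
      rw [e2, pow_mul, hx, one_pow]
    · refine ih x (hr _ fun y => ?_)
      obtain ⟨l, hl, hyl⟩ := exists_list y⁻¹ m hm
      have hxm : x ∈ Subgroup.closure ({x} ∪ {y | y ∈ l}) := Subgroup.subset_closure (by simp)
      have hym : y⁻¹ ∈ Subgroup.closure ({x} ∪ {y | y ∈ l}) :=
        Subgroup.subset_closure (by simp [hyl])
      have hz : (x ^ 3 ^ j) ^ 3 = 1 := by rw [← pow_mul, ← pow_succ, hx]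
      have h1 := crude3 (S := Subgroup.closure ({x} ∪ {y | y ∈ l})) hxm
        (mul_mem (mul_mem (inv_mem hym) (Subgroup.pow_mem _ hxm (3 ^ j))) hym)
        (conj_cube hz) j
      have h2 : (Subgroup.closure ({x} ∪ {y | y ∈ l})).lowerCentralSeries (j + 1) = ⊥ :=
        eq_bot_iff.2 ((Subgroup.lowerCentralSeries_antitone _ (by omega : c ≤ j + 1)).trans
          (hc x l hl).le)
      rw [h2, Subgroup.mem_bot, commutatorElement_eq_one_iff_mul_comm] at h1
      have e : (y⁻¹)⁻¹ * x ^ 3 ^ j * y⁻¹ = cj y (x ^ 3 ^ j) := by unfold cj; group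
      rw [e] at h1
      rw [commutatorElement_eq_one_iff_mul_comm.2 h1]
      exact Commute.one_left _

/-- 3-groups in which the subgroups generated by `m + 1` elements have class at most `c3 m` are
locally finite. -/
theorem LF_three (m : ℕ) (hm : 1 ≤ m) (hc : Cls G m (c3 m)) (h3 : ∀ g : G, ∃ k : ℕ, g ^ 3 ^ k = 1) :
    LF (⊤ : Subgroup G) := by
  have ho : OddPer G := by
    intro g
    obtain ⟨k, hk⟩ := h3 g
    exact ⟨3 ^ k, Odd.pow (by decide), hk⟩
  have hr := rad_E3 ho
  have hc' : Cls (G ⧸ rad G) m (c3 m) := hc.map _ (QuotientGroup.mk'_surjective (rad G))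
  refine LF_top_of_quot ?_
  have h3' : ∀ g : G ⧸ rad G, ∃ k : ℕ, g ^ 3 ^ k = 1 := by
    intro g
    obtain ⟨g, rfl⟩ := QuotientGroup.mk_surjective g
    obtain ⟨k, hk⟩ := h3 g
    exact ⟨k, by rw [← QuotientGroup.mk_pow, hk]; rfl⟩
  have hb : ∀ g : G ⧸ rad G, g ^ 3 ^ (c3 m) = 1 := by
    intro g
    obtain ⟨k, hk⟩ := h3' g
    exact bounded_three hr m hm _ hc' k g hk
  have key : ∀ k : ℕ, (∀ g : G ⧸ rad G, g ^ 3 ^ k = 1) → ∀ g : G ⧸ rad G, g = 1 := by
    intro k
    induction k with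
    | zero => intro h g; simpa using h g
    | succ k ih => intro h; exact ih (descent_three hr m hm hc' k h)
  exact key _ hb

/-- `V x [y_k, …, y_1]` : `v_0 = x`, `v_(j+1) = [v_j, v_j ^ y_(j+1)]` -/
def V (x : G) : List G → G
  | [] => x
  | y :: l => cm (V x l) (y⁻¹ * V x l * y)

theorem V_cons (x y : G) (l : List G) : V x (y :: l) = cm (V x l) (y⁻¹ * V x l * y) := rfl

theorem V_desc (hr : ∀ a : G, Star a → a = 1) (x : G) (k : ℕ)
    (h : ∀ l : List G, l.length = k → ∀ y, Commute (V x (y :: l)) y) : x = 1 := by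
  induction k with
  | zero => exact hr x (h [] rfl)
  | succ k ih =>
    refine ih fun l hl y => ?_
    have : V x (y :: l) = 1 := hr _ (h (y :: l) (by rw [List.length_cons, hl]))
    rw [this]
    exact Commute.one_left y

theorem V_L {x : G} {S : Subgroup G} (hx : ∀ y ∈ S, V x [y] ∈ S.lowerCentralSeries 8) :
    ∀ l : List G, 1 ≤ l.length → (∀ y ∈ l, y ∈ S) →
      V x l ∈ S.lowerCentralSeries (c2 l.length - 1) := by
  intro l
  induction l with
  | nil => intro h; simp at h
  | cons y l ih =>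
    intro _ hl
    rcases Nat.eq_zero_or_pos l.length with h0 | h0
    · have : l = [] := List.length_eq_zero_iff.1 h0
      subst this
      exact hx y (hl y (by simp))
    · have ih' := ih h0 fun z hz => hl z (by simp [hz])
      have hy : y ∈ S := hl y (by simp)
      rw [V_cons, List.length_cons]
      generalize V x l = c at ih'
      have e : cm c (y⁻¹ * c * y) = cm c (cm c y) := by unfold cm; group
      rw [e]
      have h1 : cm c y ∈ S.lowerCentralSeries (c2 l.length - 1 + 1) :=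
        cm_mem ih' (j := 0) hy (by omega)
      refine cm_mem ih' h1 ?_
      unfold c2
      obtain ⟨t, ht⟩ := Nat.exists_eq_add_of_le' h0
      rw [ht]
      have h2 : 1 ≤ 2 ^ t := Nat.one_le_two_pow
      simp only [Nat.add_sub_cancel, pow_succ]
      omega

theorem F2_mem {K : Type u} [Group K] (k : ℕ) (hk : 2 ≤ k) (hexp : ∀ g : K, g ^ 2 ^ (k + 1) = 1)
    (x y : K) : V (x ^ 2 ^ k) [y] ∈ L K 8 := by
  have h := class_eight (H := K ⧸ L K 8) (L_quot 8) k hk (by
    intro g
    obtain ⟨g, rfl⟩ := QuotientGroup.mk_surjective g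
    rw [← QuotientGroup.mk_pow, hexp]; rfl) (QuotientGroup.mk x) (QuotientGroup.mk y)
  rw [← QuotientGroup.eq_one_iff]
  exact cm_eq_one h

theorem V_one (S : Subgroup G) (k : ℕ) (hk : 2 ≤ k) (hexp : ∀ g : G, g ^ 2 ^ (k + 1) = 1) {x : G}
    (hx : x ∈ S) : ∀ y ∈ S, V (x ^ 2 ^ k) [y] ∈ S.lowerCentralSeries 8 := by
  intro y hy
  have h := F2_mem (K := S) k hk (fun g => Subtype.ext (by rw [Subgroup.coe_pow, hexp]; rfl))
    ⟨x, hx⟩ ⟨y, hy⟩
  have h1 : S.subtype (V ((⟨x, hx⟩ : S) ^ 2 ^ k) [⟨y, hy⟩]) ∈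
      (L S 8).map S.subtype := ⟨_, h, rfl⟩
  rw [Subgroup.top_subtype_lowerCentralSeries] at h1
  exact h1

theorem c2_pos (m : ℕ) : c2 m - 1 + 1 = c2 m := by
  unfold c2
  have : 1 ≤ 2 ^ (m - 1) := Nat.one_le_two_pow
  omega

theorem descent_two (hr : ∀ a : G, Star a → a = 1) (m : ℕ) (hm : 1 ≤ m) (hc : Cls G m (c2 m)) (k : ℕ)
    (hk : 2 ≤ k) (hexp : ∀ g : G, g ^ 2 ^ (k + 1) = 1) : ∀ g : G, g ^ 2 ^ k = 1 := by
  intro x
  obtain ⟨n, hn⟩ := Nat.exists_eq_add_of_le' hm
  refine V_desc hr _ n fun l hl y => ?_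
  have hl' : (y :: l).length = m := by rw [List.length_cons, hl, hn]
  have hS := hc x (y :: l) hl'
  have h1 := V_one (Subgroup.closure ({x} ∪ {z | z ∈ y :: l})) k hk hexp (x := x)
    (Subgroup.subset_closure (by simp))
  have hy : y ∈ Subgroup.closure ({x} ∪ {z | z ∈ y :: l}) := Subgroup.subset_closure (by simp)
  have h2 := V_L h1 (y :: l) (by rw [hl']; exact hm)
    (fun z hz => Subgroup.subset_closure (Or.inr hz))
  rw [hl'] at h2
  exact comm_of_mem (j := 0) hS h2 hy (by rw [add_zero, c2_pos])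

theorem bounded_two (hr : ∀ a : G, Star a → a = 1) (m : ℕ) (hm : 1 ≤ m) (c : ℕ) (hc : Cls G m c)
    (j : ℕ) : ∀ g : G, g ^ 2 ^ j = 1 → g ^ 2 ^ c = 1 := by
  induction j with
  | zero =>
    intro g hg
    rw [pow_zero, pow_one] at hg
    rw [hg, one_pow]
  | succ j ih =>
    intro x hx
    rcases Nat.lt_or_ge j c with h | h
    · obtain ⟨d, hd⟩ := Nat.exists_eq_add_of_lt h
      have e : c = (j + 1) + d := by omega
      have e2 : (2 : ℕ) ^ c = 2 ^ (j + 1) * 2 ^ d := by rw [← pow_add, ← e]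
      rw [e2, pow_mul, hx, one_pow]
    · refine ih x (hr _ fun y => ?_)
      obtain ⟨l, hl, hyl⟩ := exists_list y m hm
      have hxm : x ∈ Subgroup.closure ({x} ∪ {y | y ∈ l}) := Subgroup.subset_closure (by simp)
      have hym : y ∈ Subgroup.closure ({x} ∪ {y | y ∈ l}) :=
        Subgroup.subset_closure (by simp [hyl])
      have hz : x ^ 2 ^ j * x ^ 2 ^ j = 1 := by rw [← pow_add, ← two_mul, ← pow_succ', hx]
      have h1 := crude (S := Subgroup.closure ({x} ∪ {y | y ∈ l})) hxm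
        (mul_mem (mul_mem (inv_mem hym) (Subgroup.pow_mem _ hxm (2 ^ j))) hym)
        (conj_sq hz) j
      have h2 : (Subgroup.closure ({x} ∪ {y | y ∈ l})).lowerCentralSeries (j + 1) = ⊥ :=
        eq_bot_iff.2 ((Subgroup.lowerCentralSeries_antitone _ (by omega : c ≤ j + 1)).trans
          (hc x l hl).le)
      rw [h2, Subgroup.mem_bot, commutatorElement_eq_one_iff_mul_comm] at h1
      rw [cm_eq_one h1]
      exact Commute.one_left y

/-- 2-groups in which the subgroups generated by `m + 1` elements have class at most `c2 m` are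
locally finite. -/
theorem LF_two (m : ℕ) (hm : 1 ≤ m) (hc : Cls G m (c2 m)) (h2 : ∀ g : G, ∃ k : ℕ, g ^ 2 ^ k = 1) :
    LF (⊤ : Subgroup G) := by
  refine LF_top_of_quot ?_
  have hc' : Cls (G ⧸ rad G) m (c2 m) := hc.map _ (QuotientGroup.mk'_surjective (rad G))
  have h2' : ∀ g : G ⧸ rad G, ∃ k : ℕ, g ^ 2 ^ k = 1 := by
    intro g
    obtain ⟨g, rfl⟩ := QuotientGroup.mk_surjective g
    obtain ⟨k, hk⟩ := h2 g
    exact ⟨k, by rw [← QuotientGroup.mk_pow, hk]; rfl⟩
  have ht : ∀ g : G ⧸ rad G, ∃ n : ℕ, 0 < n ∧ g ^ n = 1 := by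
    intro g
    obtain ⟨k, hk⟩ := h2' g
    exact ⟨2 ^ k, by positivity, hk⟩
  have hr : ∀ z : G ⧸ rad G, Star z → z = 1 := by
    intro z hz
    have h1 := rad_quot _ Subgroup.normalClosure_normal (starLFT hz ht)
    have h3 : z ∈ Subgroup.normalClosure {z} :=
      Subgroup.subset_normalClosure (Set.mem_singleton z)
    rw [h1] at h3
    exact Subgroup.mem_bot.1 h3
  have hb : ∀ g : G ⧸ rad G, g ^ 2 ^ (c2 m) = 1 := by
    intro g
    obtain ⟨k, hk⟩ := h2' g
    exact bounded_two hr m hm _ hc' k g hk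
  have key : ∀ k : ℕ, (∀ g : G ⧸ rad G, g ^ 2 ^ k = 1) → ∀ g : G ⧸ rad G, g ^ 2 ^ 2 = 1 := by
    intro k
    induction k with
    | zero => intro h g; have := h g; rw [pow_zero, pow_one] at this; rw [this, one_pow]
    | succ k ih =>
      intro h
      rcases Nat.lt_or_ge k 2 with hk | hk
      · intro g
        have e2 : (2 : ℕ) ^ 2 = 2 ^ (k + 1) * 2 ^ (1 - k) := by rw [← pow_add]; congr 1; omega
        rw [e2, pow_mul, h, one_pow]
      · exact ih (descent_two hr m hm hc' k hk h)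
  have hlf : LF (⊤ : Subgroup (G ⧸ rad G)) := fun s _ => H15.Burn.fin4 (key _ hb) s
  have h1 := rad_quot _ inferInstance hlf
  intro q
  have h3 : q ∈ (⊤ : Subgroup (G ⧸ rad G)) := Subgroup.mem_top q
  rw [h1] at h3
  exact Subgroup.mem_bot.1 h3

end Run7.h676.SS
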