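import Pool.Agent.Run7.h676.PolyL
import Pool.Agent.Run7.h676.SSg

/-!
# Exponent `p ^ (k + 1)` : the commutator `⁅⁅a, cj y a⁆, a⁆` for `a = x ^ p ^ k`
-/

set_option autoImplicit false

namespace Run7.h676.PM

open Run7.h676.SS Run7.h676.PF Polynomial
open scoped commutatorElement

universe u

theorem eadd {A : Type u} [AddCommGroup A] (f g : AddMonoid.End A) (x : A) :
    (f + g) x = f x + g x := rfl

theorem emul {A : Type u} [AddCommGroup A] (f g : AddMonoid.End A) (x : A) :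
    (f * g) x = f (g x) := rfl

section mod

variable {p : ℕ} (hp : p.Prime)

include hp

theorem poly0 {k : ℕ} (hk : 1 ≤ k) : ∃ r g : ℤ[X],
    (X + 1 : ℤ[X]) ^ p ^ k = 1 + (g * X ^ p + (p : ℤ[X]) * (r * X)) := by
  obtain ⟨r, hr⟩ := exists_add_pow_prime_pow_eq hp (X : ℤ[X]) 1 k
  have h1 : p ≤ p ^ k := Nat.le_self_pow (by omega) p
  obtain ⟨t, ht⟩ := Nat.exists_eq_add_of_le h1
  refine ⟨r, X ^ t, ?_⟩
  rw [hr, ht, pow_add, one_pow]
  ring

theorem poly {k : ℕ} (hk : 1 ≤ k) : ∃ w v : ℤ[X],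
    ∑ i ∈ Finset.range p, ((X + 1 : ℤ[X]) ^ p ^ k) ^ i =
      (p : ℤ[X]) * (1 + w * X) + v * X ^ p := by
  obtain ⟨r, g, h⟩ := poly0 hp hk
  set E : ℤ[X] := g * X ^ p + (p : ℤ[X]) * (r * X) with hE
  have hs : ∀ i : ℕ, ∃ s : ℤ[X], (1 + E) ^ i = 1 + E * s := by
    intro i
    obtain ⟨s, hs⟩ := sub_one_dvd_pow_sub_one (1 + E) i
    refine ⟨s, ?_⟩
    rw [add_sub_cancel_left] at hs
    rw [← hs]; ring
  choose s hs using hs
  rw [h]
  have e : ∑ i ∈ Finset.range p, (1 + E) ^ i =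
      (p : ℤ[X]) + E * ∑ i ∈ Finset.range p, s i := by
    rw [Finset.sum_congr rfl fun i _ => hs i, Finset.sum_add_distrib, Finset.mul_sum]
    simp
  rw [e]
  refine ⟨r * ∑ i ∈ Finset.range p, s i, g * ∑ i ∈ Finset.range p, s i, ?_⟩
  rw [hE]
  ring

section add

variable {A : Type u} [AddCommGroup A]


theorem mod1 {k : ℕ} (hk : 1 ≤ k) (σ : AddMonoid.End A) (F : A) (hd : ((σ - 1) ^ p) F = 0)
    (hs : (∑ i ∈ Finset.range p, σ ^ (p ^ k * i)) F = 0) : p • F = 0 := by
  obtain ⟨w, v, h⟩ := poly hp hk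
  set d : AddMonoid.End A := σ - 1 with hdd
  have h1 := congrArg (aeval (R := ℤ) d) h
  have e1 : aeval (R := ℤ) d (X + 1 : ℤ[X]) = σ := by
    rw [map_add, aeval_X, map_one, hdd, sub_add_cancel]
  simp only [map_sum, map_pow, map_mul, map_add, aeval_X, map_one, map_natCast] at h1
  rw [map_add, aeval_X, map_one] at e1
  rw [e1] at h1
  have e2 : ∑ i ∈ Finset.range p, (σ ^ p ^ k) ^ i = ∑ i ∈ Finset.range p, σ ^ (p ^ k * i) :=
    Finset.sum_congr rfl fun i _ => (pow_mul σ _ _).symm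
  rw [e2] at h1
  have h2 := congrArg (fun f : AddMonoid.End A => f F) h1
  rw [hs, eadd] at h2
  have e3 : (aeval (R := ℤ) d v * d ^ p) F = 0 := by
    rw [emul, hd, map_zero]
  rw [e3, add_zero] at h2
  have h3 : (p • F) + aeval (R := ℤ) d w (d (p • F)) = 0 := by
    have e4 : ((p : AddMonoid.End A) * (1 + aeval (R := ℤ) d w * d)) F =
        (p • F) + aeval (R := ℤ) d w (d (p • F)) := by
      rw [emul, AddMonoid.End.natCast_apply, eadd,
        emul, smul_add, map_nsmul, map_nsmul]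
      rfl
    rw [← e4, ← h2]
  generalize hF' : p • F = F' at h3
  have h4 : aeval (R := ℤ) d (-w * X) F' = F' := by
    rw [map_mul, map_neg, aeval_X, emul]
    have : (-(aeval (R := ℤ) d w)) (d F') = -(aeval (R := ℤ) d w (d F')) := rfl
    rw [this, neg_eq_iff_eq_neg]
    exact (eq_neg_of_add_eq_zero_right h3)
  have h5 : ∀ n : ℕ, (aeval (R := ℤ) d (-w * X) ^ n) F' = F' := by
    intro n
    induction n with
    | zero => rfl
    | succ n ih => rw [pow_succ, emul, h4, ih]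
  have h6 := h5 p
  rw [← map_pow, mul_pow, map_mul, map_pow _ X, aeval_X, emul, ← hF', map_nsmul,
    hd, smul_zero, map_zero] at h6
  rw [← hF', ← h6]

theorem mod2 {k : ℕ} (hk : 1 ≤ k) (σ : AddMonoid.End A) (F : A) (hd : ((σ - 1) ^ p) F = 0)
    (hF : p • F = 0) : (σ ^ p ^ k) F = F := by
  obtain ⟨r, g, h⟩ := poly0 hp hk
  set d : AddMonoid.End A := σ - 1 with hdd
  have h1 := congrArg (aeval (R := ℤ) d) h
  have e1 : aeval (R := ℤ) d (X + 1 : ℤ[X]) = σ := by
    rw [map_add, aeval_X, map_one, hdd, sub_add_cancel]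
  simp only [map_pow, map_mul, map_add, aeval_X, map_one, map_natCast] at h1
  rw [map_add, aeval_X, map_one] at e1
  rw [e1] at h1
  rw [h1, eadd, eadd, emul, hd, map_zero,
    zero_add, emul, AddMonoid.End.natCast_apply, ← map_nsmul, hF, map_zero]
  exact add_zero F

end add

section mul

variable {A : Type u} [CommGroup A]

/-- `a⁻¹ * σ a` -/
def dm (σ : A →* A) (a : A) : A := a⁻¹ * σ a

/-- the additive version -/
def tA (σ : A →* A) : AddMonoid.End (Additive A) := MonoidHom.toAdditive σ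

omit hp in
theorem conv_pow (σ : A →* A) (n : ℕ) (a : A) :
    ((tA σ) ^ n) (Additive.ofMul a) =
      Additive.ofMul (σ^[n] a) := by
  induction n with
  | zero => rfl
  | succ n ih =>
    rw [pow_succ', emul, ih, Function.iterate_succ_apply']
    rfl

omit hp in
theorem conv_dm (σ : A →* A) (n : ℕ) (a : A) :
    (((tA σ) - 1) ^ n) (Additive.ofMul a) =
      Additive.ofMul ((dm σ)^[n] a) := by
  induction n with
  | zero => rfl
  | succ n ih =>
    rw [pow_succ', emul, ih, Function.iterate_succ_apply']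
    change Additive.ofMul (σ ((dm σ)^[n] a) / ((dm σ)^[n] a)) = Additive.ofMul _
    unfold dm
    rw [div_eq_inv_mul]

theorem mul1 {k : ℕ} (hk : 1 ≤ k) (σ : A →* A) (F : A) (hd : (dm σ)^[p] F = 1)
    (hs : ∏ i ∈ Finset.range p, σ^[p ^ k * i] F = 1) : F ^ p = 1 := by
  have h := mod1 hp hk (tA σ) (Additive.ofMul F)
    (by rw [conv_dm, hd]; rfl) (by
      have e : (∑ i ∈ Finset.range p, (tA σ) ^
          (p ^ k * i)) (Additive.ofMul F) = ∑ i ∈ Finset.range p,
            ((tA σ) ^ (p ^ k * i))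
              (Additive.ofMul F) := AddMonoidHom.finsetSum_apply _ _ _
      rw [e, Finset.sum_congr rfl fun i _ => conv_pow σ _ F, ← ofMul_prod, hs]
      rfl)
  exact h

theorem mul2 {k : ℕ} (hk : 1 ≤ k) (σ : A →* A) (F : A) (hd : (dm σ)^[p] F = 1)
    (hF : F ^ p = 1) : σ^[p ^ k] F = F := by
  have h := mod2 hp hk (tA σ) (Additive.ofMul F)
    (by rw [conv_dm, hd]; rfl) (by rw [← ofMul_pow, hF]; rfl)
  rw [conv_pow] at h
  exact h

end mul

end mod

end Run7.h676.PM
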