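import Pool.Agent.Run7.h676.PolyM

/-!
# Exponent `p ^ (k + 1)` : the commutator `⁅⁅a, cj y a⁆, a⁆` for `a = x ^ p ^ k`, group part
-/

set_option autoImplicit false

namespace Run7.h676.PM

open Run7.h676.SS Run7.h676.PF
open scoped commutatorElement

universe u

variable {K : Type u} [Group K]

/-- the subgroup generated by `x` and a conjugate -/
theorem two_gen (x y : K) (i : ℕ) :
    (Subgroup.closure ({x, cj y x} : Set K)).lowerCentralSeries (i + 1) ≤ L K (i + 2) := by
  induction i with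
  | zero =>
    rw [Subgroup.lowerCentralSeries_succ, Subgroup.lowerCentralSeries_zero, Subgroup.commutator_le]
    have hxy : ⁅x, cj y x⁆ ∈ L K 2 := by
      have e : ⁅x, cj y x⁆ = ⁅x, ⁅y, x⁆⁆ := by
        rw [commutatorElement_def, commutatorElement_def, commutatorElement_def]; unfold cj; group
      rw [e]
      have h1 : ⁅y, x⁆ ∈ L K (0 + 0 + 1) := comm_lcs _ 0 0
        (Subgroup.commutator_mem_commutator (Subgroup.mem_top y) (Subgroup.mem_top x))
      exact comm_lcs _ 1 0 (Subgroup.commutator_mem_commutator (Subgroup.mem_top x) h1)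
    have hc : ∀ a ∈ ({x, cj y x} : Set K), ∀ b ∈ ({x, cj y x} : Set K), ⁅a, b⁆ ∈ L K 2 := by
      rintro a (rfl | rfl) b (rfl | rfl)
      · rw [commutatorElement_self]; exact one_mem _
      · exact hxy
      · rw [← commutatorElement_inv]; exact inv_mem hxy
      · rw [commutatorElement_self]; exact one_mem _
    have key : ∀ a b : K, ⁅a, b⁆ ∈ L K 2 ↔
        QuotientGroup.mk' (L K 2) a * QuotientGroup.mk' (L K 2) b =
          QuotientGroup.mk' (L K 2) b * QuotientGroup.mk' (L K 2) a := by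
      intro a b
      rw [← commutatorElement_eq_one_iff_mul_comm, ← map_commutatorElement]
      exact (QuotientGroup.eq_one_iff ⁅a, b⁆).symm
    intro a ha b hb
    rw [key]
    have h1 : ∀ b ∈ ({x, cj y x} : Set K), ∀ a ∈ Subgroup.closure ({x, cj y x} : Set K),
        QuotientGroup.mk' (L K 2) a * QuotientGroup.mk' (L K 2) b =
          QuotientGroup.mk' (L K 2) b * QuotientGroup.mk' (L K 2) a := by
      intro b hb a ha
      induction ha using Subgroup.closure_induction with
      | mem a ha => exact (key a b).1 (hc a ha b hb)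
      | one => rw [map_one, one_mul, mul_one]
      | mul a a' _ _ h h' => rw [map_mul, mul_assoc, h', ← mul_assoc, h, mul_assoc]
      | inv a _ h =>
        rw [map_inv, inv_mul_eq_iff_eq_mul, ← mul_assoc, h, mul_inv_cancel_right]
    induction hb using Subgroup.closure_induction with
    | mem b hb => exact h1 b hb a ha
    | one => rw [map_one, one_mul, mul_one]
    | mul b b' _ _ h h' => rw [map_mul, ← mul_assoc, h, mul_assoc, h', ← mul_assoc]
    | inv b _ h =>
      rw [map_inv, mul_inv_eq_iff_eq_mul, mul_assoc, h, inv_mul_cancel_left]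
  | succ i ih =>
    rw [Subgroup.lowerCentralSeries_succ, Subgroup.commutator_le]
    intro a ha b _
    exact Subgroup.commutator_mem_commutator (ih ha) (Subgroup.mem_top b)

/-- `⁅x ^ p ^ k, cj y (x ^ p ^ k)⁆` lies in the term `2 * p` of the lower central series. -/
theorem F_memp {p : ℕ} (hp : p.Prime) (k : ℕ) (hk : 1 ≤ k) (hexp : ∀ g : K, g ^ p ^ (k + 1) = 1)
    (x y : K) : ⁅x ^ p ^ k, cj y (x ^ p ^ k)⁆ ∈ L K (2 * p) := by
  have hexp' : ∀ g : K ⧸ L K (2 * p), g ^ p ^ (k + 1) = 1 := by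
    intro g
    obtain ⟨g, rfl⟩ := QuotientGroup.mk_surjective g
    rw [← QuotientGroup.mk_pow, hexp]; rfl
  have main : ∀ x y : K ⧸ L K (2 * p), ⁅x ^ p ^ k, cj y (x ^ p ^ k)⁆ = 1 := by
    intro x y
    set S : Subgroup (K ⧸ L K (2 * p)) := Subgroup.closure {x, cj y x} with hS
    have hp1 := hp.two_le
    have hL : L S (2 * p - 1) = ⊥ := by
      have h1 : S.lowerCentralSeries (2 * p - 1) = ⊥ := by
        have h2 := two_gen x y (2 * p - 2)
        rw [show 2 * p - 2 + 1 = 2 * p - 1 by omega, show 2 * p - 2 + 2 = 2 * p by omega,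
          L_quot] at h2
        exact eq_bot_iff.2 h2
      rw [← Subgroup.top_subtype_lowerCentralSeries] at h1
      exact (Subgroup.map_eq_bot_iff_of_injective _ S.subtype_injective).1 h1
    have h := pow_commute (K := S) hp hk (fun g => Subtype.ext (by
      rw [Subgroup.coe_pow, hexp']; rfl)) hL ⟨x, Subgroup.subset_closure (by simp)⟩
      ⟨cj y x, Subgroup.subset_closure (by simp)⟩
    have h2 := congrArg S.subtype h
    rw [map_commutatorElement, map_pow, map_pow, map_one] at h2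
    have e : cj y (x ^ p ^ k) = (cj y x) ^ p ^ k := by unfold cj; rw [conj_pow]
    rw [e]
    exact h2
  rw [← QuotientGroup.eq_one_iff]
  change QuotientGroup.mk' (L K (2 * p)) ⁅x ^ p ^ k, cj y (x ^ p ^ k)⁆ = 1
  rw [map_commutatorElement, cj_map, map_pow]
  exact main _ _

/-- the conjugation by `x` on `L K n` -/
def cjN (n : ℕ) (x : K) : L K n →* L K n where
  toFun u := ⟨cj x u, cj_L u.2 x⟩
  map_one' := Subtype.ext (by change cj x 1 = 1; unfold cj; group)
  map_mul' a b := Subtype.ext (by change cj x (a * b) = cj x a * cj x b; exact cj_mul _ _ _)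

theorem cjN_iter (n : ℕ) (x : K) (u : L K n) (m : ℕ) :
    (((cjN n x)^[m] u : L K n) : K) = cj (x ^ m) u := by
  induction m with
  | zero => rw [pow_zero, cj_one]; rfl
  | succ m ih =>
    rw [Function.iterate_succ_apply', pow_succ', ← cj_cj, ← ih]; rfl

theorem telescope (a b : K) (n : ℕ) :
    PF.pr (fun i => cj (b ^ i) ⁅a, b⁆) n = a * (cj (b ^ n) a)⁻¹ := by
  induction n with
  | zero => rw [PF.pr, pow_zero, cj_one, mul_inv_cancel]
  | succ n ih =>
    rw [PF.pr, ih, comm_eq, cj_mul, cj_inv, cj_cj, ← pow_succ]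
    group

theorem final {p : ℕ} (hp : p.Prime) (h3 : L K (3 * p) = ⊥) (k : ℕ) (hk : 1 ≤ k)
    (hexp : ∀ g : K, g ^ p ^ (k + 1) = 1) (x y : K)
    (hF : ⁅x ^ p ^ k, cj y (x ^ p ^ k)⁆ ∈ L K (2 * p)) :
    Commute ⁅x ^ p ^ k, cj y (x ^ p ^ k)⁆ (x ^ p ^ k) := by
  have hp1 := hp.two_le
  let _ : CommGroup (L K (2 * p)) := { (inferInstance : Group (L K (2 * p))) with
    mul_comm := fun a b => Subtype.ext (comm_of_mem h3 a.2 b.2 (by omega)) }
  set F : L K (2 * p) := ⟨_, hF⟩ with hFd
  have hdm : ∀ (z : K) (j : ℕ), ((((dm (cjN (2 * p) z))^[j] F : L K (2 * p)) : K)) ∈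
      L K (2 * p + j) := by
    intro z j
    induction j with
    | zero => exact F.2
    | succ j ih =>
      rw [Function.iterate_succ_apply']
      exact shift_L ih z
  have hdm1 : ∀ z : K, (dm (cjN (2 * p) z))^[p] F = 1 := by
    intro z
    have := hdm z p
    rw [show 2 * p + p = 3 * p by ring, h3, Subgroup.mem_bot] at this
    exact Subtype.ext this
  set x' := cj y x with hx'
  have hb : cj y (x ^ p ^ k) = x' ^ p ^ k := by
    rw [hx']; unfold cj; rw [conj_pow]
  have hprod : ∏ i ∈ Finset.range p, (cjN (2 * p) x')^[p ^ k * i] F = 1 := by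
    have h1 : ∀ n : ℕ, (((∏ i ∈ Finset.range n, (cjN (2 * p) x')^[p ^ k * i] F : L K (2 * p)) : K)) =
        PF.pr (fun i => cj ((x' ^ p ^ k) ^ i) ⁅x ^ p ^ k, x' ^ p ^ k⁆) n := by
      intro n
      induction n with
      | zero => rfl
      | succ n ih =>
        rw [Finset.prod_range_succ, PF.pr, ← ih]
        have e : ((((cjN (2 * p) x')^[p ^ k * n] F : L K (2 * p)) : K)) =
            cj ((x' ^ p ^ k) ^ n) ⁅x ^ p ^ k, x' ^ p ^ k⁆ := by
          rw [cjN_iter, pow_mul, hFd]
          change cj ((x' ^ p ^ k) ^ n) ⁅x ^ p ^ k, cj y (x ^ p ^ k)⁆ = _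
          rw [hb]
        rw [← e]
        rfl
    apply Subtype.ext
    rw [h1, telescope]
    have e : (x' ^ p ^ k) ^ p = 1 := by
      rw [← pow_mul, ← pow_succ, hexp]
    rw [e, cj_one, mul_inv_cancel]
    rfl
  have hFp : F ^ p = 1 := mul1 hp hk (cjN (2 * p) x') F (hdm1 x') hprod
  have h := congrArg Subtype.val (mul2 hp hk (cjN (2 * p) x) F (hdm1 x) hFp)
  rw [cjN_iter] at h
  change cj (x ^ p ^ k) ⁅x ^ p ^ k, cj y (x ^ p ^ k)⁆ = ⁅x ^ p ^ k, cj y (x ^ p ^ k)⁆ at h
  generalize ⁅x ^ p ^ k, cj y (x ^ p ^ k)⁆ = D at h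
  have : x ^ p ^ k * D = D * x ^ p ^ k := by
    calc x ^ p ^ k * D = cj (x ^ p ^ k) D * x ^ p ^ k := by unfold cj; group
      _ = _ := by rw [h]
  exact this.symm

/-- In exponent `p ^ (k + 1)`, `k ≥ 1`, the commutator `⁅⁅a, cj y a⁆, a⁆` for `a = x ^ p ^ k` lies in
the term `3 * p` of the lower central series. -/
theorem c_memp {p : ℕ} (hp : p.Prime) (k : ℕ) (hk : 1 ≤ k) (hexp : ∀ g : K, g ^ p ^ (k + 1) = 1)
    (x y : K) : W (x ^ p ^ k) [y] ∈ L K (3 * p) := by
  have hexp' : ∀ g : K ⧸ L K (3 * p), g ^ p ^ (k + 1) = 1 := by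
    intro g
    obtain ⟨g, rfl⟩ := QuotientGroup.mk_surjective g
    rw [← QuotientGroup.mk_pow, hexp]; rfl
  have h := final (K := K ⧸ L K (3 * p)) hp (L_quot (3 * p)) k hk hexp'
    (QuotientGroup.mk' (L K (3 * p)) x) (QuotientGroup.mk' (L K (3 * p)) y)
    (F_memp hp k hk hexp' _ _)
  rw [← QuotientGroup.eq_one_iff]
  change QuotientGroup.mk' (L K (3 * p)) (W (x ^ p ^ k) [y]) = 1
  rw [W_map, map_pow]
  exact commutatorElement_eq_one_iff_commute.2 h

end Run7.h676.PM
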