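import Pool.Agent.Run7.h676.SSg

/-!
# The free Burnside groups
-/

set_option autoImplicit false

namespace Run7.h676.SS

open scoped commutatorElement

universe u

/-- The free Burnside group. -/
abbrev BG (m n : ℕ) : Type :=
  FreeGroup (Fin m) ⧸ Subgroup.normalClosure (Set.range fun w : FreeGroup (Fin m) => w ^ n)

/-- the generators -/
def gen (m n : ℕ) (i : Fin m) : BG m n := QuotientGroup.mk (FreeGroup.of i)

/-- the homomorphisms of the free Burnside group -/
theorem exists_hom (m n : ℕ) {G : Type u} [Group G] (hG : ∀ g : G, g ^ n = 1) (f : Fin m → G) :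
    ∃ φ : BG m n →* G, ∀ i, φ (gen m n i) = f i := by
  refine ⟨QuotientGroup.lift _ (FreeGroup.lift f) ?_, fun i => ?_⟩
  · intro w hw
    have : Subgroup.normalClosure (Set.range fun w : FreeGroup (Fin m) => w ^ n) ≤
        (FreeGroup.lift f).ker := by
      refine Subgroup.normalClosure_le_normal ?_
      rintro _ ⟨w, rfl⟩
      change FreeGroup.lift f (w ^ n) = 1
      rw [map_pow, hG]
    exact this hw
  · exact FreeGroup.lift_apply_of

theorem gen_top (m n : ℕ) : Subgroup.closure (Set.range (gen m n)) = ⊤ := by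
  have e : Set.range (gen m n) = (QuotientGroup.mk' (Subgroup.normalClosure
      (Set.range fun w : FreeGroup (Fin m) => w ^ n))) '' (Set.range FreeGroup.of) := by
    rw [← Set.range_comp]; rfl
  rw [e, ← MonoidHom.map_closure, FreeGroup.closure_range_of, ← MonoidHom.range_eq_map,
    MonoidHom.range_eq_top.2 (QuotientGroup.mk'_surjective _)]

/-- tuples as lists -/
theorem law_of_free (m n : ℕ) (hN : W (gen (m + 1) n 0) (List.ofFn fun i : Fin m =>
      gen (m + 1) n i.succ) = 1) {G : Type u} [Group G] (hG : ∀ g : G, g ^ n = 1) (x : G)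
    (l : List G) (hl : l.length = m) : W x l = 1 := by
  subst hl
  obtain ⟨φ, hφ⟩ := exists_hom (l.length + 1) n hG (Fin.cons x l.get)
  have h := congrArg φ hN
  rw [W_map, map_one, hφ, Fin.cons_zero, List.map_ofFn] at h
  have e : (List.ofFn (φ ∘ fun i : Fin l.length => gen (l.length + 1) n i.succ)) = l := by
    have : (φ ∘ fun i : Fin l.length => gen (l.length + 1) n i.succ) = l.get := by
      funext i
      rw [Function.comp_apply, hφ, Fin.cons_succ]
    rw [this, List.ofFn_get]
  rwa [e] at h

theorem W_free (m n : ℕ)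
    (hT : T (Subgroup.normalClosure {gen (m + 1) n 0}) m = ⊥) :
    W (gen (m + 1) n 0) (List.ofFn fun i : Fin m => gen (m + 1) n i.succ) = 1 := by
  have h := W_mem (Subgroup.normalClosure {gen (m + 1) n 0})
    (Subgroup.subset_normalClosure (Set.mem_singleton _))
    (List.ofFn fun i : Fin m => gen (m + 1) n i.succ)
  rw [List.length_ofFn, hT] at h
  exact Subgroup.mem_bot.1 h

/-- the class of the free Burnside group bounds the classes of the subgroups -/
theorem cls_free (m n c : ℕ) (hc : (⊤ : Subgroup (BG (m + 1) n)).lowerCentralSeries c = ⊥)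
    {G : Type u} [Group G] (hG : ∀ g : G, g ^ n = 1) : Cls G m c := by
  intro x l hl
  subst hl
  obtain ⟨φ, hφ⟩ := exists_hom (l.length + 1) n hG (Fin.cons x l.get)
  have e : Subgroup.closure ({x} ∪ {y | y ∈ l}) = (⊤ : Subgroup (BG (l.length + 1) n)).map φ := by
    rw [← gen_top, MonoidHom.map_closure]
    congr 1
    ext y
    constructor
    · rintro (hy | hy)
      · rw [Set.mem_singleton_iff] at hy
        subst hy
        exact ⟨gen _ n 0, ⟨0, rfl⟩, by rw [hφ, Fin.cons_zero]⟩
      · obtain ⟨i, hi⟩ := List.get_of_mem (show y ∈ l from hy)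
        exact ⟨gen _ n i.succ, ⟨i.succ, rfl⟩, by rw [hφ, Fin.cons_succ, hi]⟩
    · rintro ⟨_, ⟨i, rfl⟩, rfl⟩
      rw [hφ]
      refine Fin.cases ?_ (fun j => ?_) i
      · exact Or.inl (by rw [Fin.cons_zero]; rfl)
      · exact Or.inr (by rw [Fin.cons_succ]; exact List.get_mem l j)
  rw [e, ← Subgroup.map_lowerCentralSeries, hc, Subgroup.map_bot]

end Run7.h676.SS
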