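import Pool.Agent.Run7.h676.PolyN
import Pool.Agent.Run7.h676.SSh

/-!
# Periodic `p`-groups, `p` odd, with subgroups of bounded class
-/

set_option autoImplicit false

namespace Run7.h676.PM

open Run7.h676.SS
open scoped commutatorElement

universe u

variable {G : Type u} [Group G]

/-- the class bounds -/
def cb (N : ℕ) : ℕ → ℕ
  | 0 => N
  | m + 1 => 3 * cb N m + 3

theorem cb_eq (N m : ℕ) : 2 * cb N m + 3 = (2 * N + 3) * 3 ^ m := by
  induction m with
  | zero => simp [cb]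
  | succ m ih => rw [cb, pow_succ, ← mul_assoc, ← ih]; ring

theorem W_LN (N : ℕ) {x : G} {S : Subgroup G} (hx : ∀ y ∈ S, W x [y] ∈ S.lowerCentralSeries N) :
    ∀ l : List G, l ≠ [] → (∀ y ∈ l, y ∈ S) →
      W x l ∈ S.lowerCentralSeries (cb N (l.length - 1)) := by
  intro l
  induction l with
  | nil => intro h; exact absurd rfl h
  | cons y l ih =>
    intro _ hl
    rcases Nat.eq_zero_or_pos l.length with h0 | h0
    · have : l = [] := List.length_eq_zero_iff.1 h0
      subst this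
      exact hx y (hl y (by simp))
    · have ih' := ih (List.ne_nil_of_length_pos h0) fun z hz => hl z (by simp [hz])
      have hy : y ∈ S := hl y (by simp)
      obtain ⟨t, ht⟩ := Nat.exists_eq_add_of_le' h0
      rw [W_cons, List.length_cons, Nat.add_sub_cancel, ht, cb]
      rw [ht, Nat.add_sub_cancel] at ih'
      generalize W x l = c at ih'
      have e : ⁅c, cj y c⁆ = ⁅c, ⁅y, c⁆⁆ := by
        rw [commutatorElement_def, commutatorElement_def, commutatorElement_def]; unfold cj; group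
      have h1 : ⁅y, c⁆ ∈ S.lowerCentralSeries (cb N t + 1) := by
        rw [← commutatorElement_inv]
        exact inv_mem (Subgroup.commutator_mem_commutator ih' hy)
      have h2 := comm_lcs S _ _ (Subgroup.commutator_mem_commutator ih' h1)
      have h3 := comm_lcs S _ _ (Subgroup.commutator_mem_commutator h2 ih')
      rw [e]
      have e2 : 3 * cb N t + 3 = cb N t + (cb N t + 1) + 1 + cb N t + 1 := by
        ring
      rw [e2]
      exact h3

theorem W_onep {p : ℕ} (hp : p.Prime) (S : Subgroup G) (k : ℕ) (hk : 1 ≤ k)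
    (hexp : ∀ g : G, g ^ p ^ (k + 1) = 1) {x : G} (hx : x ∈ S) :
    ∀ y ∈ S, W (x ^ p ^ k) [y] ∈ S.lowerCentralSeries (3 * p) := by
  intro y hy
  have h := c_memp (K := S) hp k hk (fun g => Subtype.ext (by rw [Subgroup.coe_pow, hexp]; rfl))
    ⟨x, hx⟩ ⟨y, hy⟩
  have h1 : S.subtype (W ((⟨x, hx⟩ : S) ^ p ^ k) [⟨y, hy⟩]) ∈
      (L S (3 * p)).map S.subtype := ⟨_, h, rfl⟩
  rw [W_map, map_pow] at h1
  rw [Subgroup.top_subtype_lowerCentralSeries] at h1
  exact h1

theorem descent_p {p : ℕ} (hp : p.Prime) (hr : ∀ a : G, E3 a → a = 1) (m : ℕ)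
    (hc : Cls G (m + 1) (cb (3 * p) m)) (k : ℕ) (hk : 1 ≤ k)
    (hexp : ∀ g : G, g ^ p ^ (k + 1) = 1) : ∀ g : G, g ^ p ^ k = 1 := by
  intro x
  refine W_desc hr _ (m + 1) fun l hl => ?_
  have hS := hc x l hl
  have h1 := W_onep hp (Subgroup.closure ({x} ∪ {y | y ∈ l})) k hk hexp (x := x)
    (Subgroup.subset_closure (by simp))
  have h2 := W_LN (3 * p) h1 l (List.ne_nil_of_length_pos (by omega))
    (fun y hy => Subgroup.subset_closure (by simp [hy]))
  rw [hl, Nat.add_sub_cancel, hS] at h2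
  exact Subgroup.mem_bot.1 h2

theorem comm_pow_left {K : Type u} [Group K] {u v : K} (h1 : Commute ⁅u, v⁆ u)
    (h2 : Commute ⁅u, v⁆ v) (n : ℕ) : ⁅u ^ n, v⁆ = ⁅u, v⁆ ^ n := by
  have := cz1 h1 h2 (n : ℤ)
  rwa [zpow_natCast, zpow_natCast] at this

theorem comm_pow_right {K : Type u} [Group K] {u v : K} (h1 : Commute ⁅u, v⁆ u)
    (h2 : Commute ⁅u, v⁆ v) (n : ℕ) : ⁅u, v ^ n⁆ = ⁅u, v⁆ ^ n := by
  rw [← commutatorElement_inv (v ^ n) u, comm_pow_left (comm_swap h2) (comm_swap h1),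
    ← commutatorElement_inv u v, inv_pow, inv_inv]

/-- For `v ^ p = 1` the elements `x ^ p ^ j` and `v` commute modulo deep terms of the lower central
series. -/
theorem crudeK {K : Type u} [Group K] {p : ℕ} (x v : K) (hv : v ^ p = 1) (j : ℕ) :
    ⁅x ^ p ^ j, v⁆ ∈ L K (j + 1) := by
  induction j with
  | zero =>
    exact comm_lcs _ 0 0 (Subgroup.commutator_mem_commutator (Subgroup.mem_top _)
      (Subgroup.mem_top v))
  | succ j ih =>
    set f := QuotientGroup.mk' (L K (j + 2)) with hf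
    have hcen : ∀ z : K, Commute ⁅f (x ^ p ^ j), f v⁆ (f z) := by
      intro z
      have h1 : ⁅⁅x ^ p ^ j, v⁆, z⁆ ∈ L K (j + 2) :=
        comm_lcs _ 0 (j + 1) (Subgroup.commutator_mem_commutator ih (Subgroup.mem_top z))
      have h2 : f ⁅⁅x ^ p ^ j, v⁆, z⁆ = 1 := (QuotientGroup.eq_one_iff _).2 h1
      rw [map_commutatorElement, map_commutatorElement] at h2
      exact commutatorElement_eq_one_iff_commute.1 h2
    rw [← QuotientGroup.eq_one_iff]
    change f ⁅x ^ p ^ (j + 1), v⁆ = 1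
    rw [pow_succ, pow_mul, map_commutatorElement, map_pow,
      comm_pow_left (hcen _) (hcen v), ← comm_pow_right (hcen _) (hcen v), ← map_pow, hv, map_one,
      commutatorElement_one_right]

theorem crude_p {S : Subgroup G} {p : ℕ} {x v : G} (hx : x ∈ S) (hv : v ∈ S) (h : v ^ p = 1) (j : ℕ) :
    ⁅x ^ p ^ j, v⁆ ∈ S.lowerCentralSeries (j + 1) := by
  have h0 := crudeK (K := S) (p := p) ⟨x, hx⟩ ⟨v, hv⟩ (Subtype.ext h) j
  have h1 : S.subtype ⁅(⟨x, hx⟩ : S) ^ p ^ j, ⟨v, hv⟩⁆ ∈ (L S (j + 1)).map S.subtype :=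
    ⟨_, h0, rfl⟩
  rw [map_commutatorElement, map_pow] at h1
  rw [Subgroup.top_subtype_lowerCentralSeries] at h1
  exact h1

/-- bounding the exponent -/
theorem bounded_p {p : ℕ} (hr : ∀ a : G, E3 a → a = 1) (m : ℕ) (c : ℕ) (hc : Cls G (m + 1) c)
    (j : ℕ) : ∀ g : G, g ^ p ^ j = 1 → g ^ p ^ c = 1 := by
  induction j with
  | zero =>
    intro g hg
    rw [pow_zero, pow_one] at hg
    rw [hg, one_pow]
  | succ j ih =>
    intro x hx
    rcases Nat.lt_or_ge j c with h | h
    · obtain ⟨d, hd⟩ := Nat.exists_eq_add_of_lt h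
      have e : c = (j + 1) + d := by omega
      have e2 : p ^ c = p ^ (j + 1) * p ^ d := by rw [← pow_add, ← e]
      rw [e2, pow_mul, hx, one_pow]
    · refine ih x (hr _ fun y => ?_)
      obtain ⟨l, hl, hyl⟩ := exists_list y (m + 1) (by omega)
      have hxm : x ∈ Subgroup.closure ({x} ∪ {y | y ∈ l}) := Subgroup.subset_closure (by simp)
      have hym : y ∈ Subgroup.closure ({x} ∪ {y | y ∈ l}) := Subgroup.subset_closure (by simp [hyl])
      have hz : (cj y (x ^ p ^ j)) ^ p = 1 := by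
        unfold cj; rw [conj_pow, ← pow_mul, ← pow_succ, hx]; group
      have h1 := crude_p (S := Subgroup.closure ({x} ∪ {y | y ∈ l})) hxm
        (v := cj y (x ^ p ^ j))
        (mul_mem (mul_mem hym (Subgroup.pow_mem _ hxm (p ^ j))) (inv_mem hym)) hz j
      have h2 : (Subgroup.closure ({x} ∪ {y | y ∈ l})).lowerCentralSeries (j + 1) = ⊥ :=
        eq_bot_iff.2 ((Subgroup.lowerCentralSeries_antitone _ (by omega : c ≤ j + 1)).trans
          (hc x l hl).le)
      rw [h2, Subgroup.mem_bot] at h1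
      rw [h1]
      exact Commute.one_left _

theorem oddPer_of {p : ℕ} (hp : Odd p) (h : ∀ g : G, ∃ k : ℕ, g ^ p ^ k = 1) : OddPer G := by
  intro g
  obtain ⟨k, hk⟩ := h g
  exact ⟨p ^ k, hp.pow, hk⟩

/-- In the quotient by the locally finite radical the `p`-th powers are trivial. -/
theorem exp_p {p : ℕ} (hp : p.Prime) (h2 : p ≠ 2) (m : ℕ) (hc : Cls G (m + 1) (cb (3 * p) m))
    (hG : ∀ g : G, ∃ k : ℕ, g ^ p ^ k = 1) (g : G) : g ^ p ∈ rad G := by
  have hodd : Odd p := hp.odd_of_ne_two h2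
  have ho := oddPer_of hodd hG
  have hr := rad_E3 ho
  have hc' : Cls (G ⧸ rad G) (m + 1) (cb (3 * p) m) :=
    hc.map _ (QuotientGroup.mk'_surjective (rad G))
  have hG' : ∀ g : G ⧸ rad G, ∃ k : ℕ, g ^ p ^ k = 1 := by
    intro g
    obtain ⟨g, rfl⟩ := QuotientGroup.mk_surjective g
    obtain ⟨k, hk⟩ := hG g
    exact ⟨k, by rw [← QuotientGroup.mk_pow, hk]; rfl⟩
  have hb : ∀ g : G ⧸ rad G, g ^ p ^ (cb (3 * p) m) = 1 := by
    intro g
    obtain ⟨k, hk⟩ := hG' g
    exact bounded_p hr m _ hc' k g hk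
  have key : ∀ k : ℕ, (∀ g : G ⧸ rad G, g ^ p ^ k = 1) → ∀ g : G ⧸ rad G, g ^ p = 1 := by
    intro k
    induction k with
    | zero => intro h g; have := h g; rw [pow_zero, pow_one] at this; rw [this, one_pow]
    | succ k ih =>
      intro h
      rcases Nat.eq_zero_or_pos k with hk | hk
      · subst hk
        simpa using h
      · exact ih (descent_p hp hr m hc' k hk h)
  have h1 := key _ hb (QuotientGroup.mk g)
  rw [← QuotientGroup.mk_pow] at h1
  exact (QuotientGroup.eq_one_iff _).1 h1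

end Run7.h676.PM
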