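import Pool.Agent.Run7.h676.PolyQ

/-!
# Families of generators
-/

set_option autoImplicit false

namespace Run7.h676.PM

open Run7.h676.SS
open scoped commutatorElement

universe u

variable {G : Type u} [Group G]

/-- the subgroups generated by families of `r` elements have class at most `c` -/
def GenCls (G : Type u) [Group G] (r c : ℕ) : Prop :=
  ∀ f : Fin r → G, (Subgroup.closure (Set.range f)).lowerCentralSeries c = ⊥

theorem GenCls.cls {m c : ℕ} (h : GenCls G (m + 1) c) : Cls G m c := by
  intro x l hl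
  subst hl
  have e : Set.range (Fin.cons x l.get : Fin (l.length + 1) → G) = {x} ∪ {y | y ∈ l} := by
    ext z
    constructor
    · rintro ⟨i, rfl⟩
      refine Fin.cases ?_ (fun j => ?_) i
      · exact Or.inl (by rw [Fin.cons_zero]; rfl)
      · exact Or.inr (by rw [Fin.cons_succ]; exact List.get_mem l j)
    · rintro (hz | hz)
      · exact ⟨0, by rw [Fin.cons_zero]; exact hz.symm⟩
      · obtain ⟨i, hi⟩ := List.get_of_mem (show z ∈ l from hz)
        exact ⟨i.succ, by rw [Fin.cons_succ, hi]⟩
  rw [← e]
  exact h _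

/-- images of the free Burnside group -/
theorem gen_of_free {r n c : ℕ} (hc : (⊤ : Subgroup (BG r n)).lowerCentralSeries c = ⊥)
    (hG : ∀ g : G, g ^ n = 1) : GenCls G r c := by
  intro f
  obtain ⟨φ, hφ⟩ := exists_hom r n hG f
  have e : Subgroup.closure (Set.range f) = (⊤ : Subgroup (BG r n)).map φ := by
    rw [← gen_top, MonoidHom.map_closure, ← Set.range_comp]
    congr 2
    funext i
    exact (hφ i).symm
  rw [e, ← Subgroup.map_lowerCentralSeries, hc, Subgroup.map_bot]

theorem GenCls.mono {r s c : ℕ} (h : GenCls G s c) (hr : 1 ≤ r) (hrs : r ≤ s) : GenCls G r c := by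
  intro f
  have e : Set.range (fun i : Fin s => f ⟨min i.1 (r - 1), by omega⟩) = Set.range f := by
    ext z
    constructor
    · rintro ⟨i, rfl⟩
      exact ⟨_, rfl⟩
    · rintro ⟨i, rfl⟩
      refine ⟨⟨i.1, by omega⟩, ?_⟩
      change f ⟨min i.1 (r - 1), _⟩ = f i
      have e : (⟨min i.1 (r - 1), by omega⟩ : Fin r) = i := Fin.ext (by
        change min i.1 (r - 1) = i.1
        omega)
      rw [e]
  rw [← e]
  exact h _

/-- nilpotent periodic groups with finitely many generators are finite -/
theorem GenCls.fin {r c : ℕ} (h : GenCls G r c) (ht : Per G) (f : Fin r → G) :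
    Finite (Subgroup.closure (Set.range f)) := by
  have h1 := h f
  set H := Subgroup.closure (Set.range f) with hH
  have h2 : L H c = ⊥ := by
    rw [← Subgroup.top_subtype_lowerCentralSeries] at h1
    exact (Subgroup.map_eq_bot_iff_of_injective _ H.subtype_injective).1 h1
  have : Group.IsNilpotent H := Subgroup.nilpotent_iff_lowerCentralSeries.2 ⟨c, h2⟩
  have h3 := LF_of_nilp H (ht.sub H)
  have h4 : Subgroup.closure (Set.range fun i : Fin r =>
      (⟨f i, Subgroup.subset_closure ⟨i, rfl⟩⟩ : H)) = ⊤ := by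
    have e : (Set.range fun i : Fin r => (⟨f i, Subgroup.subset_closure ⟨i, rfl⟩⟩ : H)) =
        ((↑) : H → G) ⁻¹' (Set.range f) := by
      ext z
      constructor
      · rintro ⟨i, rfl⟩; exact ⟨i, rfl⟩
      · rintro ⟨i, hi⟩; exact ⟨i, Subtype.ext hi⟩
    rw [e]
    exact Subgroup.closure_closure_coe_preimage
  have h5 := h3 (Set.finite_range fun i : Fin r =>
      (⟨f i, Subgroup.subset_closure ⟨i, rfl⟩⟩ : H)).toFinset (fun _ _ => Subgroup.mem_top _)
  rw [Set.Finite.coe_toFinset, h4] at h5
  exact (Subgroup.topEquiv (G := H)).toEquiv.finite_iff.1 h5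

end Run7.h676.PM
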