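import Pool.Agent.Run7.h676.PolyF

/-!
# Taylor expansions of polynomial sequences in one and two variables
-/

set_option autoImplicit false

namespace Run7.h676.PF

open scoped commutatorElement

variable {G : Type*} [Group G]

/-- the ordered product of `n` factors -/
def pr (f : ℕ → G) : ℕ → G
  | 0 => 1
  | n + 1 => pr f n * f n

theorem pr_mem {f : ℕ → G} {H : Subgroup G} (n : ℕ) (h : ∀ i < n, f i ∈ H) : pr f n ∈ H := by
  induction n with
  | zero => exact one_mem _
  | succ n ih => exact mul_mem (ih fun i hi => h i (by omega)) (h n (by omega))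

theorem pr_one {f : ℕ → G} (n : ℕ) (h : ∀ i < n, f i = 1) : pr f n = 1 := by
  have := pr_mem (f := f) (H := (⊥ : Subgroup G)) n (fun i hi => by rw [h i hi]; exact one_mem _)
  exact Subgroup.mem_bot.1 this

theorem pr_congr {f g : ℕ → G} (n : ℕ) (h : ∀ i < n, f i = g i) : pr f n = pr g n := by
  induction n with
  | zero => rfl
  | succ n ih => rw [pr, pr, ih fun i hi => h i (by omega), h n (by omega)]

theorem pr_apply {ι : Type*} (f : ℕ → ι → G) (n : ℕ) (i : ι) : pr f n i = pr (fun j => f j i) n := by
  induction n with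
  | zero => rfl
  | succ n ih => rw [pr, pr, Pi.mul_apply, ih]

/-- only one factor -/
theorem pr_single {f : ℕ → G} {n i : ℕ} (hi : i < n) (h : ∀ j < n, j ≠ i → f j = 1) :
    pr f n = f i := by
  induction n with
  | zero => omega
  | succ n ih =>
    rw [pr]
    rcases Nat.lt_or_ge i n with h1 | h1
    · rw [ih h1 (fun j hj hne => h j (by omega) hne), h n (by omega) (by omega), mul_one]
    · have : i = n := by omega
      subst this
      rw [pr_one i (fun j hj => h j (by omega) (by omega)), one_mul]

section one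

variable {F : ℕ → Subgroup G} (hF : Fil F)

include hF

/-- Taylor expansion in one variable -/
theorem taylor {M : ℕ} (hM : F M = ⊥) {d : ℕ} {g : ℕ → G} (hg : g ∈ P F d) (h0 : g 0 = 1) :
    ∃ c : ℕ → G, (∀ j, c j ∈ F (d + (j + 1))) ∧ g = pr (fun j => bs (c j) (j + 1)) M := by
  have hA := pall hF hM
  have step : ∀ k, ∃ c : ℕ → G, (∀ j, c j ∈ F (d + (j + 1))) ∧
      ∃ r : ℕ → G, r ∈ P F d ∧ (∀ i < k + 1, r i = 1) ∧
        g = pr (fun j => bs (c j) (j + 1)) k * r := by
    intro k
    induction k with
    | zero =>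
      refine ⟨fun _ => 1, fun _ => one_mem _, g, hg, ?_, ?_⟩
      · intro i hi
        have : i = 0 := by omega
        rw [this, h0]
      · rw [pr, one_mul]
    | succ k ih =>
      obtain ⟨c, hc, r, hr, hr1, e⟩ := ih
      have hrk : r (k + 1) ∈ F (d + (k + 1)) := by
        have := hr (k + 1) 0
        rwa [dif_iter_eq r (k + 1) 0 (fun i hi => hr1 i (by omega)), zero_add] at this
      refine ⟨fun j => if j = k then r (k + 1) else c j, ?_, (bs (r (k + 1)) (k + 1))⁻¹ * r, ?_,
        ?_, ?_⟩
      · intro j
        dsimp only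
        split_ifs with h
        · subst h; exact hrk
        · exact hc j
      · exact (hA.grp d (by omega)).mul _ _ ((hA.grp d (by omega)).inv _ (bs_mem hF hrk)) hr
      · intro i hi
        rcases Nat.lt_or_ge i (k + 1) with h | h
        · simp only [Pi.mul_apply, Pi.inv_apply, bs, hr1 i h, Nat.choose_eq_zero_of_lt h, pow_zero,
            inv_one, mul_one]
        · have : i = k + 1 := by omega
          subst this
          simp only [Pi.mul_apply, Pi.inv_apply, bs, Nat.choose_self, pow_one, inv_mul_cancel]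
      · rw [pr]
        dsimp only
        have e2 : pr (fun j => bs (if j = k then r (k + 1) else c j) (j + 1)) k =
            pr (fun j => bs (c j) (j + 1)) k := pr_congr k (fun i hi => by
          rw [if_neg (by omega)])
        rw [if_pos rfl, e2, e]
        group
  obtain ⟨c, hc, r, hr, hr1, e⟩ := step M
  refine ⟨c, hc, ?_⟩
  have hr' : r = 1 := eq_one_of_vanish (M := M)
    (fun e he => eq_bot_iff.2 ((hF.le (by omega)).trans hM.le)) hr (fun i hi => hr1 i (by omega))
  rw [hr', mul_one] at e
  exact e

end one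

section two

variable {F : ℕ → Subgroup G} (hF : Fil F)

include hF

/-- Taylor expansion in two variables -/
theorem taylor2 {M : ℕ} (hM : F M = ⊥) (hA : PAll F 0) {T : ℕ → ℕ → G} (hT : T ∈ P (PS F hA) 0)
    (h0 : T 0 = 1) (h0' : ∀ n, T n 0 = 1) :
    ∃ c : ℕ → ℕ → G, (∀ i j, c i j ∈ F ((i + 1) + (j + 1))) ∧
      ∀ n m, T n m = pr (fun i => pr (fun j => c i j ^ (n.choose (i + 1) * m.choose (j + 1))) M) M := by
  have hF2 := fil_PS hF hA
  have hM2 := PS_bot hF hA hM
  have hA2 := pall hF2 hM2
  have step : ∀ k, ∃ c : ℕ → ℕ → G, (∀ i j, c i j ∈ F ((i + 1) + (j + 1))) ∧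
      ∃ r : ℕ → ℕ → G, r ∈ P (PS F hA) 0 ∧ (∀ i < k + 1, r i = 1) ∧ (∀ n, r n 0 = 1) ∧
        T = pr (fun i => pr (fun j => bs (bs (c i j) (j + 1)) (i + 1)) M) k * r := by
    intro k
    induction k with
    | zero =>
      refine ⟨fun _ _ => 1, fun _ _ => one_mem _, T, hT, ?_, h0', ?_⟩
      · intro i hi
        have : i = 0 := by omega
        rw [this, h0]
      · rw [pr, one_mul]
    | succ k ih =>
      obtain ⟨c, hc, r, hr, hr1, hr0, e⟩ := ih
      have hrk : r (k + 1) ∈ PS F hA (k + 1) := by
        have := hr (k + 1) 0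
        rw [dif_iter_eq r (k + 1) 0 (fun i hi => hr1 i (by omega))] at this
        simpa using this
      obtain ⟨d, hd, ed⟩ := taylor hF hM (mem_PS.1 hrk) (hr0 (k + 1))
      have hU : pr (fun j => bs (bs (d j) (j + 1)) (k + 1)) M ∈ PS (PS F hA) hA2 0 := by
        refine pr_mem M fun j _ => ?_
        exact bs_mem hF2 (mem_PS.2 (bs_mem hF (by rw [zero_add]; exact hd j)))
      refine ⟨fun i => if i = k then d else c i, ?_,
        (pr (fun j => bs (bs (d j) (j + 1)) (k + 1)) M)⁻¹ * r, ?_, ?_, ?_, ?_⟩
      · intro i j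
        dsimp only
        split_ifs with h
        · subst h; exact hd j
        · exact hc i j
      · exact mul_mem (inv_mem hU) (show r ∈ PS (PS F hA) hA2 0 from hr)
      · intro i hi
        rcases Nat.lt_or_ge i (k + 1) with h | h
        · rw [Pi.mul_apply, Pi.inv_apply, hr1 i h, mul_one, pr_apply, pr_one M, inv_one]
          intro j _
          simp only [bs, Nat.choose_eq_zero_of_lt h, pow_zero]
        · have : i = k + 1 := by omega
          subst this
          rw [Pi.mul_apply, Pi.inv_apply, pr_apply, pr_congr (g := fun j => bs (d j) (j + 1)) M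
            (fun j _ => by simp only [bs, Nat.choose_self, pow_one]), ← ed, inv_mul_cancel]
      · intro n
        rw [Pi.mul_apply, Pi.mul_apply, hr0 n, mul_one, Pi.inv_apply, Pi.inv_apply, pr_apply,
          pr_apply, pr_one M, inv_one]
        intro j _
        simp only [bs, Pi.pow_apply, Nat.choose_zero_succ, pow_zero, one_pow]
      · rw [pr]
        dsimp only
        have e2 : pr (fun i => pr (fun j => bs (bs ((if i = k then d else c i) j) (j + 1)) (i + 1)) M)
            k = pr (fun i => pr (fun j => bs (bs (c i j) (j + 1)) (i + 1)) M) k :=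
          pr_congr k (fun i hi => by rw [if_neg (by omega)])
        rw [if_pos rfl, e2, e]
        group
  obtain ⟨c, hc, r, hr, hr1, -, e⟩ := step M
  refine ⟨c, hc, fun n m => ?_⟩
  have hr' : r = 1 := eq_one_of_vanish (M := M)
    (fun e he => eq_bot_iff.2 ((hF2.le (by omega)).trans hM2.le)) hr
    (fun i hi => hr1 i (by omega))
  rw [hr', mul_one] at e
  rw [e, pr_apply, pr_apply]
  refine pr_congr M fun i _ => ?_
  rw [pr_apply, pr_apply]
  refine pr_congr M fun j _ => ?_
  simp only [bs, Pi.pow_apply]
  rw [← pow_mul, mul_comm (m.choose (j + 1))]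

end two

end Run7.h676.PF
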