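import Mathlib

/-!
# Normal sets of elements whose conjugates commute, and their commutators

`Q S` : `S` is a normal symmetric subset of the group, and for `x`, `y`, `z` in `S` the conjugates
of `x` by `y` and `z` commute.  The main result is that `Q S` is inherited by
`S ∪ {⁅a, b⁆ | a, b ∈ S}`.
-/

set_option autoImplicit false

namespace Run7.h676.SS

open scoped commutatorElement

universe u

variable {G : Type u} [Group G]

/-- the conjugate of `x` by `g` -/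
def cj (g x : G) : G := g * x * g⁻¹

theorem cj_mul (g x y : G) : cj g (x * y) = cj g x * cj g y := by unfold cj; group

theorem cj_inv (g x : G) : cj g x⁻¹ = (cj g x)⁻¹ := by unfold cj; group

theorem cj_cj (g h x : G) : cj g (cj h x) = cj (g * h) x := by unfold cj; group

theorem cj_one (x : G) : cj 1 x = x := by unfold cj; group

theorem cj_eq {g x : G} (h : Commute g x) : cj g x = x := by
  unfold cj; rw [h.eq]; group

theorem cj_commute {x y : G} (h : Commute x y) (g : G) : Commute (cj g x) (cj g y) := by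
  unfold Commute SemiconjBy at *
  rw [← cj_mul, ← cj_mul, h]

theorem cj_commute_of {x y g : G} (h : Commute (cj g x) (cj g y)) : Commute x y := by
  have := cj_commute h g⁻¹
  rwa [cj_cj, cj_cj, inv_mul_cancel, cj_one, cj_one] at this

theorem comm_eq (x y : G) : ⁅x, y⁆ = x * (cj y x)⁻¹ := by
  rw [commutatorElement_def]; unfold cj; group

theorem comm_eq' (x y : G) : ⁅x, y⁆ = cj x y * y⁻¹ := by
  rw [commutatorElement_def]; unfold cj; group

theorem cj_comm (g x y : G) : cj g ⁅x, y⁆ = ⁅cj g x, cj g y⁆ := by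
  rw [commutatorElement_def, commutatorElement_def]; unfold cj; group

theorem Commute.cj_right {a g x : G} (h1 : Commute a g) (h2 : Commute a x) : Commute a (cj g x) :=
  (h1.mul_right h2).mul_right h1.inv_right

/-- the formula for the conjugation by a commutator -/
theorem form (a a' s : G) (h1 : Commute a a') (h2 : Commute a (cj s a')) :
    cj (a * a'⁻¹) s = cj a'⁻¹ s * s⁻¹ * cj a s := by
  have e1 : cj a'⁻¹ s * s⁻¹ = a'⁻¹ * cj s a' := by unfold cj; group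
  have e2 : Commute a (cj a'⁻¹ s * s⁻¹) := by
    rw [e1]; exact h1.inv_right.mul_right h2
  calc cj (a * a'⁻¹) s = cj a (cj a'⁻¹ s * s⁻¹ * s) := by rw [inv_mul_cancel_right, cj_cj]
    _ = cj a'⁻¹ s * s⁻¹ * cj a s := by rw [cj_mul a _ s, cj_eq e2]

/-- the conjugates of `s` by elements of `S` commute -/
def Ab (S : Set G) (s : G) : Prop := ∀ y ∈ S, ∀ z ∈ S, Commute (cj y s) (cj z s)

structure Q (S : Set G) : Prop where
  one : (1 : G) ∈ S
  inv : ∀ x ∈ S, x⁻¹ ∈ S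
  norm : ∀ g : G, ∀ x ∈ S, cj g x ∈ S
  com : ∀ x ∈ S, Ab S x

/-- adding commutators -/
def Nx (S : Set G) : Set G := S ∪ {w | ∃ a ∈ S, ∃ b ∈ S, w = ⁅a, b⁆}

theorem subset_Nx (S : Set G) : S ⊆ Nx S := Set.subset_union_left

theorem comm_mem_Nx {S : Set G} {a b : G} (ha : a ∈ S) (hb : b ∈ S) : ⁅a, b⁆ ∈ Nx S :=
  Or.inr ⟨a, ha, b, hb, rfl⟩

namespace Q

variable {S : Set G} (hS : Q S)

include hS

theorem c1 {x y : G} (hx : x ∈ S) (hy : y ∈ S) : Commute x (cj y x) := by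
  have := hS.com x hx 1 hS.one y hy
  rwa [cj_one] at this

theorem c2 {x y z : G} (hx : x ∈ S) (hy : y ∈ S) (hz : z ∈ S) : Commute x (cj (y * z) x) := by
  have := cj_commute (hS.com x hx y⁻¹ (hS.inv y hy) z hz) y
  rwa [cj_cj, cj_cj, mul_inv_cancel, cj_one] at this

theorem Nx_inv {w : G} (hw : w ∈ Nx S) : w⁻¹ ∈ Nx S := by
  rcases hw with hw | ⟨a, ha, b, hb, rfl⟩
  · exact subset_Nx S (hS.inv w hw)
  · rw [commutatorElement_inv]; exact comm_mem_Nx hb ha

theorem ab_Nx {s : G} (h : Ab S s) (h2 : ∀ a ∈ S, ∀ b ∈ S, Commute a (cj (s * b) a)) :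
    Ab (Nx S) s := by
  have key : ∀ y ∈ Nx S, ∀ t : G, (∀ z ∈ S, Commute t (cj z s)) → Commute t (cj y s) := by
    rintro y (hy | ⟨a, ha, b, hb, rfl⟩) t ht
    · exact ht y hy
    · rw [comm_eq]
      have ha' : cj b a ∈ S := hS.norm b a ha
      rw [form a (cj b a) s (hS.c1 ha hb) (by rw [cj_cj]; exact h2 a ha b hb)]
      have h1 := ht 1 hS.one
      rw [cj_one] at h1
      exact ((ht _ (hS.inv _ ha')).mul_right h1.inv_right).mul_right (ht a ha)
  intro y hy z hz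
  exact key z hz _ fun z' hz' => (key y hy _ fun z'' hz'' => h z' hz' z'' hz'').symm

theorem case1 {s : G} (hs : s ∈ S) : Ab (Nx S) s :=
  hS.ab_Nx (hS.com s hs) fun _ ha _ hb => hS.c2 ha hs hb

theorem w_right {x y z : G} (hx : x ∈ S) (hy : y ∈ S) (hz : z ∈ S) : Commute ⁅⁅x, y⁆, z⁆ z := by
  have h := hS.case1 hz 1 (subset_Nx S hS.one) _ (comm_mem_Nx hx hy)
  rw [cj_one] at h
  rw [comm_eq' ⁅x, y⁆ z]
  exact (h.mul_right (Commute.refl z).inv_right).symm

theorem w_left {x y z : G} (hx : x ∈ S) (hy : y ∈ S) (hz : z ∈ S) : Commute ⁅⁅x, y⁆, z⁆ x := by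
  have h1 : Commute x ⁅x, y⁆ := by
    rw [comm_eq]; exact (Commute.refl x).mul_right (hS.c1 hx hy).inv_right
  have h2 : Commute x (cj z ⁅x, y⁆) := by
    rw [comm_eq, cj_mul, cj_inv, cj_cj]
    exact (hS.c1 hx hz).mul_right (hS.c2 hx hz hy).inv_right
  rw [comm_eq ⁅x, y⁆ z]
  exact (h1.mul_right h2.inv_right).symm

theorem w_mid {x y z : G} (hx : x ∈ S) (hy : y ∈ S) (hz : z ∈ S) : Commute ⁅⁅x, y⁆, z⁆ y := by
  have h1 : Commute y ⁅x, y⁆ := by
    rw [comm_eq']; exact (hS.c1 hy hx).mul_right (Commute.refl y).inv_right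
  have h2 : Commute y (cj z ⁅x, y⁆) := by
    rw [comm_eq', cj_mul, cj_inv, cj_cj]
    exact (hS.c2 hy hz hx).mul_right (hS.c1 hy hz).inv_right
  rw [comm_eq ⁅x, y⁆ z]
  exact (h1.mul_right h2.inv_right).symm

theorem c_left {x y : G} (hx : x ∈ S) (hy : y ∈ S) : Commute ⁅x, y⁆ x := by
  rw [comm_eq]; exact ((Commute.refl x).mul_right (hS.c1 hx hy).inv_right).symm

theorem c_right {x y : G} (hx : x ∈ S) (hy : y ∈ S) : Commute ⁅x, y⁆ y := by
  rw [comm_eq']; exact ((hS.c1 hy hx).mul_right (Commute.refl y).inv_right).symm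

/-- exchanging two conjugations -/
theorem swap {c d x : G} (hc : c ∈ S) (hd : d ∈ S) (hx : x ∈ S) :
    cj (c * d) x = ⁅⁅c, d⁆, x⁆ * cj (d * c) x := by
  have e1 : c * d = d * c * ⁅c, d⁆ := by
    have h : Commute (d * c) ⁅c, d⁆ :=
      ((hS.c_right hc hd).symm.mul_left (hS.c_left hc hd).symm)
    rw [h.eq, commutatorElement_def]; group
  have e2 : cj ⁅c, d⁆ x = ⁅⁅c, d⁆, x⁆ * x := by
    rw [comm_eq' ⁅c, d⁆ x]; group
  have h3 : Commute (d * c) ⁅⁅c, d⁆, x⁆ :=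
    (hS.w_mid hc hd hx).symm.mul_left (hS.w_left hc hd hx).symm
  rw [e1, ← cj_cj, e2, cj_mul, cj_eq h3]

end Q

/-- the last step -/
theorem fin_step {P R U T F : G} (hPR : Commute P R) (hUT : Commute U T)
    (h1 : P * T = F * (T * P)) (h2 : R * U = F * (U * R)) (hFP : Commute F P) (hFR : Commute F R)
    (hFT : Commute F T) (hFU : Commute F U) : Commute (P * U⁻¹) (R * T⁻¹) := by
  have e1 : T⁻¹ * P = F * P * T⁻¹ := by
    have : P * T = T * (F * P) := by
      rw [h1, ← mul_assoc, hFT.eq, mul_assoc]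
    calc T⁻¹ * P = T⁻¹ * (P * T) * T⁻¹ := by group
      _ = F * P * T⁻¹ := by rw [this]; group
  have e2 : U⁻¹ * R = F * R * U⁻¹ := by
    have : R * U = U * (F * R) := by
      rw [h2, ← mul_assoc, hFU.eq, mul_assoc]
    calc U⁻¹ * R = U⁻¹ * (R * U) * U⁻¹ := by group
      _ = F * R * U⁻¹ := by rw [this]; group
  change P * U⁻¹ * (R * T⁻¹) = R * T⁻¹ * (P * U⁻¹)
  calc P * U⁻¹ * (R * T⁻¹) = P * (U⁻¹ * R) * T⁻¹ := by group
    _ = P * (F * R * U⁻¹) * T⁻¹ := by rw [e2]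
    _ = (P * F) * R * (U⁻¹ * T⁻¹) := by group
    _ = (F * P) * R * (T⁻¹ * U⁻¹) := by rw [hFP.eq, (hUT.inv_inv).eq]
    _ = F * (P * R) * (T⁻¹ * U⁻¹) := by group
    _ = F * (R * P) * (T⁻¹ * U⁻¹) := by rw [hPR.eq]
    _ = (F * R) * P * T⁻¹ * U⁻¹ := by group
    _ = (R * F) * P * T⁻¹ * U⁻¹ := by rw [hFR.eq]
    _ = R * (F * P * T⁻¹) * U⁻¹ := by group
    _ = R * (T⁻¹ * P) * U⁻¹ := by rw [e1]
    _ = R * T⁻¹ * (P * U⁻¹) := by group

namespace Q

variable {S : Set G} (hS : Q S) {a b c d : G} (ha : a ∈ S) (hb : b ∈ S) (hc : c ∈ S) (hd : d ∈ S)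

include hS ha hb hc hd

theorem F1 : ⁅cj c a, cj d (cj b a)⁆ = ⁅⁅c, a⁆, cj d (cj b a)⁆ := by
  have h : Commute a (cj d (cj b a)) := by rw [cj_cj]; exact hS.c2 ha hd hb
  have e : cj c a = ⁅c, a⁆ * a := by rw [comm_eq']; group
  rw [e]
  generalize cj d (cj b a) = t at h
  generalize ⁅c, a⁆ = v
  rw [commutatorElement_def, commutatorElement_def]
  have : a * t * a⁻¹ = t := by rw [h.eq]; group
  calc v * a * t * (v * a)⁻¹ * t⁻¹ = v * (a * t * a⁻¹) * v⁻¹ * t⁻¹ := by group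
    _ = _ := by rw [this]

theorem F2 : ⁅cj c a, cj d (cj b a)⁆ = ⁅⁅d, cj b a⁆, cj c a⁆⁻¹ := by
  have h : Commute (cj c a) (cj b a) := hS.com a ha c hc b hb
  have e : cj d (cj b a) = ⁅d, cj b a⁆ * cj b a := by rw [comm_eq' d]; group
  rw [e, commutatorElement_inv]
  generalize ⁅d, cj b a⁆ = v
  rw [commutatorElement_def, commutatorElement_def]
  have : cj b a * (cj c a)⁻¹ * (cj b a)⁻¹ = (cj c a)⁻¹ := by
    rw [(h.inv_left).symm.eq]; group
  calc cj c a * (v * cj b a) * (cj c a)⁻¹ * (v * cj b a)⁻¹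
      = cj c a * v * (cj b a * (cj c a)⁻¹ * (cj b a)⁻¹) * v⁻¹ := by group
    _ = _ := by rw [this]

theorem F_c : Commute ⁅cj c a, cj d (cj b a)⁆ c := by
  rw [hS.F1 ha hb hc hd]
  exact hS.w_left hc ha (hS.norm d _ (hS.norm b a ha))

theorem F_d : Commute ⁅cj c a, cj d (cj b a)⁆ d := by
  rw [hS.F2 ha hb hc hd]
  exact (hS.w_left hd (hS.norm b a ha) (hS.norm c a ha)).inv_left

theorem F_P : Commute ⁅cj c a, cj d (cj b a)⁆ (cj c a) :=
  hS.c_left (hS.norm c a ha) (hS.norm d _ (hS.norm b a ha))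

theorem F_T : Commute ⁅cj c a, cj d (cj b a)⁆ (cj d (cj b a)) :=
  hS.c_right (hS.norm c a ha) (hS.norm d _ (hS.norm b a ha))

theorem F_inv : ⁅cj c⁻¹ a, cj d (cj b a)⁆ = ⁅cj c a, cj d (cj b a)⁆⁻¹ := by
  have ht : cj d (cj b a) ∈ S := hS.norm d _ (hS.norm b a ha)
  rw [hS.F1 ha hb (hS.inv c hc) hd, hS.F1 ha hb hc hd]
  generalize cj d (cj b a) = t at ht
  have e1 : ⁅c⁻¹, a⁆ = ⁅c, a⁆⁻¹ := by
    have h := (hS.c_left hc ha).inv_left
    calc ⁅c⁻¹, a⁆ = c⁻¹ * ⁅c, a⁆⁻¹ * c := by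
          rw [commutatorElement_def, commutatorElement_def]; group
      _ = _ := by rw [← h.inv_right.eq]; group
  rw [e1]
  have h2 : Commute ⁅⁅c, a⁆, t⁆ ⁅c, a⁆ := by
    have h3 := hS.w_left hc ha ht
    have h4 := hS.w_mid hc ha ht
    rw [commutatorElement_def c a]
    rw [commutatorElement_def c a] at h3 h4
    exact ((h3.mul_right h4).mul_right h3.inv_right).mul_right h4.inv_right
  generalize ⁅c, a⁆ = v at h2
  have h := h2.inv_left
  calc ⁅v⁻¹, t⁆ = v⁻¹ * ⁅v, t⁆⁻¹ * v := by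
        rw [commutatorElement_def, commutatorElement_def]; group
    _ = _ := by rw [← h.inv_right.eq]; group

theorem F_eq : ⁅a, cj (c * d) (cj b a)⁆ = ⁅cj c a, cj d (cj b a)⁆⁻¹ := by
  rw [← hS.F_inv ha hb hc hd]
  have h := hS.F_c ha hb (hS.inv c hc) hd
  have h' : Commute c ⁅cj c⁻¹ a, cj d (cj b a)⁆ := by
    have := h.inv_right
    rw [inv_inv] at this
    exact this.symm
  have e := cj_comm c (cj c⁻¹ a) (cj d (cj b a))
  rw [cj_eq h', cj_cj c c⁻¹, mul_inv_cancel, cj_one, cj_cj c d] at e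
  exact e.symm

theorem F_sym : ⁅cj c a, cj d (cj b a)⁆ = ⁅cj d a, cj c (cj b a)⁆ := by
  have ha' : cj b a ∈ S := hS.norm b a ha
  apply inv_injective
  rw [← hS.F_eq ha hb hc hd, ← hS.F_eq ha hb hd hc, hS.swap hc hd ha']
  have h1 : Commute a ⁅⁅c, d⁆, cj b a⁆ := by
    rw [comm_eq' ⁅c, d⁆]
    refine Commute.mul_right ?_ (hS.c1 ha hb).inv_right
    have h := hS.case1 ha _ (hS.Nx_inv (comm_mem_Nx hc hd)) b (subset_Nx S hb)
    have h' := cj_commute h ⁅c, d⁆
    rw [cj_cj, mul_inv_cancel, cj_one] at h'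
    exact h'
  have h2 : Commute ⁅⁅c, d⁆, cj b a⁆ (cj (d * c) (cj b a)) :=
    Commute.cj_right ((hS.w_mid hc hd ha').mul_right (hS.w_left hc hd ha')) (hS.w_right hc hd ha')
  generalize ⁅⁅c, d⁆, cj b a⁆ = z at h1 h2
  generalize cj (d * c) (cj b a) = p at h2
  have h3 : Commute z ⁅a, p⁆ := by
    rw [commutatorElement_def]
    exact ((h1.symm.mul_right h2).mul_right h1.symm.inv_right).mul_right h2.inv_right
  have e : ⁅a, z * p⁆ = z * ⁅a, p⁆ * z⁻¹ := by
    rw [commutatorElement_def, commutatorElement_def]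
    calc a * (z * p) * a⁻¹ * (z * p)⁻¹ = (a * z) * p * a⁻¹ * p⁻¹ * z⁻¹ := by group
      _ = (z * a) * p * a⁻¹ * p⁻¹ * z⁻¹ := by rw [h1.eq]
      _ = _ := by group
  rw [e, h3.eq]; group

omit hc hd in
theorem ab_comm : Ab S ⁅a, b⁆ := by
  intro c hc d hd
  have ha' : cj b a ∈ S := hS.norm b a ha
  rw [comm_eq a b, cj_mul, cj_mul, cj_inv, cj_inv]
  have hF := hS.F_sym ha hb hc hd
  refine fin_step (F := ⁅cj c a, cj d (cj b a)⁆) ?_ ?_ ?_ ?_ ?_ ?_ ?_ ?_
  · exact hS.com a ha c hc d hd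
  · exact hS.com _ ha' c hc d hd
  · rw [commutatorElement_def]; group
  · rw [hF, commutatorElement_def]; group
  · exact hS.F_P ha hb hc hd
  · rw [hF]; exact hS.F_P ha hb hd hc
  · exact hS.F_T ha hb hc hd
  · rw [hF]; exact hS.F_T ha hb hd hc

end Q

/-- `Q` is inherited when the commutators are added. -/
theorem Q.nx {S : Set G} (hS : Q S) : Q (Nx S) where
  one := subset_Nx S hS.one
  inv := fun _ hw => hS.Nx_inv hw
  norm := by
    rintro g w (hw | ⟨a, ha, b, hb, rfl⟩)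
    · exact subset_Nx S (hS.norm g w hw)
    · rw [cj_comm]; exact comm_mem_Nx (hS.norm g a ha) (hS.norm g b hb)
  com := by
    rintro s (hs | ⟨a, ha, b, hb, rfl⟩)
    · exact hS.case1 hs
    · refine hS.ab_Nx (hS.ab_comm ha hb) ?_
      intro c hc e he
      have h := hS.case1 hc _ (hS.Nx_inv (comm_mem_Nx ha hb)) e (subset_Nx S he)
      have h' := cj_commute h ⁅a, b⁆
      rwa [cj_cj, cj_cj, mul_inv_cancel, cj_one] at h'

/-- the closure under commutators -/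
def Cl (S : Set G) : Set G := {x | ∃ n : ℕ, x ∈ (Nx^[n]) S}

theorem iter_mono (S : Set G) (n m : ℕ) : (Nx^[n]) S ⊆ (Nx^[n + m]) S := by
  induction m with
  | zero => exact le_refl _
  | succ m ih =>
    refine ih.trans ?_
    rw [← add_assoc, Function.iterate_succ_apply']
    exact subset_Nx _

theorem Q.iter {S : Set G} (hS : Q S) (n : ℕ) : Q ((Nx^[n]) S) := by
  induction n with
  | zero => exact hS
  | succ n ih => rw [Function.iterate_succ_apply']; exact ih.nx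

theorem subset_Cl (S : Set G) : S ⊆ Cl S := fun _ hx => ⟨0, hx⟩

theorem Q.clo {S : Set G} (hS : Q S) : Q (Cl S) where
  one := subset_Cl S hS.one
  inv := by
    rintro x ⟨n, hx⟩
    exact ⟨n, (hS.iter n).inv x hx⟩
  norm := by
    rintro g x ⟨n, hx⟩
    exact ⟨n, (hS.iter n).norm g x hx⟩
  com := by
    rintro x ⟨n, hx⟩ y ⟨m, hy⟩ z ⟨k, hz⟩
    have h := hS.iter (n + m + k)
    refine h.com x ?_ y ?_ z ?_
    · rw [add_assoc]; exact iter_mono S n _ hx
    · rw [add_comm n m, add_assoc]; exact iter_mono S m _ hy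
    · rw [add_comm (n + m) k]; exact iter_mono S k _ hz

theorem comm_mem_Cl {S : Set G} {a b : G} (ha : a ∈ Cl S) (hb : b ∈ Cl S) : ⁅a, b⁆ ∈ Cl S := by
  obtain ⟨n, hn⟩ := ha
  obtain ⟨m, hm⟩ := hb
  refine ⟨n + m + 1, ?_⟩
  rw [Function.iterate_succ_apply']
  refine comm_mem_Nx (iter_mono S n m hn) ?_
  rw [add_comm n m]
  exact iter_mono S m n hm

end Run7.h676.SS
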