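import Pool.Agent.Run7.h676.SSa
import Pool.Agent.Helper351.Kos.WordLemma

/-!
# A group generated by finitely many elements of a set with the property `Q` is nilpotent
-/

set_option autoImplicit false

namespace Run7.h676.SS

open scoped commutatorElement
open Pool.Agent.Helper351.Kos

universe u

section words

theorem lt_append {A : Type*} [LinearOrder A] :
    ∀ (v' v : List A), v'.length = v.length → v' < v → ∀ w' w : List A, v' ++ w' < v ++ w := by
  intro v'
  induction v' with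
  | nil =>
    intro v hl h
    have : v = [] := by
      apply List.length_eq_zero_iff.mp
      simpa using hl.symm
    subst this
    exact absurd h (lt_irrefl _)
  | cons a v' ih =>
    intro v hl h w' w
    cases v with
    | nil => simp at hl
    | cons b v =>
      rw [List.cons_lt_cons_iff] at h
      rw [List.cons_append, List.cons_append, List.cons_lt_cons_iff]
      rcases h with h | ⟨h1, h2⟩
      · exact Or.inl h
      · exact Or.inr ⟨h1, ih v (by simpa using hl) h2 w' w⟩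

theorem append_lt {A : Type*} [LinearOrder A] :
    ∀ (u v' v : List A), v' < v → u ++ v' < u ++ v := by
  intro u
  induction u with
  | nil => intro v' v h; simpa using h
  | cons a u ih =>
    intro v' v h
    rw [List.cons_append, List.cons_append, List.cons_lt_cons_iff]
    exact Or.inr ⟨rfl, ih v' v h⟩

end words

variable {G : Type u} [Group G]

theorem Q.jac {S : Set G} (hS : Q S) {h x y : G} (hh : h ∈ S) (hx : x ∈ S) (hy : y ∈ S)
    (h0 : ⁅⁅h, y⁆, x⁆ = 1) : ⁅h, ⁅x, y⁆⁆ = ⁅⁅h, x⁆, y⁆ := by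
  have hsw := hS.swap hx hy hh
  have hB : cj x h ∈ S := hS.norm x h hh
  have e1 : ⁅⁅h, x⁆, y⁆ = h * (cj x h)⁻¹ * (cj (y * x) h * (cj y h)⁻¹) := by
    rw [comm_eq ⁅h, x⁆ y, comm_eq h x, cj_mul, cj_inv, cj_cj, mul_inv_rev, inv_inv]
  have e2 : ⁅⁅h, y⁆, x⁆ = h * (cj y h)⁻¹ * (cj (x * y) h * (cj x h)⁻¹) := by
    rw [comm_eq ⁅h, y⁆ x, comm_eq h y, cj_mul, cj_inv, cj_cj, mul_inv_rev, inv_inv]
  have e3 : ⁅h, ⁅x, y⁆⁆ = cj (y * x) h * (cj (x * y) h)⁻¹ := by
    rw [← commutatorElement_inv]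
    rw [hsw]; group
  have hDB : Commute (cj x h) (cj (y * x) h) := by
    have := hS.c1 hB hy
    rwa [cj_cj] at this
  have hDh : Commute h (cj (y * x) h) := hS.c2 hh hy hx
  have hBh : Commute h (cj x h) := hS.c1 hh hx
  rw [e1, e3]
  rw [e2] at h0
  generalize cj (x * y) h = E at h0
  generalize cj (y * x) h = D at hDB hDh
  generalize cj x h = B at h0 hDB hBh
  generalize cj y h = C at h0
  have hE : E = C * h⁻¹ * B := by
    calc E = (h * C⁻¹)⁻¹ * (h * C⁻¹ * (E * B⁻¹)) * B := by group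
      _ = C * h⁻¹ * B := by rw [h0]; group
  rw [hE]
  calc D * (C * h⁻¹ * B)⁻¹ = (D * B⁻¹) * h * C⁻¹ := by group
    _ = (B⁻¹ * D) * h * C⁻¹ := by rw [hDB.symm.inv_right.eq]
    _ = B⁻¹ * (D * h) * C⁻¹ := by group
    _ = B⁻¹ * (h * D) * C⁻¹ := by rw [hDh.eq]
    _ = (B⁻¹ * h) * D * C⁻¹ := by group
    _ = (h * B⁻¹) * D * C⁻¹ := by rw [hBh.inv_right.eq]
    _ = h * B⁻¹ * (D * C⁻¹) := by group

/-- the left-normed commutators -/
def wd {m : ℕ} (a : Fin m → G) (h : G) (w : List (Fin m)) : G := w.foldl (fun g i => ⁅g, a i⁆) h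

section

variable {m : ℕ} (a : Fin m → G)

theorem wd_nil (h : G) : wd a h [] = h := rfl

theorem wd_cons (h : G) (i : Fin m) (w : List (Fin m)) : wd a h (i :: w) = wd a ⁅h, a i⁆ w := rfl

theorem wd_append (h : G) (u v : List (Fin m)) : wd a h (u ++ v) = wd a (wd a h u) v := by
  unfold wd; rw [List.foldl_append]

theorem wd_one (w : List (Fin m)) : wd a 1 w = 1 := by
  induction w with
  | nil => rfl
  | cons i w ih => rw [wd_cons, commutatorElement_one_left, ih]

/-- smaller words give trivial commutators -/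
def Low (h : G) (w : List (Fin m)) : Prop := ∀ v : List (Fin m), v.length = w.length → v < w →
  wd a h v = 1

theorem zk (hZ : ∀ z : G, (∀ i, ⁅z, a i⁆ = 1) → z = 1) (n : ℕ) : ∀ z : G,
    (∀ t : List (Fin m), t.length = n → wd a z t = 1) → z = 1 := by
  induction n with
  | zero => intro z h; exact h [] rfl
  | succ n ih =>
    intro z h
    refine hZ z fun i => ih _ fun t ht => ?_
    exact h (i :: t) (by rw [List.length_cons, ht])

variable {a}

theorem Low.left (hZ : ∀ z : G, (∀ i, ⁅z, a i⁆ = 1) → z = 1) {h : G} {s t : List (Fin m)}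
    (hl : Low a h (s ++ t)) : Low a h s := by
  intro v hv hlt
  refine zk a hZ t.length _ fun t' ht' => ?_
  rw [← wd_append]
  exact hl _ (by rw [List.length_append, List.length_append, hv, ht']) (lt_append v s hv hlt t' t)

theorem Low.right {h : G} {s t : List (Fin m)} (hl : Low a h (s ++ t)) : Low a (wd a h s) t := by
  intro v hv hlt
  rw [← wd_append]
  exact hl _ (by rw [List.length_append, List.length_append, hv]) (append_lt s v t hlt)

variable {X : Set G} (hX : Q X) (hc : ∀ a ∈ X, ∀ b ∈ X, ⁅a, b⁆ ∈ X) (ha : ∀ i, a i ∈ X)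

include hX hc ha

omit hX in
theorem wd_mem {h : G} (hh : h ∈ X) (w : List (Fin m)) : wd a h w ∈ X := by
  induction w generalizing h with
  | nil => exact hh
  | cons i w ih => exact ih (hc _ hh _ (ha i))

theorem reg_elem (hZ : ∀ z : G, (∀ i, ⁅z, a i⁆ = 1) → z = 1) (u : List (Fin m)) (hu : Reg u) :
    ∃ x ∈ X, ∀ h ∈ X, Low a h u → ⁅h, x⁆ = wd a h u := by
  induction hu with
  | single c => exact ⟨a c, ha c, fun h _ _ => rfl⟩
  | node p q hp hq hlt ihp ihq =>
    obtain ⟨x, hx, hxw⟩ := ihp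
    obtain ⟨y, hy, hyw⟩ := ihq
    refine ⟨⁅x, y⁆, hc _ hx _ hy, fun h hh hl => ?_⟩
    have hl' : (q ++ p).length = (p ++ q).length := by
      rw [List.length_append, List.length_append, add_comm]
    have hlq : Low a h q := by
      intro v hv hvq
      refine zk a hZ p.length _ fun t' ht' => ?_
      rw [← wd_append]
      refine hl _ ?_ ((lt_append v q hv hvq t' p).trans hlt)
      rw [List.length_append, List.length_append, hv, ht', add_comm]
    have e1 : ⁅⁅h, y⁆, x⁆ = 1 := by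
      rw [hyw h hh hlq, hxw _ (wd_mem hc ha hh q), ← wd_append]
      · exact hl _ hl' hlt
      · intro v hv hvp
        rw [← wd_append]
        refine hl _ ?_ ((append_lt q v p hvp).trans hlt)
        rw [List.length_append, List.length_append, hv, add_comm]
    rw [hX.jac hh hx hy e1, hxw h hh (hl.left hZ), hyw _ (wd_mem hc ha hh p) hl.right, wd_append]

theorem trivial_of_center (hZ : ∀ z : G, (∀ i, ⁅z, a i⁆ = 1) → z = 1) (i : Fin m) : a i = 1 := by
  set P : List (Fin m) → Prop := fun w => ∃ h ∈ X, wd a h w ≠ 1 ∧ Low a h w with hP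
  have hfac : ∀ u v w : List (Fin m), P (u ++ v ++ w) → P v := by
    rintro u v w ⟨h, hh, h1, h2⟩
    have h3 := h2.left hZ
    refine ⟨wd a h u, wd_mem hc ha hh u, ?_, h3.right⟩
    intro h4
    apply h1
    rw [wd_append, wd_append, h4, wd_one]
  have hno : ¬ ∀ N : ℕ, ∃ w : List (Fin m), N ≤ w.length ∧ P w := by
    intro hlong
    obtain ⟨u, c, hu, hP3⟩ := word_lemma P hfac hlong
    obtain ⟨x, hx, hxw⟩ := reg_elem hX hc ha hZ u hu
    rcases hP3 with ⟨h, hh, h1, h2⟩ | ⟨h, hh, h1, h2⟩ | ⟨h, hh, h1, h2⟩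
    · apply h1
      rw [wd_append, ← hxw _ (wd_mem hc ha hh u) h2.right, ← hxw h hh (h2.left hZ)]
      exact commutatorElement_eq_one_iff_commute.2 (hX.c_right hh hx)
    · apply h1
      have h3 := (h2.left hZ).right
      rw [wd_append, wd_append, ← hxw _ (wd_mem hc ha hh [c]) h3]
      exact commutatorElement_eq_one_iff_commute.2 (hX.w_mid hh (ha c) hx)
    · apply h1
      rw [wd_append, ← hxw _ (wd_mem hc ha hh _) h2.right, wd_append,
        ← hxw h hh ((h2.left hZ).left hZ)]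
      exact commutatorElement_eq_one_iff_commute.2 (hX.w_mid hh hx (ha c))
  push Not at hno
  obtain ⟨N, hN⟩ := hno
  refine zk a hZ N _ fun t ht => ?_
  by_contra hne
  have hfin : {v : List (Fin m) | v.length = N ∧ wd a (a i) v ≠ 1}.Finite :=
    (List.finite_length_eq (Fin m) N).subset (fun v hv => hv.1)
  obtain ⟨v, hv, hmin⟩ := Set.exists_min_image _ id hfin ⟨t, ht, hne⟩
  refine hN v hv.1.ge ⟨a i, ha i, hv.2, fun w hw hlt => ?_⟩
  by_contra hw1
  exact absurd hlt (not_lt.2 (hmin w ⟨hw.trans hv.1, hw1⟩))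

end

/-- the union of the upper central series -/
def hyp (G : Type u) [Group G] : Subgroup G where
  carrier := {x | ∃ n, x ∈ Subgroup.upperCentralSeries G n}
  one_mem' := ⟨0, Subgroup.one_mem _⟩
  mul_mem' := by
    rintro x y ⟨n, hn⟩ ⟨m, hm⟩
    exact ⟨n + m, mul_mem (Subgroup.upperCentralSeries_mono G (Nat.le_add_right n m) hn)
      (Subgroup.upperCentralSeries_mono G (Nat.le_add_left m n) hm)⟩
  inv_mem' := by
    rintro x ⟨n, hn⟩
    exact ⟨n, inv_mem hn⟩

theorem mem_hyp {x : G} : x ∈ hyp G ↔ ∃ n, x ∈ Subgroup.upperCentralSeries G n := Iff.rfl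

instance : (hyp G).Normal := ⟨by
  rintro x ⟨n, hn⟩ g
  exact ⟨n, Subgroup.Normal.conj_mem inferInstance x hn g⟩⟩

theorem cj_map {K : Type*} [Group K] (f : G →* K) (g x : G) : f (cj g x) = cj (f g) (f x) := by
  unfold cj; rw [map_mul, map_mul, map_inv]

theorem Q.map {K : Type*} [Group K] {S : Set G} (hS : Q S) (f : G →* K)
    (hf : Function.Surjective f) : Q (f '' S) where
  one := ⟨1, hS.one, map_one f⟩
  inv := by
    rintro _ ⟨x, hx, rfl⟩
    exact ⟨x⁻¹, hS.inv x hx, map_inv f x⟩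
  norm := by
    rintro g _ ⟨x, hx, rfl⟩
    obtain ⟨g, rfl⟩ := hf g
    exact ⟨cj g x, hS.norm g x hx, cj_map f g x⟩
  com := by
    rintro _ ⟨x, hx, rfl⟩ _ ⟨y, hy, rfl⟩ _ ⟨z, hz, rfl⟩
    rw [← cj_map, ← cj_map]
    exact (hS.com x hx y hy z hz).map f

theorem bound_hyp {m : ℕ} (b : Fin m → G) (h : ∀ i, b i ∈ hyp G) :
    ∃ n, ∀ i, b i ∈ Subgroup.upperCentralSeries G n := by
  choose f hf using h
  exact ⟨∑ i, f i, fun i => Subgroup.upperCentralSeries_mono G
    (Finset.single_le_sum (f := f) (fun _ _ => Nat.zero_le _) (Finset.mem_univ i)) (hf i)⟩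

theorem mem_of_gen {m : ℕ} {a : Fin m → G} (hg : Subgroup.closure (Set.range a) = ⊤)
    {g : G} {n : ℕ} (h : ∀ i, ⁅g, a i⁆ ∈ Subgroup.upperCentralSeries G n) :
    g ∈ Subgroup.upperCentralSeries G (n + 1) := by
  rw [Subgroup.mem_upperCentralSeries_succ_iff]
  intro y
  have hy : y ∈ Subgroup.closure (Set.range a) := by rw [hg]; exact Subgroup.mem_top y
  induction hy using Subgroup.closure_induction with
  | mem x hx =>
    obtain ⟨i, rfl⟩ := hx
    exact h i
  | one => rw [commutatorElement_one_right]; exact Subgroup.one_mem _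
  | mul x y _ _ hx hy =>
    have e : ⁅g, x * y⁆ = ⁅g, x⁆ * (x * ⁅g, y⁆ * x⁻¹) := by
      rw [commutatorElement_def, commutatorElement_def, commutatorElement_def]; group
    rw [e]
    exact mul_mem hx (Subgroup.Normal.conj_mem inferInstance _ hy x)
  | inv x _ hx =>
    have e : ⁅g, x⁻¹⁆ = x⁻¹ * ⁅g, x⁆⁻¹ * x⁻¹⁻¹ := by
      rw [commutatorElement_def, commutatorElement_def]; group
    rw [e]
    exact Subgroup.Normal.conj_mem inferInstance _ (inv_mem hx) x⁻¹

/-- A group generated by finitely many elements of a set with the property `Q`, closed under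
commutators, is nilpotent. -/
theorem nilp {X : Set G} (hX : Q X) (hc : ∀ a ∈ X, ∀ b ∈ X, ⁅a, b⁆ ∈ X) {m : ℕ} {a : Fin m → G}
    (ha : ∀ i, a i ∈ X) (hg : Subgroup.closure (Set.range a) = ⊤) : Group.IsNilpotent G := by
  have hsurj : Function.Surjective (QuotientGroup.mk' (hyp G)) := QuotientGroup.mk'_surjective _
  have key : ∀ i, QuotientGroup.mk' (hyp G) (a i) = 1 := by
    refine trivial_of_center (X := QuotientGroup.mk' (hyp G) '' X)
      (a := fun i => QuotientGroup.mk' (hyp G) (a i)) (hX.map _ hsurj) ?_ ?_ ?_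
    · rintro _ ⟨x, hx, rfl⟩ _ ⟨y, hy, rfl⟩
      exact ⟨⁅x, y⁆, hc x hx y hy, map_commutatorElement _ _ _⟩
    · intro i
      exact ⟨a i, ha i, rfl⟩
    · intro z hz
      obtain ⟨g, rfl⟩ := hsurj z
      have h1 : ∀ i, ⁅g, a i⁆ ∈ hyp G := by
        intro i
        have := hz i
        rw [← map_commutatorElement] at this
        exact (QuotientGroup.eq_one_iff _).1 this
      obtain ⟨n, hn⟩ := bound_hyp _ h1
      exact (QuotientGroup.eq_one_iff _).2 ⟨n + 1, mem_of_gen hg hn⟩
  obtain ⟨n, hn⟩ := bound_hyp a fun i => (QuotientGroup.eq_one_iff _).1 (key i)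
  refine ⟨⟨n, eq_top_iff.2 ?_⟩⟩
  rw [← hg, Subgroup.closure_le]
  rintro _ ⟨i, rfl⟩
  exact hn i

end Run7.h676.SS
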