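import Pool.Agent.Run7.h676.SSb
import Pool.Agent.Run7.h676.LF

/-!
# Sets with the property `Q` in periodic groups generate locally finite subgroups
-/

set_option autoImplicit false

namespace Run7.h676.SS

open scoped commutatorElement

universe u

/-- the group is periodic -/
def Per (G : Type u) [Group G] : Prop := ∀ g : G, ∃ n : ℕ, 0 < n ∧ g ^ n = 1

theorem Per.map {G : Type u} [Group G] (h : Per G) {K : Type*} [Group K] (f : G →* K)
    (hf : Function.Surjective f) : Per K := by
  intro k
  obtain ⟨g, rfl⟩ := hf k
  obtain ⟨n, hn, hg⟩ := h g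
  exact ⟨n, hn, by rw [← map_pow, hg, map_one]⟩

theorem Per.sub {G : Type u} [Group G] (h : Per G) (H : Subgroup G) : Per H := by
  intro k
  obtain ⟨n, hn, hg⟩ := h (k : G)
  exact ⟨n, hn, Subtype.ext (by rw [Subgroup.coe_pow, hg]; rfl)⟩

/-- periodic nilpotent groups are locally finite -/
theorem LF_of_nilp (G : Type u) [Group G] [Group.IsNilpotent G] (ht : Per G) :
    LF (⊤ : Subgroup G) := by
  revert ht
  refine Group.nilpotent_center_quotient_ind
    (P := fun (G : Type u) [Group G] _ => Per G → LF (⊤ : Subgroup G)) G ?_ ?_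
  · intro G _ _ _ s _
    exact Set.toFinite _
  · intro G _ _ ih ht
    refine LF.ext (QuotientGroup.mk' (Subgroup.center G)) (A := Subgroup.center G) ?_
      (fun g _ h => (QuotientGroup.eq_one_iff g).1 h)
      ((ih (ht.map _ (QuotientGroup.mk'_surjective _))).mono le_top)
    have := LF_of_comm (Subgroup.center G : Set G)
      (fun x _ y hy => (Subgroup.mem_center_iff.1 hy x)) ht
    rwa [Subgroup.closure_eq] at this

variable {G : Type u} [Group G]

theorem exists_fin {S : Set G} {x : G} (hx : x ∈ Subgroup.closure S) :
    ∃ T : Finset G, (T : Set G) ⊆ S ∧ x ∈ Subgroup.closure (T : Set G) := by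
  classical
  induction hx using Subgroup.closure_induction with
  | mem x hx =>
    exact ⟨{x}, by simpa using hx, Subgroup.subset_closure (by simp)⟩
  | one => exact ⟨∅, by simp, Subgroup.one_mem _⟩
  | mul x y _ _ hx hy =>
    obtain ⟨T, hT, hxT⟩ := hx
    obtain ⟨U, hU, hyU⟩ := hy
    refine ⟨T ∪ U, by rw [Finset.coe_union]; exact Set.union_subset hT hU, ?_⟩
    rw [Finset.coe_union]
    exact mul_mem (Subgroup.closure_mono Set.subset_union_left hxT)
      (Subgroup.closure_mono Set.subset_union_right hyU)
  | inv x _ hx =>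
    obtain ⟨T, hT, hxT⟩ := hx
    exact ⟨T, hT, inv_mem hxT⟩

theorem exists_fin' {S : Set G} (s : Finset G) (hs : (s : Set G) ⊆ Subgroup.closure S) :
    ∃ T : Finset G, (T : Set G) ⊆ S ∧ (s : Set G) ⊆ Subgroup.closure (T : Set G) := by
  classical
  induction s using Finset.induction_on with
  | empty => exact ⟨∅, by simp, by simp⟩
  | insert a s _ ih =>
    rw [Finset.coe_insert, Set.insert_subset_iff] at hs
    obtain ⟨T, hT, hsT⟩ := ih hs.2
    obtain ⟨U, hU, haU⟩ := exists_fin hs.1
    refine ⟨T ∪ U, by rw [Finset.coe_union]; exact Set.union_subset hT hU, ?_⟩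
    rw [Finset.coe_insert, Finset.coe_union, Set.insert_subset_iff]
    exact ⟨Subgroup.closure_mono Set.subset_union_right haU,
      fun y hy => Subgroup.closure_mono Set.subset_union_left (hsT hy)⟩

/-- the property `Q` in a subgroup -/
theorem Q.sub {X : Set G} (hX : Q X) (H : Subgroup G) : Q {x : H | (x : G) ∈ X} where
  one := by rw [Set.mem_ofPred_eq, Subgroup.coe_one]; exact hX.one
  inv := by
    intro x hx
    rw [Set.mem_ofPred_eq, Subgroup.coe_inv]; exact hX.inv _ hx
  norm := by
    intro g x hx
    exact hX.norm (g : G) x hx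
  com := by
    intro x hx y hy z hz
    have h := hX.com (x : G) hx (y : G) hy (z : G) hz
    exact Subtype.ext h

/-- In a periodic group a set with the property `Q` generates a locally finite subgroup. -/
theorem Q.locFin {S : Set G} (hS : Q S) (ht : Per G) : LF (Subgroup.closure S) := by
  classical
  intro s hs
  obtain ⟨T, hT, hsT⟩ := exists_fin' s hs
  set H := Subgroup.closure (T : Set G) with hH
  have hX := hS.clo.sub H
  let e := T.equivFin
  let a : Fin T.card → H := fun i => ⟨(e.symm i : G), Subgroup.subset_closure (e.symm i).2⟩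
  have hra : Subgroup.closure (Set.range a) = ⊤ := by
    have e1 : (Set.range a) = ((↑) : H → G) ⁻¹' (T : Set G) := by
      ext x
      constructor
      · rintro ⟨i, rfl⟩
        exact (e.symm i).2
      · intro hx
        exact ⟨e ⟨(x : G), hx⟩, by simp [a]⟩
    rw [e1]
    exact Subgroup.closure_closure_coe_preimage
  have hn : Group.IsNilpotent H := nilp hX (fun x hx y hy => comm_mem_Cl hx hy)
    (a := a) (fun i => subset_Cl S (hT (e.symm i).2)) hra
  have hf : LF (⊤ : Subgroup H) := LF_of_nilp H (ht.sub H)
  have hfin : (H : Set G).Finite := by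
    have h1 := hf (Finset.univ.image a) (fun _ _ => trivial)
    rw [Finset.coe_image, Finset.coe_univ, Set.image_univ, hra] at h1
    have h2 : Finite H := Set.finite_univ_iff.1 (by rwa [Subgroup.coe_top] at h1)
    exact Set.toFinite _
  exact hfin.subset ((Subgroup.closure_le H).2 hsT)

/-- A set with the property `Q` in a periodic group is contained in the radical. -/
theorem Q.le_rad {S : Set G} (hS : Q S) (ht : Per G) : S ⊆ rad G := by
  have hn : (Subgroup.closure S).Normal := by
    refine ⟨fun n hn g => ?_⟩
    induction hn using Subgroup.closure_induction with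
    | mem x hx => exact Subgroup.subset_closure (hS.norm g x hx)
    | one => simp
    | mul x y _ _ hx hy =>
      have : g * (x * y) * g⁻¹ = (g * x * g⁻¹) * (g * y * g⁻¹) := by group
      rw [this]; exact mul_mem hx hy
    | inv x _ hx =>
      have : g * x⁻¹ * g⁻¹ = (g * x * g⁻¹)⁻¹ := by group
      rw [this]; exact inv_mem hx
  exact fun x hx => Run7.h676.le_rad hn (hS.locFin ht) (Subgroup.subset_closure hx)

end Run7.h676.SS
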