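import Pool.Agent.Run7.h676.SSc

/-!
# Left 3-Engel elements of periodic groups without involutions

`E3 a` : for all `g` the commutator `⁅a, g * a * g⁻¹⁆` commutes with `a` (then `a` and
`g * a * g⁻¹` generate a subgroup of class at most two).  If the group has no involutions, the
powers of the conjugates of `a` have the property `Q`.
-/

set_option autoImplicit false

namespace Run7.h676.SS

open scoped commutatorElement

universe u

variable {G : Type u} [Group G]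

theorem cz1 {x y : G} (h1 : Commute ⁅x, y⁆ x) (h2 : Commute ⁅x, y⁆ y) (n : ℤ) :
    ⁅x ^ n, y⁆ = ⁅x, y⁆ ^ n := by
  have e1 : cj y⁻¹ x = ⁅x, y⁆ * x := by
    have : cj y⁻¹ x = y⁻¹ * (⁅x, y⁆ * y) * x := by
      rw [commutatorElement_def]; unfold cj; group
    rw [this, h2.eq]; group
  have e2 : cj y⁻¹ (x ^ n) = ⁅x, y⁆ ^ n * x ^ n := by
    have : cj y⁻¹ (x ^ n) = (cj y⁻¹ x) ^ n := by
      unfold cj; rw [inv_inv]
      have := conj_zpow (i := n) (a := y⁻¹) (b := x)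
      rw [inv_inv] at this
      exact this.symm
    rw [this, e1, h1.mul_zpow]
  have e3 : x ^ n * y = y * (⁅x, y⁆ ^ n * x ^ n) := by
    rw [← e2]; unfold cj; group
  rw [commutatorElement_def (x ^ n) y, e3, ← mul_assoc, (h2.symm.zpow_right n).eq]
  group

/-- powers of conjugates -/
def Sg (a : G) : Set G := {x | ∃ g : G, ∃ n : ℤ, x = cj g a ^ n}

def E3 (a : G) : Prop := ∀ g : G, Commute ⁅a, cj g a⁆ a

theorem comm_swap {x y z : G} (h : Commute ⁅x, y⁆ z) : Commute ⁅y, x⁆ z := by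
  rw [← commutatorElement_inv]; exact h.inv_left

theorem cj_zpow (g x : G) (n : ℤ) : cj g (x ^ n) = cj g x ^ n := by
  unfold cj; rw [conj_zpow]

theorem E3.left {a : G} (h : E3 a) (g k : G) : Commute ⁅cj g a, cj k a⁆ (cj g a) := by
  have := cj_commute (h (g⁻¹ * k)) g
  rwa [cj_comm, cj_cj, mul_inv_cancel_left] at this

theorem E3.right {a : G} (h : E3 a) (g k : G) : Commute ⁅cj g a, cj k a⁆ (cj k a) :=
  comm_swap (h.left k g)

theorem E3.conj {a : G} (h : E3 a) (g : G) : E3 (cj g a) := by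
  intro k
  rw [cj_cj]; exact h.left g (k * g)

namespace E3

variable {a : G} (h : E3 a)

include h

theorem u_pow {g : G} (n : ℤ) : ⁅cj g a ^ n, a⁆ = ⁅cj g a, a⁆ ^ n := by
  have h1 := h.left g 1
  have h2 := h.right g 1
  rw [cj_one] at h1 h2
  exact cz1 h1 h2 n

/-- `⁅y, a⁆` commutes with `a` for `y ∈ Sg a` -/
theorem ca {y : G} (hy : y ∈ Sg a) : Commute ⁅y, a⁆ a := by
  obtain ⟨g, n, rfl⟩ := hy
  rw [h.u_pow]
  have h2 := h.right g 1
  rw [cj_one] at h2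
  exact h2.zpow_left n

theorem cy {y : G} (hy : y ∈ Sg a) : Commute ⁅y, a⁆ y := by
  obtain ⟨g, n, rfl⟩ := hy
  rw [h.u_pow]
  have h2 := h.left g 1
  rw [cj_one] at h2
  exact (h2.zpow_left n).zpow_right n

theorem D_eq {y z : G} (hy : y ∈ Sg a) (hz : z ∈ Sg a) :
    ⁅cj y a, cj z a⁆ = ⁅⁅y, a⁆, ⁅z, a⁆⁆ := by
  have h1 := h.ca hy
  have h2 := h.ca hz
  have e1 : cj y a = ⁅y, a⁆ * a := by rw [comm_eq']; group
  have e2 : cj z a = ⁅z, a⁆ * a := by rw [comm_eq']; group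
  rw [e1, e2]
  generalize ⁅y, a⁆ = u at h1
  generalize ⁅z, a⁆ = v at h2
  rw [commutatorElement_def, commutatorElement_def]
  have e3 : u * a * (v * a) * (u * a)⁻¹ * (v * a)⁻¹ = u * (a * v) * (u⁻¹ * a⁻¹)⁻¹⁻¹ * v⁻¹ := by
    calc u * a * (v * a) * (u * a)⁻¹ * (v * a)⁻¹ = u * (a * v) * (u⁻¹ * a⁻¹) * v⁻¹ := by group
      _ = _ := by group
  rw [e3, ← h2.eq, (h1.inv_left.inv_right).eq]
  group

theorem Da {y z : G} (hy : y ∈ Sg a) (hz : z ∈ Sg a) : Commute ⁅cj y a, cj z a⁆ a := by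
  have h1 := h.ca hy
  have h2 := h.ca hz
  rw [h.D_eq hy hz, commutatorElement_def]
  exact (((h1.mul_left h2).mul_left h1.inv_left).mul_left h2.inv_left)

theorem Du {y z : G} (hy : y ∈ Sg a) (hz : z ∈ Sg a) : Commute ⁅cj y a, cj z a⁆ ⁅y, a⁆ := by
  have h1 := h.left y z
  rw [comm_eq' y a]
  exact h1.mul_right (h.Da hy hz).inv_right

theorem Dv {y z : G} (hy : y ∈ Sg a) (hz : z ∈ Sg a) : Commute ⁅cj y a, cj z a⁆ ⁅z, a⁆ := by
  have h1 := h.right y z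
  rw [comm_eq' z a]
  exact h1.mul_right (h.Da hy hz).inv_right

omit h in
theorem pow_mem {y : G} (hy : y ∈ Sg a) (n : ℤ) : y ^ n ∈ Sg a := by
  obtain ⟨g, m, rfl⟩ := hy
  exact ⟨g, m * n, by rw [zpow_mul]⟩

omit h in
theorem cj_mem {y : G} (hy : y ∈ Sg a) (g : G) : cj g y ∈ Sg a := by
  obtain ⟨k, m, rfl⟩ := hy
  exact ⟨g * k, m, by rw [cj_zpow, cj_cj]⟩

theorem D_pow {y z : G} (hy : y ∈ Sg a) (hz : z ∈ Sg a) (n : ℤ) :
    ⁅cj (y ^ n) a, cj z a⁆ = ⁅cj y a, cj z a⁆ ^ n := by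
  rw [h.D_eq (pow_mem hy n) hz, cz1 (h.cy hy) (h.ca hy) n, cz1, ← h.D_eq hy hz]
  · rw [← h.D_eq hy hz]; exact h.Du hy hz
  · rw [← h.D_eq hy hz]; exact h.Dv hy hz

theorem D_pow' {y z : G} (hy : y ∈ Sg a) (hz : z ∈ Sg a) (n : ℤ) :
    ⁅cj y a, cj (z ^ n) a⁆ = ⁅cj y a, cj z a⁆ ^ n := by
  rw [← commutatorElement_inv, h.D_pow hz hy, ← inv_zpow, commutatorElement_inv]

theorem D_star {y z : G} (hy : y ∈ Sg a) (hz : z ∈ Sg a) :
    ⁅cj (cj z y) a, cj z a⁆ = cj (z * y) ⁅cj y a, cj z a⁆⁻¹ := by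
  have h1 : ⁅cj y⁻¹ a, cj z⁻¹ a⁆ = ⁅cj y a, cj z a⁆ := by
    have e1 := h.D_pow hy (pow_mem hz (-1)) (-1)
    have e2 := h.D_pow' hy hz (-1)
    rw [e2, ← zpow_mul] at e1
    rw [zpow_neg_one, zpow_neg_one] at e1
    rw [e1]
    norm_num
  have h2 : cj y ⁅cj y⁻¹ a, cj z⁻¹ a⁆ = ⁅a, cj (y * z⁻¹) a⁆ := by
    rw [cj_comm, cj_cj, cj_cj, mul_inv_cancel, cj_one]
  have h3 : ⁅cj (cj z y) a, cj z a⁆ = cj z ⁅a, cj (y * z⁻¹) a⁆⁻¹ := by
    rw [commutatorElement_inv, cj_comm, cj_cj]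
    have : cj z y = z * (y * z⁻¹) := by unfold cj; group
    rw [this]
  rw [h3, ← h2, h1, ← cj_inv, cj_cj]

theorem D_eight {y z : G} (hy : y ∈ Sg a) (hz : z ∈ Sg a) : ⁅cj y a, cj z a⁆ ^ (8 : ℤ) = 1 := by
  have key : ∀ y : G, y ∈ Sg a → cj y (⁅cj y a, cj z a⁆ ^ (2 : ℤ)) = ⁅cj y a, cj z a⁆ ^ (-2 : ℤ) := by
    intro y hy
    have hz2 : z ^ (2 : ℤ) ∈ Sg a := pow_mem hz 2
    have e1 := h.D_star hy hz2
    have e2 := h.D_star (cj_mem hy z) hz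
    rw [h.D_star hy hz, cj_cj] at e2
    rw [h.D_pow' (cj_mem hy _) hz, h.D_pow' hy hz] at e1
    have e4 : z * z = z ^ (2 : ℤ) := (zpow_two z).symm
    rw [e4] at e2
    rw [e2] at e1
    generalize ⁅cj y a, cj z a⁆ = D at e1
    have e5 : z * cj z y * (z * y) = z ^ (2 : ℤ) * y * y := by rw [zpow_two]; unfold cj; group
    rw [cj_inv (z * y), inv_inv, ← cj_zpow, ← cj_zpow, cj_cj, e5] at e1
    have e6 := congrArg (cj (z ^ (2 : ℤ) * y)⁻¹) e1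
    rw [cj_cj, cj_cj, inv_mul_cancel, cj_one] at e6
    have e7 : (z ^ (2 : ℤ) * y)⁻¹ * (z ^ (2 : ℤ) * y * y) = y := by group
    rw [e7] at e6
    rw [e6]; group
  have h1 := key y hy
  have h2 := key _ (pow_mem hy 2)
  rw [h.D_pow hy hz] at h2
  generalize ⁅cj y a, cj z a⁆ = D at h1 h2
  have e1 : cj (y ^ (2 : ℤ)) ((D ^ (2 : ℤ)) ^ (2 : ℤ)) = (D ^ (2 : ℤ)) ^ (2 : ℤ) := by
    have : y ^ (2 : ℤ) = y * y := zpow_two y
    rw [this, ← cj_cj, cj_zpow, h1, cj_zpow]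
    have e2 : cj y (D ^ (-2 : ℤ)) = D ^ (2 : ℤ) := by
      have : D ^ (-2 : ℤ) = (D ^ (2 : ℤ))⁻¹ := by group
      rw [this, cj_inv, h1]; group
    rw [e2]
  rw [e1] at h2
  calc D ^ (8 : ℤ) = (D ^ (2 : ℤ)) ^ (2 : ℤ) * ((D ^ (2 : ℤ)) ^ (-2 : ℤ))⁻¹ := by group
    _ = 1 := by rw [h2]; group

end E3

/-- every element has odd order -/
def OddPer (G : Type u) [Group G] : Prop := ∀ g : G, ∃ n : ℕ, Odd n ∧ g ^ n = 1

theorem OddPer.per (h : OddPer G) : Per G := by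
  intro g
  obtain ⟨n, hn, hg⟩ := h g
  exact ⟨n, hn.pos, hg⟩

theorem OddPer.map (h : OddPer G) {K : Type*} [Group K] (f : G →* K)
    (hf : Function.Surjective f) : OddPer K := by
  intro k
  obtain ⟨g, rfl⟩ := hf k
  obtain ⟨n, hn, hg⟩ := h g
  exact ⟨n, hn, by rw [← map_pow, hg, map_one]⟩

theorem OddPer.eight (h : OddPer G) {d : G} (h8 : d ^ (8 : ℤ) = 1) : d = 1 := by
  obtain ⟨n, hn, hd⟩ := h d
  have h8' : d ^ 8 = 1 := by
    have : d ^ (8 : ℤ) = d ^ 8 := by norm_cast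
    rw [← this]; exact h8
  have h1 : orderOf d ∣ 8 := orderOf_dvd_of_pow_eq_one h8'
  have h2 : orderOf d ∣ n := orderOf_dvd_of_pow_eq_one hd
  have h3 : Nat.Coprime 8 n := by
    have : Nat.Coprime (2 ^ 3) n := Nat.Coprime.pow_left 3 (Nat.coprime_two_left.2 hn)
    norm_num at this
    exact this
  have h4 : orderOf d ∣ 1 := by
    rw [← Nat.Coprime.gcd_eq_one h3]
    exact Nat.dvd_gcd h1 h2
  exact orderOf_eq_one_iff.1 (Nat.dvd_one.1 h4)

theorem E3.Q {a : G} (h : E3 a) (ho : OddPer G) : Q (Sg a) where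
  one := ⟨1, 0, by rw [zpow_zero]⟩
  inv := by
    rintro _ ⟨g, n, rfl⟩
    exact ⟨g, -n, by rw [zpow_neg]⟩
  norm := fun g _ hx => E3.cj_mem hx g
  com := by
    rintro _ ⟨g, n, rfl⟩ y hy z hz
    rw [cj_zpow, cj_zpow]
    refine Commute.zpow_zpow ?_ n n
    have hy' : cj g⁻¹ y ∈ Sg a := E3.cj_mem hy _
    have hz' : cj g⁻¹ z ∈ Sg a := E3.cj_mem hz _
    have h1 : Commute (cj (cj g⁻¹ y) a) (cj (cj g⁻¹ z) a) :=
      commutatorElement_eq_one_iff_commute.1 (ho.eight (h.D_eight hy' hz'))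
    have h2 := cj_commute h1 g
    rw [cj_cj, cj_cj] at h2
    rw [cj_cj, cj_cj]
    have e : ∀ w : G, g * cj g⁻¹ w = w * g := by intro w; unfold cj; group
    rw [e, e] at h2
    exact h2

/-- Left 3-Engel elements of a periodic group without involutions lie in the radical. -/
theorem E3.mem_rad {a : G} (h : E3 a) (ho : OddPer G) : a ∈ rad G :=
  (h.Q ho).le_rad ho.per ⟨1, 1, by rw [cj_one, zpow_one]⟩

/-- A left 3-Engel element modulo the radical is in the radical. -/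
theorem mem_rad_of_E3 {a : G} (h : ∀ g : G, ⁅⁅a, cj g a⁆, a⁆ = 1) (ho : OddPer G) : a ∈ rad G :=
  E3.mem_rad (fun g => commutatorElement_eq_one_iff_commute.1 (h g)) ho

end Run7.h676.SS
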