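import Pool.Agent.Run7.h676.SSd
import Pool.Agent.Run7.h676.Lcs

/-!
# Iterated commutators and local finiteness
-/

set_option autoImplicit false

namespace Run7.h676.SS

open scoped commutatorElement

universe u v

variable {G : Type u} [Group G]

/-- `W x [y_k, …, y_1]` : `w_0 = x`, `w_(j+1) = ⁅⁅w_j, y w_j y⁻¹⁆, w_j⁆` with `y = y_(j+1)` -/
def W (x : G) : List G → G
  | [] => x
  | y :: l => ⁅⁅W x l, cj y (W x l)⁆, W x l⁆

theorem W_nil (x : G) : W x [] = x := rfl

theorem W_cons (x y : G) (l : List G) :
    W x (y :: l) = ⁅⁅W x l, cj y (W x l)⁆, W x l⁆ := rfl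

theorem W_map {K : Type v} [Group K] (f : G →* K) (x : G) (l : List G) :
    f (W x l) = W (f x) (l.map f) := by
  induction l with
  | nil => rfl
  | cons y l ih =>
    rw [List.map_cons, W_cons, W_cons, map_commutatorElement, map_commutatorElement, cj_map, ih]

/-- descent along the words `W` -/
theorem W_desc (hr : ∀ a : G, E3 a → a = 1) (x : G) (k : ℕ)
    (h : ∀ l : List G, l.length = k → W x l = 1) : x = 1 := by
  induction k with
  | zero => exact h [] rfl
  | succ k ih =>
    refine ih fun l hl => hr _ fun y => ?_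
    have := h (y :: l) (by rw [List.length_cons, hl])
    rw [W_cons] at this
    exact commutatorElement_eq_one_iff_commute.1 this

theorem rad_E3 (ho : OddPer G) (a : G ⧸ rad G) (ha : E3 a) : a = 1 := by
  have ho' : OddPer (G ⧸ rad G) := ho.map _ (QuotientGroup.mk'_surjective (rad G))
  have h1 := ha.mem_rad ho'
  have h2 := rad_quot (rad (G ⧸ rad G)) inferInstance rad_LF
  rw [h2] at h1
  exact Subgroup.mem_bot.1 h1

/-- Criterion: a periodic group without involutions which satisfies the law `w_k = 1` is locally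
finite. -/
theorem LF_of_W (ho : OddPer G) (k : ℕ) (h : ∀ x : G, ∀ l : List G, l.length = k → W x l = 1) :
    LF (⊤ : Subgroup G) := by
  refine LF_top_of_quot fun q => ?_
  refine W_desc (rad_E3 ho) q k fun l hl => ?_
  obtain ⟨x, rfl⟩ := QuotientGroup.mk'_surjective (rad G) q
  obtain ⟨l', rfl⟩ : ∃ l' : List G, l'.map (QuotientGroup.mk' (rad G)) = l := by
    clear hl
    induction l with
    | nil => exact ⟨[], rfl⟩
    | cons y l ih =>
      obtain ⟨l', rfl⟩ := ih
      obtain ⟨y, rfl⟩ := QuotientGroup.mk'_surjective (rad G) y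
      exact ⟨y :: l', rfl⟩
  rw [List.length_map] at hl
  rw [← W_map, h x l' hl, map_one]

/-- The iteration of the third term of the lower central series. -/
def T (N : Subgroup G) : ℕ → Subgroup G
  | 0 => N
  | j + 1 => ⁅⁅T N j, T N j⁆, T N j⁆

theorem T_zero (N : Subgroup G) : T N 0 = N := rfl

theorem T_succ (N : Subgroup G) (j : ℕ) : T N (j + 1) = ⁅⁅T N j, T N j⁆, T N j⁆ := rfl

instance T_normal (N : Subgroup G) [hN : N.Normal] (j : ℕ) : (T N j).Normal := by
  induction j with
  | zero => exact hN
  | succ j ih => rw [T_succ]; infer_instance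

theorem W_mem (N : Subgroup G) [N.Normal] {x : G} (hx : x ∈ N) (l : List G) :
    W x l ∈ T N l.length := by
  induction l with
  | nil => exact hx
  | cons y l ih =>
    rw [W_cons, List.length_cons, T_succ]
    exact Subgroup.commutator_mem_commutator
      (Subgroup.commutator_mem_commutator ih ((T_normal N _).conj_mem _ ih y)) ih

theorem T_le (N : Subgroup G) (j : ℕ) : T N j ≤ N.lowerCentralSeries (3 ^ j - 1) := by
  induction j with
  | zero => exact le_refl _
  | succ j ih =>
    rw [T_succ]
    have e : 3 ^ (j + 1) - 1 = (3 ^ j - 1 + (3 ^ j - 1) + 1) + (3 ^ j - 1) + 1 := by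
      have : 0 < 3 ^ j := by positivity
      rw [pow_succ]; omega
    rw [e]
    exact (Subgroup.commutator_mono ((Subgroup.commutator_mono ih ih).trans (comm_lcs N _ _)) ih).trans
      (comm_lcs N _ _)

end Run7.h676.SS
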