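import Pool.Agent.Run7.h676.Cert3
import Pool.Agent.Run7.h676.Eight
import Pool.Agent.Run7.h676.StarT

/-!
# 3-groups in which the 2-generated subgroups have class at most seven
-/

set_option autoImplicit false

namespace Run7.h676

open scoped commutatorElement

universe u v

namespace Dat

variable {T : Type*} [Group T] (D : Dat T)

/-- the elements of weight at least seven are trivial -/
structure Cut : Prop where
  c5 : D.c5 = 1
  c6 : D.c6 = 1
  f03 : D.f03 = 1
  f12 : D.f12 = 1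
  f04 : D.f04 = 1
  f13 : D.f13 = 1
  e0 : D.e0 = 1
  e1 : D.e1 = 1
  e2 : D.e2 = 1

theorem Cut.ev_cut {D : Dat T} (h : D.Cut) (v : V) : D.ev (V.cut v) = D.ev v := by
  unfold ev evZ V.cut V.zero
  simp [h.c5, h.c6, h.f03, h.f12, h.f04, h.f13, h.e0, h.e1, h.e2]

theorem ev_itA {D : Dat T} {N : ℕ} (hN : ∀ g : T, g ^ N = 1) (S : Shift D) (v : V) (i : ℕ) :
    D.ev (V.itA N i v) = (S.α)^[i] (D.ev v) := by
  induction i with
  | zero => rfl
  | succ i ih => rw [V.itA, ev_red hN, ← ev_alpha S, ih, Function.iterate_succ_apply']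

end Dat

section

variable {H : Type u} [Group H]

theorem cjx_iterate (x : H) (t : L H 1) (i : ℕ) :
    (((cjx x)^[i] t : L H 1) : H) = (x ^ i)⁻¹ * t * x ^ i := by
  induction i with
  | zero =>
    rw [pow_zero, inv_one, one_mul, mul_one]
    rfl
  | succ i ih =>
    rw [Function.iterate_succ_apply']
    change x⁻¹ * (((cjx x)^[i] t : L H 1) : H) * x = _
    rw [ih, pow_succ]; group

theorem dat_cut (h8 : L H 8 = ⊥) (h6 : L H 6 = ⊥) (x y : H) : (dat h8 x y).Cut := by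
  have key : ∀ {i : ℕ} (a : H) (ha : a ∈ L H i) (hi : 6 ≤ i), mkc h8 a ha hi = 1 := by
    intro i a ha hi
    apply Subtype.ext
    apply Subtype.ext
    have h := L_le hi ha
    rw [h6, Subgroup.mem_bot] at h
    exact h
  exact ⟨key _ _ (by omega), key _ _ (by omega), key _ _ (by omega), key _ _ (by omega),
    key _ _ (by omega), key _ _ (by omega), key _ _ (by omega), key _ _ (by omega),
    key _ _ (by omega)⟩

theorem main_aux3 (h6 : L H 6 = ⊥) (x y : H) (n : ℕ) (hexp : ∀ g : H, g ^ (3 * n) = 1)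
    (P : List Ins) (fin : List ℕ) (v w d : V) (hv : V.S (3 * n) (3 * n) = v)
    (hw : V.S (3 * n) n = w) (hr : run (3 * n) [v] P fin d = true)
    (hc : V.cut (V.itA (3 * n) n w) = V.cut (V.red (3 * n) (d.mul w))) :
    Commute (x ^ n) (y⁻¹ * x ^ n * y) := by
  have h8 : L H 8 = ⊥ := eq_bot_iff.2 (((⊤ : Subgroup H).lowerCentralSeries_antitone
    (by omega : 6 ≤ 8)).trans h6.le)
  have hT : ∀ g : L H 1, g ^ (3 * n) = 1 := fun g => Subtype.ext (by
    rw [Subgroup.coe_pow, hexp]; rfl)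
  have e0 : y⁻¹ * x * y = x * tt x y 0 := by
    change y⁻¹ * x * y = x * cm x y
    unfold cm; group
  have e1 : y⁻¹ * x ^ n * y = (y⁻¹ * x * y) ^ n := by
    have := conj_pow (i := n) (a := y⁻¹) (b := x)
    rw [inv_inv] at this
    exact this.symm
  have hN : Dat.sq (cjx x) (dat h8 x y).t0 (3 * n) = 1 := by
    apply Subtype.ext
    have h := pow_sq x (dat h8 x y).t0 (3 * n)
    rw [hexp, hexp, one_mul] at h
    exact h.symm
  have hd : (dat h8 x y).ev d = 1 := by
    refine Dat.run_sound hT (shift h8 x y) P [v] ?_ fin _ hr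
    intro u hu
    rw [List.mem_singleton.1 hu, ← hv, Dat.ev_S hT (shift h8 x y)]
    exact hN
  have hcut := dat_cut h8 h6 x y
  have h2 : (cjx x)^[n] (Dat.sq (cjx x) (dat h8 x y).t0 n) = Dat.sq (cjx x) (dat h8 x y).t0 n := by
    have e2 := Dat.ev_S hT (shift h8 x y) n
    rw [hw] at e2
    have e3 : (dat h8 x y).ev w = Dat.sq (cjx x) (dat h8 x y).t0 n := e2
    have e4 := Dat.ev_itA hT (shift h8 x y) w n
    rw [e3] at e4
    have e5 : (shift h8 x y).α = cjx x := rfl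
    rw [e5] at e4
    rw [← e4, ← hcut.ev_cut, hc, hcut.ev_cut, Dat.ev_red hT, Dat.ev_mul, hd, one_mul, e3]
  have h3 := congrArg Subtype.val h2
  have h3' : (((cjx x)^[n] (Dat.sq (cjx x) (dat h8 x y).t0 n) : L H 1) : H) =
      ((Dat.sq (cjx x) (dat h8 x y).t0 n : L H 1) : H) := h3
  rw [cjx_iterate] at h3'
  have h4 := pow_sq x (dat h8 x y).t0 n
  have h5 : (x * ((dat h8 x y).t0 : H)) = y⁻¹ * x * y := e0.symm
  rw [h5, ← e1] at h4
  rw [h4]
  generalize ((Dat.sq (cjx x) (dat h8 x y).t0 n : L H 1) : H) = s at h3'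
  change x ^ n * (x ^ n * s) = x ^ n * s * x ^ n
  rw [mul_assoc (x ^ n) s]
  congr 1
  calc x ^ n * s = x ^ n * ((x ^ n)⁻¹ * s * x ^ n) := by rw [h3']
    _ = s * x ^ n := by group

end

section

variable {G : Type u} [Group G]

/-- For an element `v` with `v ^ 3 = 1`, the elements `x ^ 3 ^ j` and `v` commute modulo deep terms
of the lower central series. -/
theorem crude3 {S : Subgroup G} {x v : G} (hx : x ∈ S) (hv : v ∈ S) (h3 : v * v * v = 1) (j : ℕ) :
    ⁅x ^ 3 ^ j, v⁆ ∈ S.lowerCentralSeries (j + 1) := by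
  induction j with
  | zero =>
    rw [pow_zero, pow_one]
    exact Subgroup.commutator_mem_commutator hx hv
  | succ j ih =>
    have hu : x ^ 3 ^ j ∈ S := S.pow_mem hx _
    have e : x ^ 3 ^ (j + 1) = x ^ 3 ^ j * x ^ 3 ^ j * x ^ 3 ^ j := by
      rw [pow_succ, pow_mul, pow_succ, pow_two]
    rw [e]
    generalize x ^ 3 ^ j = u at ih hu
    have hN := conj_lcs S (j + 1 + 1)
    have key : ∀ s ∈ S, ⁅s, ⁅u, v⁆⁆ ∈ S.lowerCentralSeries (j + 1 + 1) := by
      intro s hs
      have h1 := Subgroup.commutator_mem_commutator ih hs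
      rw [← commutatorElement_inv]
      exact inv_mem h1
    have hw : ⁅u, v⁆ ∈ S := S.lowerCentralSeries_le_self _ ih
    generalize hwd : ⁅u, v⁆ = w at key hw
    have hw3 : w * w * w ∈ S.lowerCentralSeries (j + 1 + 1) := by
      have e1 : w * (⁅v, w⁆ * w) * (⁅v * v, w⁆ * w) = 1 := by
        have e2 : u * (v * v * v) * u⁻¹ * (v * v * v)⁻¹ = 1 := by rw [h3]; group
        rw [← e2, ← hwd]
        simp only [commutatorElement_def]; group
      have e3 : w * w * w = ((w * ⁅v, w⁆ * w⁻¹) * ((w * w) * ⁅v * v, w⁆ * (w * w)⁻¹))⁻¹ := by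
        rw [eq_comm, inv_eq_iff_mul_eq_one, ← e1]; group
      rw [e3]
      exact inv_mem (mul_mem (hN w hw _ (key v hv)) (hN _ (mul_mem hw hw) _ (key _ (mul_mem hv hv))))
    have e4 : ⁅u * u * u, v⁆ = ⁅u * u, w⁆ * (w * ⁅u, w⁆ * w⁻¹) * (w * w * w) := by
      rw [← hwd]
      simp only [commutatorElement_def]; group
    rw [e4]
    exact mul_mem (mul_mem (key _ (mul_mem hu hu)) (hN w hw _ (key u hu))) hw3

theorem cube {z : G} (h : z ^ 3 = 1) : z * z * z = 1 := by rw [← h, pow_succ, pow_two]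

theorem conj_cube {z y : G} (h : z ^ 3 = 1) :
    (y⁻¹ * z * y) * (y⁻¹ * z * y) * (y⁻¹ * z * y) = 1 := by
  have e : (y⁻¹ * z * y) * (y⁻¹ * z * y) * (y⁻¹ * z * y) = y⁻¹ * (z * z * z) * y := by group
  rw [e, cube h]; group

/-- In exponent three every element commutes with its conjugates. -/
theorem exp_three (h : ∀ g : G, g ^ 3 = 1) (x y : G) : Commute x (y⁻¹ * x * y) := by
  have h1 := cube (h (x * y⁻¹))
  have h2 := cube (h (x * y))
  have h3 := cube (h y)
  have hy : y * y = y⁻¹ := by rw [eq_comm, inv_eq_iff_mul_eq_one, ← h3]; group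
  change x * (y⁻¹ * x * y) = (y⁻¹ * x * y) * x
  have e1 : x * y⁻¹ * x = y * x⁻¹ * y := by
    have : x * y⁻¹ * x * (y⁻¹ * x * y⁻¹) = 1 := by rw [← h1]; group
    rw [mul_eq_one_iff_eq_inv] at this
    rw [this]; group
  have e2 : x * y * x = y⁻¹ * x⁻¹ * y⁻¹ := by
    have : x * y * x * (y * x * y) = 1 := by rw [← h2]; group
    rw [mul_eq_one_iff_eq_inv] at this
    rw [this]; group
  calc x * (y⁻¹ * x * y) = (x * y⁻¹ * x) * y := by group
    _ = y * x⁻¹ * (y * y) := by rw [e1]; group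
    _ = y * x⁻¹ * y⁻¹ := by rw [hy]
    _ = y⁻¹⁻¹ * x⁻¹ * y⁻¹ := by group
    _ = (y * y)⁻¹ * x⁻¹ * y⁻¹ := by rw [hy]
    _ = y⁻¹ * (y⁻¹ * x⁻¹ * y⁻¹) := by group
    _ = y⁻¹ * (x * y * x) := by rw [e2]
    _ = (y⁻¹ * x * y) * x := by group

end

/-- In a group of class at most six and exponent `3 ^ k`, `k ≥ 1`, the element
`x ^ 3 ^ (k - 1)` commutes with its conjugates. -/
theorem class_six {H : Type u} [Group H] (h6 : L H 6 = ⊥) (k : ℕ)
    (hexp : ∀ g : H, g ^ 3 ^ (k + 1) = 1) (x y : H) :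
    Commute (x ^ 3 ^ k) (y⁻¹ * x ^ 3 ^ k * y) := by
  rcases Nat.lt_or_ge k 5 with h | h
  · interval_cases k
    · have := exp_three (by simpa using hexp) x y
      simpa using this
    · exact main_aux3 h6 x y 3 hexp Cert3.p9 _ _ _ _ Cert3.sv9 Cert3.sw9 Cert3.run9 Cert3.cut9
    · exact main_aux3 h6 x y 9 hexp Cert3.p27 _ _ _ _ Cert3.sv27 Cert3.sw27 Cert3.run27 Cert3.cut27
    · exact main_aux3 h6 x y 27 hexp Cert3.p81 _ _ _ _ Cert3.sv81 Cert3.sw81 Cert3.run81
        Cert3.cut81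
    · exact main_aux3 h6 x y 81 hexp Cert3.p243 _ _ _ _ Cert3.sv243 Cert3.sw243 Cert3.run243
        Cert3.cut243
  · have hz : (x ^ 3 ^ k) ^ 3 = 1 := by rw [← pow_mul, ← pow_succ, hexp]
    have h1 := crude3 (S := ⊤) (Subgroup.mem_top x) (Subgroup.mem_top (y⁻¹ * x ^ 3 ^ k * y))
      (conj_cube hz) k
    have h2 := L_le (show 6 ≤ k + 1 by omega) h1
    rw [h6, Subgroup.mem_bot, commutatorElement_eq_one_iff_mul_comm] at h2
    exact h2

end Run7.h676
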