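import Pool.Agent.Run7.h676.SSe
import Pool.Agent.Run7.h676.Three

/-!
# Exponent `3 ^ k` : the commutator `⁅⁅a, a ^ y⁆, a⁆` for `a = x ^ 3 ^ (k - 1)`
-/

set_option autoImplicit false

namespace Run7.h676.SS

open scoped commutatorElement

universe u

section comm

variable {A : Type u} [CommGroup A] {σ : A →* A} {F f1 f2 : A}

theorem iter_one (h1 : σ f1 = f1 * f2) (h2 : σ f2 = f2) (n : ℕ) : σ^[n] f1 = f1 * f2 ^ n := by
  induction n with
  | zero => simp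
  | succ n ih =>
    rw [Function.iterate_succ_apply', ih, map_mul, map_pow, h1, h2, pow_succ']
    exact mul_assoc _ _ _

theorem iter_two (h0 : σ F = F * f1) (h1 : σ f1 = f1 * f2) (h2 : σ f2 = f2) (n : ℕ) :
    σ^[n] F = F * f1 ^ n * f2 ^ (n.choose 2) := by
  induction n with
  | zero => simp
  | succ n ih =>
    have e : (n + 1).choose 2 = n + n.choose 2 := by
      rw [Nat.choose_succ_succ' n 1, Nat.choose_one_right]
    rw [Function.iterate_succ_apply', ih, map_mul, map_mul, map_pow, map_pow, h0, h1, h2, e,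
      mul_pow, pow_add f2, pow_succ' f1]
    simp only [mul_assoc]

theorem three_dvd_choose {n : ℕ} (hn : 3 ∣ n) : 3 ∣ n.choose 2 := by
  obtain ⟨m, rfl⟩ := hn
  rw [Nat.choose_two_right]
  have h2 : 2 ∣ 3 * m * (3 * m - 1) := (Nat.even_mul_pred_self (3 * m)).two_dvd
  obtain ⟨t, ht⟩ := h2
  rw [ht, Nat.mul_div_cancel_left _ (by norm_num)]
  have h3 : 3 ∣ 2 * t := by
    rw [← ht, mul_assoc]
    exact Dvd.intro _ rfl
  exact (Nat.Coprime.dvd_of_dvd_mul_left (by norm_num) h3)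

theorem pow_dvd_one {f : A} (hf : f ^ 3 = 1) {n : ℕ} (hn : 3 ∣ n) : f ^ n = 1 := by
  obtain ⟨m, rfl⟩ := hn
  rw [pow_mul, hf, one_pow]

theorem key1 (h0 : σ F = F * f1) (h1 : σ f1 = f1 * f2) (h2 : σ f2 = f2) {n : ℕ} (hn : 3 ∣ n)
    (hE : F * σ^[n] F * σ^[n + n] F = 1) : F ^ 3 = 1 := by
  have hn2 : 3 ∣ n + n := dvd_add hn hn
  have hE1 : f1 * σ^[n] f1 * σ^[n + n] f1 = 1 := by
    have h := congrArg σ hE
    rw [map_mul, map_mul, map_one, ← Function.iterate_succ_apply' σ, ← Function.iterate_succ_apply' σ,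
      Function.iterate_succ_apply, Function.iterate_succ_apply, h0, iterate_map_mul,
      iterate_map_mul] at h
    have e : F * f1 * (σ^[n] F * σ^[n] f1) * (σ^[n + n] F * σ^[n + n] f1) =
        (F * σ^[n] F * σ^[n + n] F) * (f1 * σ^[n] f1 * σ^[n + n] f1) := by
      simp only [mul_assoc, mul_left_comm]
    rw [e, hE, one_mul] at h
    exact h
  have h3 : ∀ m, σ^[m] f2 = f2 := by
    intro m
    induction m with
    | zero => rfl
    | succ m ih => rw [Function.iterate_succ_apply', ih, h2]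
  have hE2 : f2 * σ^[n] f2 * σ^[n + n] f2 = 1 := by
    have h := congrArg σ hE1
    rw [map_mul, map_mul, map_one, ← Function.iterate_succ_apply' σ, ← Function.iterate_succ_apply' σ,
      Function.iterate_succ_apply, Function.iterate_succ_apply, h1, iterate_map_mul,
      iterate_map_mul] at h
    have e : f1 * f2 * (σ^[n] f1 * σ^[n] f2) * (σ^[n + n] f1 * σ^[n + n] f2) =
        (f1 * σ^[n] f1 * σ^[n + n] f1) * (f2 * σ^[n] f2 * σ^[n + n] f2) := by
      simp only [mul_assoc, mul_left_comm]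
    rw [e, hE1, one_mul] at h
    exact h
  have c2 : f2 ^ 3 = 1 := by
    rw [h3, h3] at hE2
    rw [← hE2, pow_succ, pow_two]
  have c1 : f1 ^ 3 = 1 := by
    rw [iter_one h1 h2, iter_one h1 h2, pow_dvd_one c2 hn, pow_dvd_one c2 hn2] at hE1
    rw [← hE1, pow_succ, pow_two]; simp
  rw [iter_two h0 h1 h2, iter_two h0 h1 h2, pow_dvd_one c1 hn, pow_dvd_one c1 hn2,
    pow_dvd_one c2 (three_dvd_choose hn), pow_dvd_one c2 (three_dvd_choose hn2)] at hE
  rw [← hE, pow_succ, pow_two]; simp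

theorem key2 (h0 : σ F = F * f1) (h1 : σ f1 = f1 * f2) (h2 : σ f2 = f2) {n : ℕ} (hn : 3 ∣ n)
    (hF : F ^ 3 = 1) : σ^[n] F = F := by
  have c1 : f1 ^ 3 = 1 := by
    have h := congrArg σ hF
    rw [map_pow, h0, mul_pow, hF, one_mul, map_one] at h
    exact h
  have c2 : f2 ^ 3 = 1 := by
    have h := congrArg σ c1
    rw [map_pow, h1, mul_pow, c1, one_mul, map_one] at h
    exact h
  rw [iter_two h0 h1 h2, pow_dvd_one c1 hn, pow_dvd_one c2 (three_dvd_choose hn)]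
  simp

end comm

variable {K : Type u} [Group K]

theorem cj_L {i : ℕ} {u : K} (hu : u ∈ L K i) (x : K) : cj x u ∈ L K i :=
  conj_lcs _ i x (Subgroup.mem_top x) u hu

theorem shift_L {i : ℕ} {u : K} (hu : u ∈ L K i) (x : K) : u⁻¹ * cj x u ∈ L K (i + 1) := by
  have h := Subgroup.commutator_mem_commutator (inv_mem hu) (Subgroup.mem_top x)
  have e : ⁅u⁻¹, x⁆ = u⁻¹ * cj x u := by rw [commutatorElement_def]; unfold cj; group
  rw [e] at h
  exact h

/-- the conjugation by `x` on `L K 6` -/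
def cjA (x : K) : L K 6 →* L K 6 where
  toFun u := ⟨cj x u, cj_L u.2 x⟩
  map_one' := Subtype.ext (by change cj x 1 = 1; unfold cj; group)
  map_mul' a b := Subtype.ext (by change cj x (a * b) = cj x a * cj x b; exact cj_mul _ _ _)

theorem cjA_iter (x : K) (u : L K 6) (n : ℕ) : (((cjA x)^[n] u : L K 6) : K) = cj (x ^ n) u := by
  induction n with
  | zero => rw [pow_zero, cj_one]; rfl
  | succ n ih =>
    rw [Function.iterate_succ_apply', pow_succ', ← cj_cj, ← ih]; rfl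

theorem comm6 (h9 : L K 9 = ⊥) (a b : L K 6) : a * b = b * a :=
  Subtype.ext (comm_of_mem h9 a.2 b.2 (by norm_num))

/-- the elements `f1`, `f2` for `x` and `F` -/
theorem trip (h9 : L K 9 = ⊥) (x : K) (F : L K 6) : ∃ f1 f2 : L K 6,
    cjA x F = F * f1 ∧ cjA x f1 = f1 * f2 ∧ cjA x f2 = f2 := by
  have h1 := shift_L F.2 x
  have h2 := shift_L h1 x
  have h3 := shift_L h2 x
  rw [h9, Subgroup.mem_bot] at h3
  refine ⟨⟨_, L_le (by norm_num) h1⟩, ⟨_, L_le (by norm_num) h2⟩, ?_, ?_, ?_⟩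
  · apply Subtype.ext
    change cj x (F : K) = (F : K) * ((F : K)⁻¹ * cj x F)
    rw [mul_inv_cancel_left]
  · apply Subtype.ext
    change cj x ((F : K)⁻¹ * cj x F) = ((F : K)⁻¹ * cj x F) *
      (((F : K)⁻¹ * cj x F)⁻¹ * cj x ((F : K)⁻¹ * cj x F))
    rw [mul_inv_cancel_left]
  · apply Subtype.ext
    exact (inv_mul_eq_one.1 h3).symm

theorem nine (h9 : L K 9 = ⊥) (k : ℕ) (hk : 1 ≤ k) (hexp : ∀ g : K, g ^ 3 ^ (k + 1) = 1) (x y : K)
    (hF : ⁅x ^ 3 ^ k, cj y (x ^ 3 ^ k)⁆ ∈ L K 6) :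
    Commute ⁅x ^ 3 ^ k, cj y (x ^ 3 ^ k)⁆ (x ^ 3 ^ k) := by
  let _ : CommGroup (L K 6) := { (inferInstance : Group (L K 6)) with mul_comm := comm6 h9 }
  have hn : 3 ∣ 3 ^ k := dvd_pow_self 3 (by omega)
  set n := 3 ^ k with hnd
  set F : L K 6 := ⟨_, hF⟩ with hFd
  set x' := cj y x with hx'
  have hb : cj y (x ^ n) = x' ^ n := by
    rw [hx']; unfold cj; rw [conj_pow]
  have hb3 : (x' ^ n) * (x' ^ n) * (x' ^ n) = 1 := by
    have : x' ^ 3 ^ (k + 1) = 1 := hexp x'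
    rw [pow_succ 3 k, pow_mul, ← hnd] at this
    exact cube this
  have hE : F * (cjA x')^[n] F * (cjA x')^[n + n] F = 1 := by
    apply Subtype.ext
    change (F : K) * ((cjA x')^[n] F : L K 6) * ((cjA x')^[n + n] F : L K 6) = 1
    rw [cjA_iter, cjA_iter, pow_add]
    change ⁅x ^ n, cj y (x ^ n)⁆ * cj (x' ^ n) ⁅x ^ n, cj y (x ^ n)⁆ *
      cj (x' ^ n * x' ^ n) ⁅x ^ n, cj y (x ^ n)⁆ = 1
    rw [hb]
    generalize x' ^ n = b at hb3
    generalize x ^ n = a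
    calc ⁅a, b⁆ * cj b ⁅a, b⁆ * cj (b * b) ⁅a, b⁆ = a * (b * b * b) * a⁻¹ * (b * b * b)⁻¹ := by
          rw [commutatorElement_def]; unfold cj; group
      _ = 1 := by rw [hb3]; group
  obtain ⟨f1, f2, h0, h1, h2⟩ := trip h9 x' F
  have hF3 : F ^ 3 = 1 := key1 h0 h1 h2 hn hE
  obtain ⟨g1, g2, h0', h1', h2'⟩ := trip h9 x F
  have h := congrArg Subtype.val (key2 h0' h1' h2' hn hF3)
  rw [cjA_iter] at h
  change cj (x ^ n) ⁅x ^ n, cj y (x ^ n)⁆ = ⁅x ^ n, cj y (x ^ n)⁆ at h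
  generalize ⁅x ^ n, cj y (x ^ n)⁆ = D at h
  have : x ^ n * D = D * x ^ n := by
    calc x ^ n * D = cj (x ^ n) D * x ^ n := by unfold cj; group
      _ = _ := by rw [h]
  exact this.symm

/-- the map to the quotient by a term of the lower central series -/
theorem L_quot (i : ℕ) : L (K ⧸ L K i) i = ⊥ := by
  have e : (⊤ : Subgroup (K ⧸ L K i)) = (⊤ : Subgroup K).map (QuotientGroup.mk' (L K i)) := by
    rw [Subgroup.map_top_of_surjective _ (QuotientGroup.mk'_surjective _)]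
  change (⊤ : Subgroup (K ⧸ L K i)).lowerCentralSeries i = ⊥
  rw [e, ← Subgroup.map_lowerCentralSeries, eq_bot_iff]
  rintro _ ⟨a, ha, rfl⟩
  rw [Subgroup.mem_bot]
  exact (QuotientGroup.eq_one_iff a).2 ha

theorem L_map {K' : Type u} [Group K'] (f : K →* K') {i : ℕ} {a : K} (ha : a ∈ L K i) :
    f a ∈ L K' i := by
  have h : f a ∈ (L K i).map f := ⟨a, ha, rfl⟩
  rw [Subgroup.map_lowerCentralSeries] at h
  exact Subgroup.lowerCentralSeries_mono i (le_top : (⊤ : Subgroup K).map f ≤ ⊤) h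

theorem F_mem (k : ℕ) (hexp : ∀ g : K, g ^ 3 ^ (k + 1) = 1) (x y : K) :
    ⁅x ^ 3 ^ k, cj y (x ^ 3 ^ k)⁆ ∈ L K 6 := by
  have h := class_six (H := K ⧸ L K 6) (L_quot 6) k (by
    intro g
    obtain ⟨g, rfl⟩ := QuotientGroup.mk_surjective g
    rw [← QuotientGroup.mk_pow, hexp]; rfl) (QuotientGroup.mk x) (QuotientGroup.mk y⁻¹)
  rw [← QuotientGroup.eq_one_iff]
  have e : (QuotientGroup.mk ⁅x ^ 3 ^ k, cj y (x ^ 3 ^ k)⁆ : K ⧸ L K 6) =
      ⁅(QuotientGroup.mk x : K ⧸ L K 6) ^ 3 ^ k, ((QuotientGroup.mk y⁻¹ : K ⧸ L K 6))⁻¹ *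
        (QuotientGroup.mk x : K ⧸ L K 6) ^ 3 ^ k * (QuotientGroup.mk y⁻¹ : K ⧸ L K 6)⁆ := by
    change (QuotientGroup.mk' (L K 6)) ⁅x ^ 3 ^ k, cj y (x ^ 3 ^ k)⁆ =
      ⁅((QuotientGroup.mk' (L K 6)) x) ^ 3 ^ k, ((QuotientGroup.mk' (L K 6)) y⁻¹)⁻¹ *
        ((QuotientGroup.mk' (L K 6)) x) ^ 3 ^ k * ((QuotientGroup.mk' (L K 6)) y⁻¹)⁆
    rw [map_commutatorElement, cj_map, map_pow, map_inv, inv_inv]; rfl
  rw [e]
  exact commutatorElement_eq_one_iff_commute.2 h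

/-- In exponent `3 ^ (k + 1)`, `k ≥ 1`, the commutator `⁅⁅a, cj y a⁆, a⁆` for `a = x ^ 3 ^ k` lies in
`γ_10`. -/
theorem c_mem (k : ℕ) (hk : 1 ≤ k) (hexp : ∀ g : K, g ^ 3 ^ (k + 1) = 1) (x y : K) :
    W (x ^ 3 ^ k) [y] ∈ L K 9 := by
  have hexp' : ∀ g : K ⧸ L K 9, g ^ 3 ^ (k + 1) = 1 := by
    intro g
    obtain ⟨g, rfl⟩ := QuotientGroup.mk_surjective g
    rw [← QuotientGroup.mk_pow, hexp]; rfl
  have h := nine (K := K ⧸ L K 9) (L_quot 9) k hk hexp' (QuotientGroup.mk' (L K 9) x)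
    (QuotientGroup.mk' (L K 9) y) (F_mem k hexp' _ _)
  rw [← QuotientGroup.eq_one_iff]
  change QuotientGroup.mk' (L K 9) (W (x ^ 3 ^ k) [y]) = 1
  rw [W_map, map_pow]
  exact commutatorElement_eq_one_iff_commute.2 h

end Run7.h676.SS
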