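import Pool.Agent.Run7.h676.Three
import Pool.Agent.Run7.h676.Main

/-!
# 3-groups in which the 2-generated subgroups have class at most seven: the theorem
-/

set_option autoImplicit false

namespace Run7.h676

universe u v

variable {G : Type u} [Group G]

/-- descent: from exponent `3 ^ (k + 1)` to `3 ^ k` -/
theorem descent3 (h7 : Two G 7) (hr : ∀ z : G, Star z → z = 1) (k : ℕ)
    (hexp : ∀ g : G, g ^ 3 ^ (k + 1) = 1) : ∀ g : G, g ^ 3 ^ k = 1 := by
  intro x
  refine hr _ ?_
  intro y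
  have hx : x ∈ Subgroup.closure ({x, y} : Set G) := Subgroup.subset_closure (by simp)
  refine star_of_quot (h7 x y) _ (Subgroup.pow_mem _ hx _) ?_
  intro z' y' hz' hy'
  have h6 := L_quot_center (L_sub _ (h7 x y))
  have h := class_six h6 k ?_ (QuotientGroup.mk ⟨x, hx⟩) (QuotientGroup.mk y')
  · have e : z' = ⟨x, hx⟩ ^ 3 ^ k := Subtype.ext (by rw [Subgroup.coe_pow, hz'])
    rw [e]
    exact h
  · intro g
    obtain ⟨g, rfl⟩ := QuotientGroup.mk_surjective g
    rw [← QuotientGroup.mk_pow]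
    have : g ^ 3 ^ (k + 1) = 1 := Subtype.ext (by rw [Subgroup.coe_pow, hexp]; rfl)
    rw [this]; rfl

/-- bounding the exponent -/
theorem bounded3 (h7 : Two G 7) (hr : ∀ z : G, Star z → z = 1) (m : ℕ) :
    ∀ g : G, g ^ 3 ^ m = 1 → g ^ 3 ^ 6 = 1 := by
  induction m with
  | zero =>
    intro g hg
    rw [pow_zero, pow_one] at hg
    rw [hg, one_pow]
  | succ m ih =>
    intro x hx
    rcases Nat.lt_or_ge m 6 with h | h
    · obtain ⟨d, hd⟩ := Nat.exists_eq_add_of_lt h
      have e : 6 = (m + 1) + d := by omega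
      have e2 : (3 : ℕ) ^ 6 = 3 ^ (m + 1) * 3 ^ d := by rw [← pow_add, ← e]
      rw [e2, pow_mul, hx, one_pow]
    · refine ih x (hr _ ?_)
      intro y
      have hxm : x ∈ Subgroup.closure ({x, y} : Set G) := Subgroup.subset_closure (by simp)
      have hym : y ∈ Subgroup.closure ({x, y} : Set G) := Subgroup.subset_closure (by simp)
      have hz : (x ^ 3 ^ m) ^ 3 = 1 := by rw [← pow_mul, ← pow_succ, hx]
      have h1 := crude3 (S := Subgroup.closure ({x, y} : Set G)) hxm
        (mul_mem (mul_mem (inv_mem hym) (Subgroup.pow_mem _ hxm (3 ^ m))) hym)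
        (conj_cube hz) m
      have h2 : (Subgroup.closure ({x, y} : Set G)).lowerCentralSeries (m + 1) = ⊥ :=
        eq_bot_iff.2 ((Subgroup.lowerCentralSeries_antitone _ (by omega : 7 ≤ m + 1)).trans
          (h7 x y).le)
      rw [h2, Subgroup.mem_bot, commutatorElement_eq_one_iff_mul_comm] at h1
      rw [cm_eq_one h1]
      exact Commute.one_left y

/-- Every 3-group in which the 2-generated subgroups have class at most seven is locally finite. -/
theorem main3 (h7 : Two G 7) (h3 : ∀ g : G, ∃ k : ℕ, g ^ 3 ^ k = 1) : LF (⊤ : Subgroup G) := by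
  refine LF_top_of_quot ?_
  have h7' : Two (G ⧸ rad G) 7 := h7.map (QuotientGroup.mk' (rad G)) (QuotientGroup.mk'_surjective _)
  have h3' : ∀ g : G ⧸ rad G, ∃ k : ℕ, g ^ 3 ^ k = 1 := by
    intro g
    obtain ⟨g, rfl⟩ := QuotientGroup.mk_surjective g
    obtain ⟨k, hk⟩ := h3 g
    exact ⟨k, by rw [← QuotientGroup.mk_pow, hk]; rfl⟩
  have ht : ∀ g : G ⧸ rad G, ∃ n : ℕ, 0 < n ∧ g ^ n = 1 := by
    intro g
    obtain ⟨k, hk⟩ := h3' g
    exact ⟨3 ^ k, by positivity, hk⟩
  have hr : ∀ z : G ⧸ rad G, Star z → z = 1 := by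
    intro z hz
    have h1 := rad_quot _ Subgroup.normalClosure_normal (starLFT hz ht)
    have h3 : z ∈ Subgroup.normalClosure {z} :=
      Subgroup.subset_normalClosure (Set.mem_singleton z)
    rw [h1] at h3
    exact Subgroup.mem_bot.1 h3
  have e6 : ∀ g : G ⧸ rad G, g ^ 3 ^ 6 = 1 := by
    intro g
    obtain ⟨k, hk⟩ := h3' g
    exact bounded3 h7' hr k g hk
  have e5 := descent3 h7' hr 5 e6
  have e4 := descent3 h7' hr 4 e5
  have e3 := descent3 h7' hr 3 e4
  have e2 := descent3 h7' hr 2 e3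
  have e1 := descent3 h7' hr 1 e2
  have e0 := descent3 h7' hr 0 e1
  intro q
  simpa using e0 q

end Run7.h676
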